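import Pool.Agent.LibCV66.J1
import Pool.Agent.LibEnd77.ValA

/-!
[CV66 J4] the fundamental identity, for geometric places: `∑ e(p | q) = [K : H]` over the geometric
places `p` of `K` over a geometric place `q` of `H`.

Plan (STRONG, only Mathlib and LibCHd/Api). Let `v = q.1`, `A = VR v`: a discrete valuation ring with the
fraction field `H` (the ideal `m = {Zer}` is generated by a uniformizer; `IsDiscreteValuationRing`, or
via `ValuationRing` + principal ideals; every nonzero element is a unit times a power of the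
uniformizer), `B = integralClosure A K`: a Dedekind domain (`integralClosure.isDedekindDomain`), finite
over `A` (char 0, separable: `IsIntegralClosure.finite`), with finitely many primes over `m`; the
identity `Ideal.sum_ramification_inertia` (file RingTheory/RamificationInertia/Basic) says
`∑ e_P f_P = [K : H]` over the primes `P` of `B` over `m`.
(1) For a prime `P` over `m`: the `P`-adic valuation of `K` (`HeightOneSpectrum.valuation`, or
`count` of `P` in the factorisation of a principal fractional ideal) gives a place `w_P : Place k K` with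
`w_P.Reg b` for `b` in `B`, `w_P.Zer b ↔ b ∈ P` for `b` in `B`, `w_P.ord f = e_P * v.ord f` for `f` in `H`
(`k` lies in `A`, so it is trivial on `k`); every regular function is `b / c` with `b`, `c` in `B`,
`c ∉ P` (localisation), so `B ⧸ P → RF w_P` is an isomorphism and `[RF w_P : RF v] = f_P`.
(2) Every place `w` of `K` with `w.ord f = e * v.ord f`, `e > 0`, is some `w_P`: `B ⊆ VR w` (valuation rings
are integrally closed), `P = B ∩ m_w` is a prime over `m`, and `VR w_P ⊆ VR w`, so the two places are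
equal (normalised).
(3) The geometric places `p` over `q` with `p.1 = w` are the embeddings of `RF w` in `Ω` which extend
the embedding `q.2` of `RF v`; their number is `[RF w : RF v]` (`Ω` algebraically closed, char 0:
`AlgHom.card`, with the algebra structure of `Ω` over `RF v` given by `q.2`).
(4) Sum up; `Res i p q` for `p = (w, ε)` means: `w` lies over `v` (`res_ord`) and `ε` extends `q.2`.
-/

open WeierstrassCurve Pool.Agent.LibBH2 Pool.Agent.LibIG50 Pool.Agent.LibCHd Pool.Agent.LibAC34
open Pool.Agent.LibEnd77.Val8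
open scoped Classical

namespace Pool.Agent.LibCV66

variable {k : Type} [Field k] {H K Ω : Type} [Field H] [Algebra k H] [Field K] [Algebra k K]
  [Field Ω] [Algebra k Ω]

section one

variable {A B Ω : Type} [CommRing A] [CommRing B] [Field Ω] [Algebra A B] [Algebra A Ω]

private theorem j4_card_ker [CharZero Ω] [IsAlgClosed Ω] [Module.Finite A B] (m : Ideal A) [hm : m.IsMaximal]
    (hker : RingHom.ker (algebraMap A Ω) = m) (P : Ideal B) [hP : P.IsPrime] [hPm : P.LiesOver m] :
    Finite {ψ : B →ₐ[A] Ω // RingHom.ker ψ = P} ∧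
      Nat.card {ψ : B →ₐ[A] Ω // RingHom.ker ψ = P} = Ideal.inertiaDeg' m P := by
  have hPmax : P.IsMaximal := Ideal.IsMaximal.of_liesOver_isMaximal P m
  let _ : Field (A ⧸ m) := Ideal.Quotient.field m
  let _ : Field (B ⧸ P) := Ideal.Quotient.field P
  have hl : ∀ a ∈ m, algebraMap A Ω a = 0 := by
    intro a ha
    rw [← hker] at ha
    exact ha
  let _ : Algebra (A ⧸ m) Ω := (Ideal.Quotient.lift m (algebraMap A Ω) hl).toAlgebra
  have hfin : FiniteDimensional (A ⧸ m) (B ⧸ P) := inferInstance
  have hchar : CharZero (A ⧸ m) :=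
    RingHom.charZero (algebraMap (A ⧸ m) Ω)
  have hcard := AlgHom.card (F := A ⧸ m) (E := B ⧸ P) Ω
  let e : {ψ : B →ₐ[A] Ω // RingHom.ker ψ = P} ≃ ((B ⧸ P) →ₐ[A ⧸ m] Ω) :=
    { toFun := fun ψ =>
        { toRingHom := Ideal.Quotient.lift P (ψ.1 : B →+* Ω) (fun b hb => by
            rw [← ψ.2] at hb
            exact hb)
          commutes' := by
            rintro ⟨a⟩
            exact ψ.1.commutes a }
      invFun := fun φ => ⟨
        { toRingHom := (φ : (B ⧸ P) →+* Ω).comp (Ideal.Quotient.mk P)
          commutes' := fun a => φ.commutes (Ideal.Quotient.mk m a) }, by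
          ext b
          rw [RingHom.mem_ker]
          change φ (Ideal.Quotient.mk P b) = 0 ↔ b ∈ P
          rw [map_eq_zero_iff φ (φ : (B ⧸ P) →+* Ω).injective, Ideal.Quotient.eq_zero_iff_mem]⟩
      left_inv := fun ψ => by
        apply Subtype.ext
        ext b
        rfl
      right_inv := fun φ => by
        ext ⟨b⟩
        rfl }
  refine ⟨Finite.of_equiv _ e.symm, ?_⟩
  rw [Nat.card_congr e, Nat.card_eq_fintype_card, hcard, Ideal.inertiaDeg'_algebraMap]

end one

section two

variable {A B H K Ω : Type} [CommRing A] [IsDedekindDomain A] [CommRing B] [IsDedekindDomain B]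
  [Field H] [Field K] [Algebra A H] [IsFractionRing A H] [Algebra B K] [IsFractionRing B K]
  [Algebra H K] [Algebra A K] [IsScalarTower A H K] [Algebra A B] [IsScalarTower A B K]
  [Module.Finite A B] [Field Ω] [Algebra A Ω]

private theorem j4_count [CharZero Ω] [IsAlgClosed Ω] (m : Ideal A) [hm : m.IsMaximal] (hm0 : m ≠ ⊥)
    (hker : RingHom.ker (algebraMap A Ω) = m) :
    Finite (B →ₐ[A] Ω) ∧ ∑ᶠ ψ : B →ₐ[A] Ω, Ideal.ramificationIdx' m (RingHom.ker ψ) =
      Module.finrank H K := by
  have htf : Module.IsTorsionFree A B := by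
    have hinj : Function.Injective (algebraMap A B) := by
      have h1 : Function.Injective (algebraMap A K) := by
        rw [IsScalarTower.algebraMap_eq A H K]
        exact (algebraMap H K).injective.comp (IsFractionRing.injective A H)
      rw [IsScalarTower.algebraMap_eq A B K] at h1
      exact Function.Injective.of_comp h1
    exact (Module.isTorsionFree_iff_algebraMap_injective).2 hinj
  have hS : ∀ P : Ideal B, P ∈ IsDedekindDomain.primesOverFinset m B ↔
      P.IsPrime ∧ P.LiesOver m := fun P =>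
    IsDedekindDomain.mem_primesOverFinset_iff hm0 _
  have hk : ∀ ψ : B →ₐ[A] Ω, RingHom.ker ψ ∈ IsDedekindDomain.primesOverFinset m B := by
    intro ψ
    rw [hS]
    refine ⟨RingHom.ker_isPrime _, ⟨?_⟩⟩
    ext a
    rw [Ideal.under_def, Ideal.mem_comap, RingHom.mem_ker, AlgHom.commutes, ← hker,
      RingHom.mem_ker]
  have hfin : Finite (B →ₐ[A] Ω) := by
    let F : (B →ₐ[A] Ω) → (Σ P : {P // P ∈ IsDedekindDomain.primesOverFinset m B},
        {ψ : B →ₐ[A] Ω // RingHom.ker ψ = P.1}) := fun ψ => ⟨⟨_, hk ψ⟩, ⟨ψ, rfl⟩⟩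
    have hF : Function.Injective F := by
      intro ψ ψ' h
      have h1 : (F ψ).2.1 = (F ψ').2.1 := by rw [h]
      exact h1
    have hfin2 : ∀ P : {P // P ∈ IsDedekindDomain.primesOverFinset m B},
        Finite {ψ : B →ₐ[A] Ω // RingHom.ker ψ = P.1} := by
      intro P
      have := ((hS P.1).1 P.2).1
      have := ((hS P.1).1 P.2).2
      exact (j4_card_ker m hker P.1).1
    exact Finite.of_injective F hF
  refine ⟨hfin, ?_⟩
  have _ := Fintype.ofFinite (B →ₐ[A] Ω)
  rw [finsum_eq_sum_of_fintype, ← Ideal.sum_ramification_inertia B H K hm0,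
    ← Finset.sum_fiberwise_of_maps_to (s := Finset.univ)
      (t := IsDedekindDomain.primesOverFinset m B) (g := fun ψ : B →ₐ[A] Ω => RingHom.ker ψ)
      (fun ψ _ => hk ψ)]
  refine Finset.sum_congr rfl fun P hP => ?_
  have := ((hS P).1 hP).1
  have := ((hS P).1 hP).2
  rw [Finset.sum_congr rfl (g := fun _ => Ideal.ramificationIdx' m P) (fun ψ hψ => by
    rw [(Finset.mem_filter.1 hψ).2]), Finset.sum_const, smul_eq_mul, mul_comm]
  congr 1
  rw [← (j4_card_ker m hker P).2, Nat.card_eq_fintype_card, Fintype.card_subtype]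

end two


section dvr

variable (v : Place k H)

private theorem j4_frac : IsFractionRing (VR v) H := by
  refine IsFractionRing.of_field (VR v) H fun z => ?_
  by_cases hz : v.Reg z
  · exact ⟨⟨z, hz⟩, 1, by simp; rfl⟩
  · have hz0 : z ≠ 0 := fun h => hz (Or.inl h)
    have h1 : v.ord z < 0 := by
      by_contra h
      exact hz (Or.inr (not_lt.1 h))
    refine ⟨1, ⟨z⁻¹, Or.inr (by rw [v.ord_inv]; omega)⟩, ?_⟩
    rw [map_one]
    change z = 1 / z⁻¹
    simp

private theorem j4_dvr : IsDiscreteValuationRing (VR v) := by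
  obtain ⟨t, ht⟩ := v.exists_uniformizer
  have ht0 : t ≠ 0 := by
    rintro rfl
    rw [v.ord_zero] at ht
    omega
  have htr : v.Reg t := Or.inr (by omega)
  have hunit : ∀ u : VR v, v.ord (u : H) = 0 → (u : H) ≠ 0 → IsUnit u := by
    intro u hu hu0
    apply isUnit_VR
    rintro (h | h)
    · exact hu0 h
    · omega
  apply IsDiscreteValuationRing.ofHasUnitMulPowIrreducibleFactorization
  refine ⟨⟨t, htr⟩, ⟨?_, ?_⟩, ?_⟩
  · intro h
    obtain ⟨s, hs⟩ := h.exists_right_inv
    have h1 : t * (s : H) = 1 := congrArg Subtype.val hs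
    have hs0 : (s : H) ≠ 0 := by
      intro h
      rw [h, mul_zero] at h1
      exact zero_ne_one h1
    have h2 : v.ord (t * (s : H)) = 0 := by rw [h1, v.ord_one]
    rw [v.ord_mul _ _ ht0 hs0, ht] at h2
    have h3 := s.2.resolve_left hs0
    omega
  · intro a b hab
    have h1 : t = (a : H) * (b : H) := congrArg Subtype.val hab
    have ha0 : (a : H) ≠ 0 := by
      intro h
      rw [h, zero_mul] at h1
      exact ht0 h1
    have hb0 : (b : H) ≠ 0 := by
      intro h
      rw [h, mul_zero] at h1
      exact ht0 h1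
    have h2 : v.ord ((a : H) * (b : H)) = 1 := by rw [← h1, ht]
    rw [v.ord_mul _ _ ha0 hb0] at h2
    have h3 := a.2.resolve_left ha0
    have h4 := b.2.resolve_left hb0
    by_cases h5 : v.ord (a : H) = 0
    · exact Or.inl (hunit a h5 ha0)
    · exact Or.inr (hunit b (by omega) hb0)
  · intro x hx
    have hx0 : (x : H) ≠ 0 := fun h => hx (Subtype.ext h)
    have h1 := x.2.resolve_left hx0
    obtain ⟨n, hn⟩ := Int.eq_ofNat_of_zero_le h1
    refine ⟨n, ?_⟩
    have hreg : v.Reg ((x : H) / t ^ n) := by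
      right
      rw [v.ord_div _ _ hx0 (pow_ne_zero _ ht0), v.ord_pow, ht]
      omega
    have hu : IsUnit (⟨(x : H) / t ^ n, hreg⟩ : VR v) := by
      apply hunit
      · show v.ord ((x : H) / t ^ n) = 0
        rw [v.ord_div _ _ hx0 (pow_ne_zero _ ht0), v.ord_pow, ht]
        omega
      · exact div_ne_zero hx0 (pow_ne_zero _ ht0)
    refine ⟨hu.unit, ?_⟩
    apply Subtype.ext
    change t ^ n * ((x : H) / t ^ n) = x
    field_simp

end dvr


section gen

variable {R : Type} [CommRing R] [IsDedekindDomain R] [Algebra R K] [IsFractionRing R K]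
  [Algebra k R] [IsScalarTower k R K]

open IsDedekindDomain

private theorem j4_regR (P : HeightOneSpectrum R) (r : R) :
    (ofHOS (k := k) (H := K) P).Reg (algebraMap R K r) := by
  by_cases h0 : algebraMap R K r = 0
  · exact Or.inl h0
  · right
    have h1 := P.valuation_le_one (K := K) r
    rw [ofHOS_ord (k := k) P h0, ← WithZero.exp_zero, WithZero.exp_le_exp] at h1
    omega

private theorem j4_quot (P : HeightOneSpectrum R) {x : K} (hx : (ofHOS (k := k) (H := K) P).Reg x) :
    ∃ a s : R, s ∉ P.asIdeal ∧ x = algebraMap R K a / algebraMap R K s := by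
  by_cases h0 : x = 0
  · refine ⟨0, 1, fun h => P.isPrime.ne_top ((Ideal.eq_top_iff_one _).2 h), ?_⟩
    rw [h0, map_zero, zero_div]
  have h2 := hx.resolve_left h0
  have h1 : x ∈ (P.valuation K).valuationSubring := by
    rw [Valuation.mem_valuationSubring_iff, ofHOS_ord (k := k) P h0, ← WithZero.exp_zero,
      WithZero.exp_le_exp]
    omega
  rw [← HeightOneSpectrum.valuationSubringAtPrime_eq_valuationSubring] at h1
  obtain ⟨a, s, hs, rfl⟩ := h1
  exact ⟨a, s, hs, (div_eq_mul_inv _ _).symm⟩

private theorem j4_eps (P : HeightOneSpectrum R) (ψ : R →+* Ω) (hψ : RingHom.ker ψ = P.asIdeal)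
    (hk : ∀ c : k, ψ (algebraMap k R c) = algebraMap k Ω c) :
    ∃ ε : RF (ofHOS (k := k) (H := K) P) →ₐ[k] Ω,
      ∀ r : R, Vl (⟨ofHOS (k := k) (H := K) P, ε⟩ : Geo k K Ω) (algebraMap R K r) (ψ r) := by
  set w := ofHOS (k := k) (H := K) P with hw
  let g : R →+* VR w := (algebraMap R K).codRestrict (VR w) (fun r => j4_regR P r)
  let ρ : R →+* RF w := (IsLocalRing.residue (VR w)).comp g
  have hred : ∀ r, Red w (algebraMap R K r) (ρ r) := fun r => ⟨j4_regR P r, rfl⟩
  have hker : RingHom.ker ρ = P.asIdeal := by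
    ext r
    rw [RingHom.mem_ker, ← ofHOS_zer (k := k) (H := K) P r, ← red_zero_iff]
    constructor
    · intro h
      have := hred r
      rwa [h] at this
    · intro h
      exact (hred r).unique h
  have hPmax : P.asIdeal.IsMaximal := P.isMaximal
  have hρ : Function.Surjective ρ := by
    intro x
    obtain ⟨f, hf⟩ := exists_rep x
    obtain ⟨a, s, hs, hfa⟩ := j4_quot P hf.reg
    obtain ⟨s', hs'⟩ : ∃ s' : R, s * s' - 1 ∈ P.asIdeal := by
      have h1 : (Ideal.Quotient.mk P.asIdeal s) ≠ 0 := by
        rwa [Ne, Ideal.Quotient.eq_zero_iff_mem]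
      let _ : Field (R ⧸ P.asIdeal) := Ideal.Quotient.field P.asIdeal
      obtain ⟨s', hs'⟩ := Ideal.Quotient.mk_surjective (Ideal.Quotient.mk P.asIdeal s)⁻¹
      refine ⟨s', ?_⟩
      rw [← Ideal.Quotient.eq_zero_iff_mem, map_sub, map_mul, hs', mul_inv_cancel₀ h1, map_one,
        sub_self]
    refine ⟨a * s', ?_⟩
    have hs0 : algebraMap R K s ≠ 0 := by
      intro h
      apply hs
      have : s = 0 := by
        rwa [FaithfulSMul.algebraMap_eq_zero_iff] at h
      rw [this]
      exact zero_mem _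
    have h2 : w.Zer (algebraMap R K (a * s') - f) := by
      have h3 : algebraMap R K (a * s') - f = f * algebraMap R K (s * s' - 1) := by
        rw [hfa, map_mul, map_sub, map_mul, map_one]
        field_simp
      rw [h3]
      exact Place.Zer.reg_mul hf.reg ((ofHOS_zer (k := k) (H := K) P _).2 hs')
    exact (hred _).unique ((red_iff_sub hf).2 h2)
  let ε₀ : RF w →+* Ω := RingHom.liftOfSurjective ρ hρ ⟨ψ, by rw [hker, hψ]⟩
  have hε₀ : ∀ r, ε₀ (ρ r) = ψ r := fun r => RingHom.liftOfSurjective_comp_apply ρ hρ _ r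
  let ε : RF w →ₐ[k] Ω :=
    { toRingHom := ε₀
      commutes' := by
        intro c
        have h1 : algebraMap k (RF w) c = ρ (algebraMap k R c) := by
          have h2 := hred (algebraMap k R c)
          rw [← IsScalarTower.algebraMap_apply k R K] at h2
          exact (red_const w c).unique h2
        change ε₀ (algebraMap k (RF w) c) = algebraMap k Ω c
        rw [h1, hε₀, hk] }
  exact ⟨ε, fun r => ⟨ρ r, hred r, hε₀ r⟩⟩

private theorem j4_ker {p : Geo k K Ω} {ψ : R →+* Ω} (h : ∀ r, Vl p (algebraMap R K r) (ψ r))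
    (r : R) : ψ r = 0 ↔ p.1.Zer (algebraMap R K r) := by
  obtain ⟨a, ha, ha'⟩ := h r
  rw [← red_zero_iff, ← ha']
  constructor
  · intro h0
    have : a = 0 := by
      apply p.2.toRingHom.injective
      rw [map_zero]
      exact h0
    rwa [this] at ha
  · intro h0
    rw [ha.unique h0, map_zero]

private theorem j4_hos {p : Geo k K Ω} {ψ : R →+* Ω} (h : ∀ r, Vl p (algebraMap R K r) (ψ r))
    (P : HeightOneSpectrum R) (hP : P.asIdeal = RingHom.ker ψ) :
    p.1 = ofHOS (k := k) (H := K) P := by
  apply eq_ofHOS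
  · intro r
    exact vl_reg (h r)
  · intro r
    rw [hP, RingHom.mem_ker]
    exact j4_ker h r

private theorem j4_val {p : Geo k K Ω} {ψ : R →+* Ω} (h : ∀ r, Vl p (algebraMap R K r) (ψ r))
    (a s : R) (hs : ψ s ≠ 0) : Vl p (algebraMap R K a / algebraMap R K s) (ψ a / ψ s) := by
  obtain ⟨x, hx, hx'⟩ := h a
  obtain ⟨y, hy, hy'⟩ := h s
  have hy0 : y ≠ 0 := by
    rintro rfl
    rw [map_zero] at hy'
    exact hs hy'.symm
  exact ⟨x / y, hx.div hy hy0, by rw [map_div₀, hx', hy']⟩

private theorem j4_inj {p p' : Geo k K Ω} {ψ : R →+* Ω}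
    (h : ∀ r, Vl p (algebraMap R K r) (ψ r)) (h' : ∀ r, Vl p' (algebraMap R K r) (ψ r))
    (P : HeightOneSpectrum R) (hP : P.asIdeal = RingHom.ker ψ) : p = p' := by
  apply geo_ext
  intro f c hf
  have h1 := vl_reg hf
  rw [j4_hos h' P hP] at h1
  obtain ⟨a, s, hs, rfl⟩ := j4_quot P h1
  rw [hP, RingHom.mem_ker] at hs
  rw [vl_unique hf (j4_val h' a s hs)]
  exact j4_val h a s hs

end gen

section setup

attribute [local instance] j4_frac j4_dvr

variable [Algebra H K] [IsScalarTower k H K]

private theorem j4_tower (v : Place k H) : IsScalarTower k (VR v) K := by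
  refine IsScalarTower.of_algebraMap_eq fun c => ?_
  change algebraMap k K c = algebraMap H K (algebraMap k H c)
  exact IsScalarTower.algebraMap_apply k H K c

attribute [local instance] j4_tower

private theorem j4_charH [CharZero k] : CharZero H :=
  charZero_of_injective_algebraMap (algebraMap k H).injective

private theorem j4_ded [CharZero k] [FiniteDimensional H K] (v : Place k H) :
    IsDedekindDomain (integralClosure (VR v) K) := by
  have := j4_charH (k := k) (H := H)
  exact integralClosure.isDedekindDomain (VR v) H K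

private theorem j4_fracB [FiniteDimensional H K] (v : Place k H) :
    IsFractionRing (integralClosure (VR v) K) K :=
  integralClosure.isFractionRing_of_finite_extension H K

private theorem j4_finB [CharZero k] [FiniteDimensional H K] (v : Place k H) :
    Module.Finite (VR v) (integralClosure (VR v) K) := by
  have := j4_charH (k := k) (H := H)
  exact IsIntegralClosure.finite (VR v) H K _

private theorem j4_towB (v : Place k H) : IsScalarTower k (integralClosure (VR v) K) K :=
  IsScalarTower.of_algebraMap_eq fun _ => rfl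

private theorem j4_faith (v : Place k H) : FaithfulSMul (VR v) (integralClosure (VR v) K) := by
  rw [faithfulSMul_iff_algebraMap_injective]
  intro a b hab
  have h1 : algebraMap (VR v) K a = algebraMap (VR v) K b := congrArg Subtype.val hab
  exact Subtype.ext ((algebraMap H K).injective h1)

attribute [local instance] j4_ded j4_fracB j4_finB j4_towB j4_faith

@[instance_reducible]
private noncomputable def j4_alg (q : Geo k H Ω) : Algebra (VR q.1) Ω :=
  ((q.2 : RF q.1 →+* Ω).comp (IsLocalRing.residue (VR q.1))).toAlgebra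

private theorem j4_vlA (q : Geo k H Ω) (a : VR q.1) :
    Vl q (a : H) (@algebraMap _ _ _ _ (j4_alg q) a) :=
  ⟨IsLocalRing.residue (VR q.1) a, ⟨a.2, rfl⟩, rfl⟩

private theorem j4_kerA (q : Geo k H Ω) :
    RingHom.ker (@algebraMap _ _ _ _ (j4_alg q) : VR q.1 →+* Ω) =
      IsLocalRing.maximalIdeal (VR q.1) := by
  ext a
  rw [RingHom.mem_ker]
  change q.2 (IsLocalRing.residue (VR q.1) a) = 0 ↔ _
  rw [map_eq_zero_iff q.2 q.2.toRingHom.injective, IsLocalRing.residue_eq_zero_iff]

private theorem j4_exists_psi (q : Geo k H Ω) (p : Geo k K Ω)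
    (hp : Res (IsScalarTower.toAlgHom k H K) p q) :
    letI := j4_alg q
    ∃ ψ : integralClosure (VR q.1) K →ₐ[VR q.1] Ω,
      ∀ b : integralClosure (VR q.1) K, Vl p (b : K) (ψ b) := by
  letI := j4_alg q
  have hA : ∀ a : VR q.1, p.1.Reg (algebraMap (VR q.1) K a) := fun a =>
    vl_reg (hp _ _ (j4_vlA q a))
  have hreg : ∀ b : integralClosure (VR q.1) K, p.1.Reg (b : K) := fun b =>
    reg_of_integral p.1 hA b.2
  let g : integralClosure (VR q.1) K →+* VR p.1 :=
    (algebraMap (integralClosure (VR q.1) K) K).codRestrict (VR p.1) hreg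
  let ψ₀ : integralClosure (VR q.1) K →+* Ω :=
    (p.2 : RF p.1 →+* Ω).comp ((IsLocalRing.residue (VR p.1)).comp g)
  have hψ₀ : ∀ b : integralClosure (VR q.1) K, Vl p (b : K) (ψ₀ b) := fun b =>
    ⟨IsLocalRing.residue (VR p.1) (g b), ⟨hreg b, rfl⟩, rfl⟩
  refine ⟨{ toRingHom := ψ₀, commutes' := ?_ }, hψ₀⟩
  intro a
  exact vl_unique (hψ₀ _) (hp _ _ (j4_vlA q a))

private theorem j4_towA (v : Place k H) : IsScalarTower k (VR v) H :=
  IsScalarTower.of_algebraMap_eq fun _ => rfl

attribute [local instance] j4_towA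

open IsDedekindDomain in
private theorem j4_exists_geo [CharZero k] [FiniteDimensional H K] (q : Geo k H Ω)
    [Algebra (VR q.1) Ω]
    (hA : ∀ a : VR q.1, Vl q (a : H) (algebraMap (VR q.1) Ω a))
    (hker : RingHom.ker (algebraMap (VR q.1) Ω) = IsLocalRing.maximalIdeal (VR q.1))
    (hc : ∀ c : k, algebraMap (VR q.1) Ω (algebraMap k (VR q.1) c) = algebraMap k Ω c)
    (ψ : integralClosure (VR q.1) K →ₐ[VR q.1] Ω) :
    ∃ p : Geo k K Ω, Res (IsScalarTower.toAlgHom k H K) p q ∧
      (∀ b : integralClosure (VR q.1) K, Vl p (b : K) (ψ b)) ∧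
      ∀ f : H, p.1.ord (algebraMap H K f) =
        Ideal.ramificationIdx' (IsLocalRing.maximalIdeal (VR q.1)) (RingHom.ker ψ) *
          q.1.ord f := by
  have hm0 : IsLocalRing.maximalIdeal (VR q.1) ≠ ⊥ := IsDiscreteValuationRing.not_a_field _
  have hlies : (RingHom.ker ψ).LiesOver (IsLocalRing.maximalIdeal (VR q.1)) := by
    constructor
    ext a
    rw [Ideal.under_def, Ideal.mem_comap, RingHom.mem_ker, AlgHom.commutes, ← hker,
      RingHom.mem_ker]
  have hprime : (RingHom.ker ψ).IsPrime := RingHom.ker_isPrime _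
  let P : HeightOneSpectrum (integralClosure (VR q.1) K) :=
    ⟨RingHom.ker ψ, hprime, Ideal.ne_bot_of_liesOver_of_ne_bot hm0 _⟩
  have hk : ∀ c : k, (ψ : integralClosure (VR q.1) K →+* Ω)
      (algebraMap k (integralClosure (VR q.1) K) c) = algebraMap k Ω c := by
    intro c
    have h1 : algebraMap k (integralClosure (VR q.1) K) c =
        algebraMap (VR q.1) (integralClosure (VR q.1) K) (algebraMap k (VR q.1) c) := by
      apply Subtype.ext
      change algebraMap k K c = algebraMap (VR q.1) K (algebraMap k (VR q.1) c)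
      exact IsScalarTower.algebraMap_apply k (VR q.1) K c
    rw [h1]
    exact (ψ.commutes _).trans (hc c)
  obtain ⟨ε, hε⟩ := j4_eps (k := k) (K := K) P (ψ : integralClosure (VR q.1) K →+* Ω) rfl hk
  refine ⟨⟨ofHOS (k := k) (H := K) P, ε⟩, ?_, hε, ?_⟩
  · intro f c hf
    have h1 : c = algebraMap (VR q.1) Ω ⟨f, vl_reg hf⟩ := vl_unique hf (hA ⟨f, vl_reg hf⟩)
    rw [h1, ← ψ.commutes]
    exact hε (algebraMap (VR q.1) (integralClosure (VR q.1) K) ⟨f, vl_reg hf⟩)
  · intro f
    by_cases hf : f = 0
    · rw [hf, map_zero, Place.ord_zero, Place.ord_zero, mul_zero]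
    let vm : HeightOneSpectrum (VR q.1) :=
      ⟨IsLocalRing.maximalIdeal (VR q.1), (IsLocalRing.maximalIdeal.isMaximal _).isPrime, hm0⟩
    have hq : q.1 = ofHOS (k := k) (H := H) vm :=
      eq_ofHOS q.1 (fun r => r.2) vm (fun r => mem_max_iff r)
    have : P.asIdeal.LiesOver vm.asIdeal := hlies
    have h1 := HeightOneSpectrum.valuation_liesOver (K := H) K vm P f
    rw [ofHOS_ord (k := k) vm hf, ofHOS_ord (k := k) P ((map_ne_zero _).2 hf), ← hq,
      ← WithZero.exp_nsmul, WithZero.exp_inj] at h1
    change (Ideal.ramificationIdx' (IsLocalRing.maximalIdeal (VR q.1)) (RingHom.ker ψ)) •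
      (-q.1.ord f) = -(ofHOS (k := k) (H := K) P).ord (algebraMap H K f) at h1
    rw [nsmul_eq_mul] at h1
    change (ofHOS (k := k) (H := K) P).ord (algebraMap H K f) = _
    linarith

end setup

theorem fibre [CharZero k] [IsAlgClosed Ω] [Algebra H K] [IsScalarTower k H K]
    [FiniteDimensional H K] (q : Geo k H Ω) :
    {p : Geo k K Ω | Res (IsScalarTower.toAlgHom k H K) p q}.Finite ∧
      ∀ f : H, ∑ᶠ p ∈ {p : Geo k K Ω | Res (IsScalarTower.toAlgHom k H K) p q},
        p.1.ord (algebraMap H K f) = Module.finrank H K * q.1.ord f := by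
  letI := j4_alg q
  have hcz : CharZero Ω := charZero_of_injective_algebraMap (algebraMap k Ω).injective
  have hm0 : IsLocalRing.maximalIdeal (VR q.1) ≠ ⊥ := by
    have := j4_dvr q.1
    exact IsDiscreteValuationRing.not_a_field _
  have hA : ∀ a : VR q.1, Vl q (a : H) (algebraMap (VR q.1) Ω a) := j4_vlA q
  have hker := j4_kerA q
  have hc : ∀ c : k, algebraMap (VR q.1) Ω (algebraMap k (VR q.1) c) = algebraMap k Ω c :=
    fun c => q.2.commutes c
  have hded := j4_ded (K := K) q.1
  have hfracB := j4_fracB (K := K) q.1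
  have hfinB := j4_finB (K := K) q.1
  have hfrac := j4_frac q.1
  have hdvr := j4_dvr q.1
  have hfaith := j4_faith (K := K) q.1
  choose G hG1 hG2 hG3 using fun ψ : integralClosure (VR q.1) K →ₐ[VR q.1] Ω =>
    j4_exists_geo q hA hker hc ψ
  have hbij : Set.BijOn G Set.univ
      {p : Geo k K Ω | Res (IsScalarTower.toAlgHom k H K) p q} := by
    refine ⟨fun ψ _ => hG1 ψ, ?_, ?_⟩
    · intro ψ _ ψ' _ h
      ext b
      have h1 := hG2 ψ b
      rw [h] at h1
      exact vl_unique h1 (hG2 ψ' b)
    · intro p hp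
      obtain ⟨ψ, hψ⟩ := j4_exists_psi q p hp
      refine ⟨ψ, Set.mem_univ _, ?_⟩
      have hlies : (RingHom.ker ψ).LiesOver (IsLocalRing.maximalIdeal (VR q.1)) := by
        constructor
        ext a
        rw [Ideal.under_def, Ideal.mem_comap, RingHom.mem_ker, AlgHom.commutes, ← hker,
          RingHom.mem_ker]
      have hprime : (RingHom.ker ψ).IsPrime := RingHom.ker_isPrime _
      have := j4_towB (K := K) q.1
      have := j4_tower (K := K) q.1
      exact j4_inj (ψ := (ψ : integralClosure (VR q.1) K →+* Ω)) (hG2 ψ) hψ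
        ⟨RingHom.ker ψ, hprime, Ideal.ne_bot_of_liesOver_of_ne_bot hm0 _⟩ rfl
  obtain ⟨hfin, hsum⟩ := j4_count (A := VR q.1) (B := integralClosure (VR q.1) K) (H := H)
    (K := K) (Ω := Ω) (IsLocalRing.maximalIdeal (VR q.1)) hm0 hker
  constructor
  · rw [← hbij.image_eq]
    exact Set.finite_univ.image G
  · intro f
    have h1 : ∑ᶠ p ∈ {p : Geo k K Ω | Res (IsScalarTower.toAlgHom k H K) p q},
        p.1.ord (algebraMap H K f) = ∑ᶠ ψ ∈ (Set.univ : Set (integralClosure (VR q.1) K →ₐ[VR q.1] Ω)),
          ((Ideal.ramificationIdx' (IsLocalRing.maximalIdeal (VR q.1)) (RingHom.ker ψ) : ℕ) : ℤ) *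
            q.1.ord f :=
      (finsum_mem_eq_of_bijOn G hbij (fun ψ _ => (hG3 ψ f).symm)).symm
    rw [h1, finsum_mem_univ, ← hsum]
    have _ := Fintype.ofFinite (integralClosure (VR q.1) K →ₐ[VR q.1] Ω)
    rw [finsum_eq_sum_of_fintype, finsum_eq_sum_of_fintype, ← Finset.sum_mul]
    push_cast
    rfl

end Pool.Agent.LibCV66
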