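import Pool.Agent.LibCV66.PDefs
import Pool.Agent.LibCV6.P2
import Pool.Agent.LibCHd.A

/-!
[CV66 P4] the functional on the cycle of a point.
-/

open WeierstrassCurve Pool.Agent.LibBH2 Pool.Agent.LibIG50 Pool.Agent.LibCHd Pool.Agent.LibAC34
open scoped Classical

namespace Pool.Agent.LibCV66

variable {k : Type} [Field k] {r : ℕ} {W : Fin r → WeierstrassCurve k} {Y : Prj k}
  {D : ℕ} {V : Fin D → WeierstrassCurve k} {E : WeierstrassCurve k}
  {Ω : Type} [Field Ω] [Algebra k Ω] {F : Type} [Field F] [Algebra k F]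

/-- a function field of dimension `D` is finite over a subfield of transcendence degree `D` -/
theorem finite_of_trdeg (hF : FunF k D F) (L : IntermediateField k F)
    (hL : (D : Cardinal) ≤ Algebra.trdeg k L) : FiniteDimensional L F := by
  have h1 : Algebra.trdeg k L + Algebra.trdeg L F = Algebra.trdeg k F :=
    trdeg_add_eq k L (A := F)
  rw [hF.trdeg] at h1
  have h2 : Algebra.trdeg k L = D := le_antisymm (by rw [← h1]; exact self_le_add_right _ _) hL
  have h3 : Algebra.trdeg L F = 0 := by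
    rw [h2] at h1
    have h4 : (D : Cardinal) + Algebra.trdeg L F = D + 0 := by rw [h1, add_zero]
    exact Cardinal.eq_of_add_eq_add_left h4 (Cardinal.natCast_lt_aleph0)
  have halg : Algebra.IsAlgebraic L F := trdeg_eq_zero_iff.1 h3
  obtain ⟨t, ht, hfin⟩ := hF
  let N := IntermediateField.adjoin k (Set.range t)
  let b := Module.finBasis N F
  let T : IntermediateField L F := IntermediateField.adjoin L (Set.range t ∪ Set.range b)
  have hT : T = ⊤ := by
    rw [eq_top_iff]
    intro x _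
    rw [← b.sum_repr x]
    refine sum_mem fun i _ => ?_
    rw [Algebra.smul_def]
    refine mul_mem ?_ (IntermediateField.subset_adjoin _ _ (Or.inr ⟨i, rfl⟩))
    have h5 : N ≤ T.restrictScalars k := by
      rw [IntermediateField.adjoin_le_iff]
      intro y hy
      exact IntermediateField.subset_adjoin L _ (Or.inl hy)
    exact h5 (b.repr x i).2
  have h6 : FiniteDimensional L T := IntermediateField.finiteDimensional_adjoin
    fun x _ => (halg.isAlgebraic x).isIntegral
  rw [hT] at h6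
  exact Module.Finite.equiv (IntermediateField.topEquiv (F := L) (E := F)).toLinearEquiv

theorem emb_gn (β : ∀ a, PH W (V a)) {η : ∀ a, ((V a)⁄Ω).toAffine.Point} (hη : Gn η)
    {z : ∀ i, ((W i)⁄F).toAffine.Point} {s : F →ₐ[k] Ω} (hs : s ∈ Emb β η z) :
    Gn (fun a => (β a).f F z) := by
  rw [← gn_map s]
  have h1 : (fun a => mp s ((β a).f F z)) = η := funext hs
  rw [h1]
  exact hη

theorem emb_finite [CharZero k] [IsAlgClosed Ω] (hV : ∀ a, (V a).IsElliptic)
    (β : ∀ a, PH W (V a)) {η : ∀ a, ((V a)⁄Ω).toAffine.Point} (hη : Gn η) (hF : FunF k D F)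
    (z : ∀ i, ((W i)⁄F).toAffine.Point) : (Emb β η z).Finite := by
  by_cases h0 : (Emb β η z).Nonempty
  swap
  · rw [Set.not_nonempty_iff_eq_empty.1 h0]
    exact Set.finite_empty
  obtain ⟨s0, hs0⟩ := h0
  set w : ∀ a, ((V a)⁄F).toAffine.Point := fun a => (β a).f F z with hw
  have hgn : Gn w := emb_gn β hη hs0
  have hfd : FiniteDimensional (cof w) F := finite_of_trdeg hF _ hgn.ge
  obtain ⟨τ, hτ, huniq⟩ := gn_unique hV hgn hη
  have hres : ∀ s ∈ Emb β η z, s.comp (cof w).val = τ := by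
    intro s hs
    apply huniq
    intro a
    rw [← mp_comp, w0_spec]
    exact hs a
  let _ : Algebra (cof w) Ω := τ.toRingHom.toAlgebra
  have hst : IsScalarTower k (cof w) Ω :=
    IsScalarTower.of_algebraMap_eq fun c => (τ.commutes c).symm
  have hfin : Finite (F →ₐ[cof w] Ω) := inferInstance
  refine Set.Finite.subset (Set.finite_range fun φ : F →ₐ[cof w] Ω => φ.restrictScalars k) ?_
  intro s hs
  refine ⟨{ (s : F →+* Ω) with commutes' := fun x => ?_ }, ?_⟩
  · have h1 := DFunLike.congr_fun (hres s hs) x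
    exact h1
  · ext x
    rfl

theorem ph_const {u : Pnt W Y F} (β : ∀ a, PH W (V a)) :
    cof (fun a => (β a).f F u.z) ≤ fld u := by
  have h1 : ∀ i, ∃ p : ((W i)⁄(fld u)).toAffine.Point, mp (fld u).val p = u.z i := by
    intro i
    refine exists_pt (fld u) (u.z i) ?_
    rintro c ⟨a, b, rfl⟩
    exact IntermediateField.subset_adjoin _ _ (Or.inl ⟨i, a, b, rfl⟩)
  choose p hp using h1
  have h2 : u.z = fun i => mp (fld u).val (p i) := funext fun i => (hp i).symm
  unfold cof
  rw [IntermediateField.adjoin_le_iff]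
  rintro c ⟨a, hc⟩
  have hc' : c ∈ coo ((β a).f F u.z) := hc
  rw [h2, (β a).nat (fld u) F (fld u).val p, coo_mp] at hc'
  obtain ⟨d, _, rfl⟩ := hc'
  exact d.2

theorem phi_cyc [CharZero k] [IsAlgClosed Ω] (hV : ∀ a, (V a).IsElliptic)
    (β : ∀ a, PH W (V a)) (γ : PH W E) {η : ∀ a, ((V a)⁄Ω).toAffine.Point} (hη : Gn η)
    (hF : FunF k D F) (u : Pnt W Y F) :
    Phi Y β γ η (cyc u) = ∑ᶠ s ∈ Emb β η u.z, ((1 : ℤ), mp s (γ.f F u.z)) := by
  let h : Pnt W Y Ω → ℤ × (E⁄Ω).toAffine.Point := fun q =>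
    if ∀ a, (β a).f Ω q.z = η a then ((1 : ℤ), γ.f Ω q.z) else 0
  obtain ⟨u', hu, hz', heqs, hfld, hcyc⟩ : ∃ u' : Pnt W Y F, LibCV6.Nrm u' ∧ u'.z = u.z ∧
      eqs u' = eqs u ∧ fld u' = fld u ∧ cyc u' = cyc u := by
    obtain ⟨c, hc0, hu⟩ := LibCV6.exists_nrm u
    exact ⟨_, hu, rfl, LibCV6.eqs_scale c hc0 u, LibCV6.fld_scale c hc0 u,
      LibCV6.cyc_scale c hc0 u⟩
  have h1 : ∀ s : Set (MvPolynomial (Idx r Y.N) k), phi1 β γ η s = LibCV6.fnl h s := by
    intro s
    let A : Set (Pnt W Y Ω) := {q | LibCV6.Nrm q ∧ eqs q = s ∧ ∀ a, (β a).f Ω q.z = η a}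
    let B : Set (Pnt W Y Ω) := {q | LibCV6.Nrm q ∧ eqs q = s}
    have h2 : LibCV6.fnl h s = ∑ᶠ q ∈ B, h q :=
      finsum_subtype_eq_finsum_cond (fun q => LibCV6.Nrm q ∧ eqs q = s)
    have h0 : phi1 β γ η s = ∑ᶠ q ∈ A, ((1 : ℤ), γ.f Ω q.z) := rfl
    rw [h0, h2, finsum_mem_def, finsum_mem_def]
    refine finsum_congr fun q => ?_
    by_cases h3 : q ∈ B
    · rw [Set.indicator_of_mem h3]
      by_cases h4 : ∀ a, (β a).f Ω q.z = η a
      · have h5 : q ∈ A := ⟨h3.1, h3.2, h4⟩
        rw [Set.indicator_of_mem h5]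
        exact (if_pos h4).symm
      · have h5 : q ∉ A := fun h5 => h4 h5.2.2
        rw [Set.indicator_of_notMem h5]
        exact (if_neg h4).symm
    · have h5 : q ∉ A := fun h5 => h3 ⟨h5.1, h5.2.1⟩
      rw [Set.indicator_of_notMem h5, Set.indicator_of_notMem h3]
  have h2 : Phi Y β γ η (cyc u) = LibCV6.fnc h (cyc u') := by
    rw [hcyc]
    unfold cyc
    rw [LibCV6.fnc_single, ← h1]
    simp [Phi]
  rw [h2, LibCV6.fnc_cyc h hu]
  · rw [finsum_mem_def]
    refine finsum_congr fun s => ?_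
    have h3 : (∀ a, (β a).f Ω (u'.map s).z = η a) ↔ s ∈ Emb β η u.z := by
      refine forall_congr' fun a => ?_
      have h4 := (β a).nat F Ω s u'.z
      show (β a).f Ω (fun i => mp s (u'.z i)) = η a ↔ _
      rw [h4, hz']
    by_cases h5 : s ∈ Emb β η u.z
    · rw [Set.indicator_of_mem h5]
      refine (if_pos (h3.2 h5)).trans ?_
      have h6 := γ.nat F Ω s u'.z
      rw [hz'] at h6
      rw [← h6, ← hz']
      rfl
    · rw [Set.indicator_of_notMem h5]
      exact if_neg fun h6 => h5 (h3.1 h6)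
  · intro q hq hqu hne
    have h3 : ∀ a, (β a).f Ω q.z = η a := by
      by_contra h4
      exact hne (if_neg h4)
    apply finite_of_trdeg hF
    obtain ⟨σ, hσ⟩ := LibCV6.exists_hom hu hq hqu.symm
    have h5 : ∀ i, ∃ p : ((W i)⁄(fld u')).toAffine.Point, mp (fld u').val p = u'.z i := by
      intro i
      refine exists_pt (fld u') (u'.z i) ?_
      rintro d ⟨a, b, rfl⟩
      exact IntermediateField.subset_adjoin _ _ (Or.inl ⟨i, a, b, rfl⟩)
    choose p hp using h5
    have h6 : (fun i => mp σ (p i)) = q.z := by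
      funext i
      apply LibCV6.hc_ext
      intro j
      rw [hc_mp]
      have h7 := hσ (Sum.inl (i, j))
      have h8 : (⟨co u' (Sum.inl (i, j)), LibCV6.co_mem hu _⟩ : fld u') = hc (p i) j := by
        apply Subtype.ext
        show hc (u'.z i) j = (fld u').val (hc (p i) j)
        rw [← hc_mp, hp]
      rw [h8] at h7
      exact h7
    have h7 : Gn (fun a => (β a).f (fld u') p) := by
      rw [← gn_map σ]
      have h8 : (fun a => mp σ ((β a).f (fld u') p)) = η := by
        funext a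
        rw [← (β a).nat (fld u') Ω σ p, h6, h3]
      rw [h8]
      exact hη
    rw [← h7]
    exact trdeg_le_of_injective (cof fun a => (β a).f (fld u') p).val Subtype.val_injective

end Pool.Agent.LibCV66
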