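import Pool.Agent.LibCV66.Defs
import Pool.Agent.LibBH2.B1

/-!
[CV66 J7] Galois descent for points, and the points over a rational function field.

Plan. `descent`: a point of `E` over `K` fixed by the Galois group of `K/H` comes from a point over `H`
(coordinates fixed by the group lie in `H`: `IsGalois.mem_bot_iff_fixed`, `IntermediateField.mem_bot`;
compare LibGG/G6 `exists_of_fixed`; nonsingularity: `Affine.baseChange_nonsingular`).
`const_point`: (1) for `k` algebraically closed of characteristic 0: the change of variables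
`X = x + b₂ / 12`, `Y = y + (a₁ x + a₃) / 2` gives `Y ^ 2 = X ^ 3 + a X + b` with `a = -c₄ / 48`,
`b = -c₆ / 864` and `4 a ^ 3 + 27 b ^ 2 ≠ 0` because `Δ ≠ 0` (`WeierstrassCurve.c_relation`); by `b1`
(LibBH2/B1: `TaskB1`) `X`, hence `x`, is constant, and then `y` is algebraic over the constants:
constant. (2) general `k`: with `F = AlgebraicClosure k` map `RatFunc k → RatFunc F` (`RatFunc.map`/
`RatFunc.mapRingHom`, or `IsFractionRing.map`); the coordinates `x`, `y` become constants `c` of `F`; an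
element `P / Q` of `RatFunc k` (`P`, `Q` coprime polynomials over `k`) which becomes a constant `c`
satisfies `P = c Q` over `F`, compare leading coefficients: `c` in `k`, and `P = c Q` over `k`.
-/

open WeierstrassCurve Pool.Agent.LibBH2 Pool.Agent.LibIG50 Pool.Agent.LibCHd Pool.Agent.LibAC34
open scoped Classical

namespace Pool.Agent.LibCV66

variable {k : Type} [Field k] {H K : Type} [Field H] [Algebra k H] [Field K] [Algebra k K]

theorem descent [Algebra H K] [IsScalarTower k H K] [FiniteDimensional H K] [IsGalois H K]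
    {E : WeierstrassCurve k} (T : (E⁄K).toAffine.Point)
    (hT : ∀ σ : K ≃ₐ[H] K, mp ((σ : K →ₐ[H] K).restrictScalars k) T = T) :
    ∃ T₀ : (E⁄H).toAffine.Point, mp (IsScalarTower.toAlgHom k H K) T₀ = T := by
  match T, hT with
  | .zero, _ => exact ⟨.zero, mp_zero _⟩
  | .some x y h, hT =>
    have hxy : ∀ σ : K ≃ₐ[H] K, σ x = x ∧ σ y = y := by
      intro σ
      obtain ⟨h', e⟩ := mp_some ((σ : K →ₐ[H] K).restrictScalars k) x y h
      have h1 := hT σ
      rw [e] at h1
      simp only [Affine.Point.some.injEq] at h1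
      exact h1
    have hm : ∀ z : K, (∀ σ : K ≃ₐ[H] K, σ z = z) → ∃ z' : H, algebraMap H K z' = z := by
      intro z hz
      exact IntermediateField.mem_bot.1 ((IsGalois.mem_bot_iff_fixed z).2 hz)
    obtain ⟨x', rfl⟩ := hm x fun σ => (hxy σ).1
    obtain ⟨y', rfl⟩ := hm y fun σ => (hxy σ).2
    have hn : (E⁄H).toAffine.Nonsingular x' y' :=
      (Affine.baseChange_nonsingular _ (IsScalarTower.toAlgHom k H K).injective x' y').1 h
    obtain ⟨h'', e⟩ := mp_some (IsScalarTower.toAlgHom k H K) x' y' hn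
    exact ⟨.some x' y' hn, e⟩

/-- a rational function over `k` which is a constant over an extension is a constant -/
theorem J7_const {F : Type} [Field F] [Algebra k F] (φ : RatFunc k →+* RatFunc F)
    (hφ : ∀ P : Polynomial k, φ (algebraMap _ _ P) = algebraMap _ _ (P.map (algebraMap k F)))
    (x : RatFunc k) (c : F) (h : φ x = RatFunc.C c) : ∃ c' : k, x = RatFunc.C c' := by
  have hQ : x.denom ≠ 0 := x.denom_ne_zero
  have hQ1 : x.denom.Monic := x.monic_denom
  have hQ2 : algebraMap (Polynomial k) (RatFunc k) x.denom ≠ 0 :=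
    (map_ne_zero_iff _ (RatFunc.algebraMap_injective k)).2 hQ
  have h1 : x * algebraMap _ _ x.denom = algebraMap _ _ x.num := by
    conv_lhs => rw [← x.num_div_denom]
    rw [RatFunc.num_div_denom]
    rw [← eq_div_iff hQ2, RatFunc.num_div_denom]
  have h2 : x.num.map (algebraMap k F) = Polynomial.C c * x.denom.map (algebraMap k F) := by
    apply RatFunc.algebraMap_injective F
    have h3 := congrArg φ h1
    rw [map_mul, hφ, hφ, h] at h3
    rw [map_mul, RatFunc.algebraMap_C]
    exact h3.symm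
  have h3 := congrArg (fun P => P.coeff x.denom.natDegree) h2
  simp only [Polynomial.coeff_map, Polynomial.coeff_C_mul] at h3
  rw [hQ1.coeff_natDegree, map_one, mul_one] at h3
  refine ⟨x.num.coeff x.denom.natDegree, ?_⟩
  have h4 : x.num = Polynomial.C (x.num.coeff x.denom.natDegree) * x.denom := by
    apply Polynomial.map_injective _ (algebraMap k F).injective
    rw [h2, Polynomial.map_mul, Polynomial.map_C, h3]
  have h5 : algebraMap _ (RatFunc k) x.num =
      RatFunc.C (x.num.coeff x.denom.natDegree) * algebraMap _ _ x.denom := by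
    conv_lhs => rw [h4]
    rw [map_mul, RatFunc.algebraMap_C]
  rw [← h1] at h5
  exact mul_right_cancel₀ hQ2 h5

/-- the points over `F(t)`, `F` algebraically closed: equation form -/
theorem J7_alg {F : Type} [Field F] [IsAlgClosed F] [CharZero F] (a₁ a₂ a₃ a₄ a₆ : F)
    (hΔ : (⟨a₁, a₂, a₃, a₄, a₆⟩ : WeierstrassCurve F).Δ ≠ 0) (x y : RatFunc F)
    (h : y ^ 2 + RatFunc.C a₁ * x * y + RatFunc.C a₃ * y =
      x ^ 3 + RatFunc.C a₂ * x ^ 2 + RatFunc.C a₄ * x + RatFunc.C a₆) :
    (∃ c, x = RatFunc.C c) ∧ ∃ d, y = RatFunc.C d := by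
  set W : WeierstrassCurve F := ⟨a₁, a₂, a₃, a₄, a₆⟩ with hW
  have hx : ∃ c, x = RatFunc.C c := by
    have hab : 4 * (-W.c₄ / 48) ^ 3 + 27 * (-W.c₆ / 864) ^ 2 ≠ 0 := by
      have h1 := W.c_relation
      have h2 : 4 * (-W.c₄ / 48) ^ 3 + 27 * (-W.c₆ / 864) ^ 2 = - W.Δ / 16 := by
        have h3 : W.c₄ ^ 3 = 1728 * W.Δ + W.c₆ ^ 2 := by rw [h1]; ring
        have h4 : (-W.c₄ / 48) ^ 3 = - (W.c₄ ^ 3) / 110592 := by ring
        rw [h4, h3]
        ring
      rw [h2]
      exact div_ne_zero (neg_ne_zero.2 hΔ) (by norm_num)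
    obtain ⟨c, hc⟩ := b1 F (-W.c₄ / 48) (-W.c₆ / 864) hab (x + RatFunc.C (W.b₂ / 12))
      (y + (RatFunc.C a₁ * x + RatFunc.C a₃) / 2) (by
        simp only [hW, WeierstrassCurve.b₂, WeierstrassCurve.c₄, WeierstrassCurve.c₆,
          WeierstrassCurve.b₄, WeierstrassCurve.b₆, map_div₀, map_neg, map_add, map_sub, map_mul,
          map_pow, map_ofNat]
        linear_combination h)
    refine ⟨c - W.b₂ / 12, ?_⟩
    rw [map_sub, ← hc]
    ring
  refine ⟨hx, ?_⟩
  obtain ⟨c, rfl⟩ := hx
  obtain ⟨d, hd⟩ := IsAlgClosed.exists_pow_nat_eq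
    ((a₁ * c + a₃) ^ 2 / 4 + (c ^ 3 + a₂ * c ^ 2 + a₄ * c + a₆)) (n := 2) (by norm_num)
  have h1 : (y + RatFunc.C ((a₁ * c + a₃) / 2) - RatFunc.C d) *
      (y + RatFunc.C ((a₁ * c + a₃) / 2) + RatFunc.C d) = 0 := by
    have h2 := congrArg (RatFunc.C (K := F)) hd
    simp only [map_div₀, map_add, map_mul, map_pow, map_ofNat] at h2 ⊢
    linear_combination h - h2
  rcases mul_eq_zero.1 h1 with h2 | h2
  · refine ⟨d - (a₁ * c + a₃) / 2, ?_⟩
    rw [map_sub]
    linear_combination h2
  · refine ⟨- d - (a₁ * c + a₃) / 2, ?_⟩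
    rw [map_sub, map_neg]
    linear_combination h2

theorem const_point [CharZero k] {E : WeierstrassCurve k} [E.IsElliptic]
    (T : (E⁄(RatFunc k)).toAffine.Point) :
    ∃ P : E.toAffine.Point, T = constPt (RatFunc k) P := by
  match T with
  | .zero => exact ⟨.zero, rfl⟩
  | .some x y h =>
    let F := AlgebraicClosure k
    haveI : CharZero F := charZero_of_injective_algebraMap (algebraMap k F).injective
    have hinj : Function.Injective (Polynomial.mapRingHom (algebraMap k F)) :=
      Polynomial.map_injective _ (algebraMap k F).injective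
    let φ : RatFunc k →+* RatFunc F := RatFunc.mapRingHom (Polynomial.mapRingHom (algebraMap k F))
      (nonZeroDivisors_le_comap_nonZeroDivisors_of_injective _ hinj)
    have hφ : ∀ P : Polynomial k,
        φ (algebraMap _ _ P) = algebraMap _ _ (P.map (algebraMap k F)) := by
      intro P
      have h1 := RatFunc.map_apply_div (Polynomial.mapRingHom (algebraMap k F))
        (nonZeroDivisors_le_comap_nonZeroDivisors_of_injective _ hinj) P 1
      simp only [map_one, div_one] at h1
      exact h1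
    have hφC : ∀ c : k, φ (RatFunc.C c) = RatFunc.C (algebraMap k F c) := by
      intro c
      rw [← RatFunc.algebraMap_C, hφ, Polynomial.map_C, RatFunc.algebraMap_C]
    have he := (Affine.equation_iff x y).1 h.1
    have he' : y ^ 2 + RatFunc.C E.a₁ * x * y + RatFunc.C E.a₃ * y =
      x ^ 3 + RatFunc.C E.a₂ * x ^ 2 + RatFunc.C E.a₄ * x + RatFunc.C E.a₆ := he
    have he2 := congrArg φ he'
    simp only [map_add, map_mul, map_pow, hφC] at he2
    have hΔ : (⟨algebraMap k F E.a₁, algebraMap k F E.a₂, algebraMap k F E.a₃,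
        algebraMap k F E.a₄, algebraMap k F E.a₆⟩ : WeierstrassCurve F).Δ ≠ 0 := by
      have h1 : (E.map (algebraMap k F)).Δ ≠ 0 := by
        rw [WeierstrassCurve.map_Δ]
        exact (map_ne_zero _).2 E.isUnit_Δ.ne_zero
      exact h1
    obtain ⟨⟨c, hc⟩, ⟨d, hd⟩⟩ := J7_alg _ _ _ _ _ hΔ (φ x) (φ y) he2
    obtain ⟨c', rfl⟩ := J7_const φ hφ x c hc
    obtain ⟨d', rfl⟩ := J7_const φ hφ y d hd
    exact ⟨.some c' d' ((Affine.map_nonsingular E (algebraMap k (RatFunc k)).injective c' d').1 h),
      rfl⟩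

end Pool.Agent.LibCV66
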