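import Pool.Agent.LibCV66.J1
import Pool.Agent.LibBH2.Inv

/-!
[CV66 J9] the geometric places of `k(X)` at which `X` has a zero or a pole.

Plan. Let `q` be a geometric place with `0 < q.1.ord X` (`X = RatFunc.X`). For a polynomial `P` the value
of `P(X)` at `q` is `P(0)`; an element of `RatFunc k` is `X ^ n * P / Q` with `P(0) ≠ 0`, `Q(0) ≠ 0`, so it
has order `n * q.1.ord X`; normalised: `q.1.ord X = 1`; `Vl q f c` iff `n > 0` and `c = 0`, or `n = 0` and
`c = P(0) / Q(0)`, or `f = 0` and `c = 0`: so two such geometric places are equal by `geo_ext`. Existence: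
the place: `ord f` = the `n` above (`rootMultiplicity` of `0`, or the valuation of `RatFunc k` at the
prime `X`, or `Place.ofHom` / `exists_place_rat` of LibBH2/Fibre.lean, Exist.lean); its residue field is
`k` (every regular function minus a constant is a zero), so that `RF v ≃ₐ[k] k → Ω`.
For a pole of `X` the same with `1 / X`: use the automorphism `X ↦ 1 / X` of `RatFunc k` over `k`
(`invHom`, `invHom_X`, `invHom_invHom` of LibBH2/Inv.lean) and `exists_res`.
-/

open WeierstrassCurve Pool.Agent.LibBH2 Pool.Agent.LibIG50 Pool.Agent.LibCHd Pool.Agent.LibAC34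
open scoped Classical

namespace Pool.Agent.LibCV66

variable {k : Type} [Field k] {Ω : Type} [Field Ω] [Algebra k Ω]

omit [Field Ω] [Algebra k Ω] in
theorem J9_factor (P : Polynomial k) (hP : P ≠ 0) : ∃ (n : ℕ) (Q : Polynomial k),
    Q.eval 0 ≠ 0 ∧ P = Polynomial.X ^ n * Q := by
  obtain ⟨Q, h1, h2⟩ := Polynomial.exists_eq_pow_rootMultiplicity_mul_and_not_dvd P hP 0
  refine ⟨P.rootMultiplicity 0, Q, ?_, ?_⟩
  · intro h
    exact h2 (Polynomial.dvd_iff_isRoot.2 h)
  · rw [map_zero, sub_zero] at h1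
    exact h1

omit [Field Ω] [Algebra k Ω] in
/-- a function is a power of `X` times a function with a nonzero constant value at all zeros of `X` -/
theorem J9_split (f : RatFunc k) (hf : f ≠ 0) : ∃ (n : ℤ) (u : RatFunc k) (c : k),
    c ≠ 0 ∧ f = RatFunc.X ^ n * u ∧
    ∀ v : Place k (RatFunc k), 0 < v.ord RatFunc.X → v.Zer (u - algebraMap k (RatFunc k) c) := by
  obtain ⟨a, P, hP0, hP⟩ := J9_factor f.num (RatFunc.num_ne_zero hf)
  obtain ⟨b, Q, hQ0, hQ⟩ := J9_factor f.denom f.denom_ne_zero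
  have hX : (RatFunc.X : RatFunc k) ≠ 0 := RatFunc.X_ne_zero
  have hP1 : P ≠ 0 := by rintro rfl; simp at hP0
  have hQ1 : Q ≠ 0 := by rintro rfl; simp at hQ0
  have hQ2 : algebraMap (Polynomial k) (RatFunc k) Q ≠ 0 := RatFunc.algebraMap_ne_zero hQ1
  refine ⟨(a : ℤ) - b, algebraMap _ _ P / algebraMap _ _ Q, P.eval 0 / Q.eval 0,
    div_ne_zero hP0 hQ0, ?_, ?_⟩
  · rw [← RatFunc.num_div_denom f, hP, hQ, map_mul, map_mul, map_pow, map_pow,
      RatFunc.algebraMap_X, zpow_sub₀ hX, zpow_natCast, zpow_natCast]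
    field_simp
  · intro v hv
    have h0 : v.Zer ((RatFunc.X : RatFunc k) - algebraMap k (RatFunc k) 0) := by
      rw [map_zero, sub_zero]; exact Or.inr hv
    have hae : ∀ R : Polynomial k, Polynomial.aeval (RatFunc.X : RatFunc k) R =
        algebraMap (Polynomial k) (RatFunc k) R := by
      intro R
      rw [← RatFunc.algebraMap_X, Polynomial.aeval_algebraMap_apply, Polynomial.aeval_X_left_apply]
    have h1 := Place.val_aeval h0 P
    have h2 := Place.val_aeval h0 Q
    rw [hae] at h1 h2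
    exact Place.val_div h1 h2 hQ0

omit [Field Ω] [Algebra k Ω] in
theorem J9_ord (v : Place k (RatFunc k)) (hv : 0 < v.ord RatFunc.X) : v.ord RatFunc.X = 1 := by
  obtain ⟨t, ht⟩ := v.exists_uniformizer
  have ht0 : t ≠ 0 := by rintro rfl; rw [v.ord_zero] at ht; exact zero_ne_one ht
  obtain ⟨n, u, c, hc, hf, hu⟩ := J9_split t ht0
  have h1 := Place.ord_eq_zero_of_val (hu v hv) hc
  have hu0 := Place.ne_zero_of_val (hu v hv) hc
  rw [hf, v.ord_mul _ _ (zpow_ne_zero _ RatFunc.X_ne_zero) hu0, v.ord_zpow, h1, add_zero] at ht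
  have h2 : v.ord (RatFunc.X : RatFunc k) ∣ 1 := ⟨n, by rw [mul_comm]; exact ht.symm⟩
  exact Int.eq_one_of_dvd_one hv.le h2

theorem J9_vl {q : Geo k (RatFunc k) Ω} {f : RatFunc k} {c : k}
    (h : q.1.Zer (f - algebraMap k (RatFunc k) c)) : Vl q f (algebraMap k Ω c) :=
  ⟨algebraMap k (RF q.1) c, red_iff_val.2 h, AlgHom.commutes _ _⟩

theorem J9_zero_eq {q q' : Geo k (RatFunc k) Ω} (hq : 0 < q.1.ord RatFunc.X)
    (hq' : 0 < q'.1.ord RatFunc.X) : q = q' := by
  apply geo_ext
  intro f c hc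
  by_cases hf : f = 0
  · subst hf
    have h1 : Vl q' (0 : RatFunc k) 0 := ⟨0, red_zero _, map_zero _⟩
    have h2 : Vl q (0 : RatFunc k) 0 := ⟨0, red_zero _, map_zero _⟩
    rwa [vl_unique hc h1]
  · obtain ⟨n, u, d, hd, hfu, hu⟩ := J9_split f hf
    have hord : ∀ v : Place k (RatFunc k), 0 < v.ord RatFunc.X → v.ord f = n := by
      intro v hv
      rw [hfu, v.ord_mul _ _ (zpow_ne_zero _ RatFunc.X_ne_zero)
        (Place.ne_zero_of_val (hu v hv) hd), v.ord_zpow, Place.ord_eq_zero_of_val (hu v hv) hd,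
        J9_ord v hv, add_zero, mul_one]
    have hn : 0 ≤ n := by
      rw [← hord _ hq']
      exact (vl_reg hc).resolve_left hf
    rcases hn.lt_or_eq with hn | hn
    · have h1 : Vl q' f 0 := ⟨0, red_zero_iff.2 (Or.inr (by rw [hord _ hq']; exact hn)), map_zero _⟩
      have h2 : Vl q f 0 := ⟨0, red_zero_iff.2 (Or.inr (by rw [hord _ hq]; exact hn)), map_zero _⟩
      rwa [vl_unique hc h1]
    · subst hn
      rw [zpow_zero, one_mul] at hfu
      subst hfu
      rw [vl_unique hc (J9_vl (hu _ hq'))]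
      exact J9_vl (hu _ hq)

omit [Field Ω] [Algebra k Ω] in
theorem J9_place : ∃ v : Place k (RatFunc k), 0 < v.ord RatFunc.X := by
  have hconst : ∀ c : k, ratHom 0 1 one_pos (algebraMap k (RatFunc k) c) = HahnSeries.C c := by
    intro c
    have h1 : algebraMap k (RatFunc k) c =
        algebraMap (Polynomial k) (RatFunc k) (Polynomial.C c) := by
      rw [RatFunc.algebraMap_C]; rfl
    rw [h1, ratHom_poly, polyHom_apply]
    simp
  have hs : ratHom (0 : k) 1 one_pos (RatFunc.X : RatFunc k) = HahnSeries.single 1 1 := by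
    rw [← RatFunc.algebraMap_X, ratHom_poly, polyHom_apply]
    have h2 : ((Polynomial.X : Polynomial k).comp (Polynomial.C 0 + Polynomial.X ^ 1)) =
        Polynomial.X := by simp
    rw [h2, Polynomial.coe_X, HahnSeries.ofPowerSeries_X]
  have hord : (ratHom (0 : k) 1 one_pos (RatFunc.X : RatFunc k)).order = 1 := by
    rw [hs, HahnSeries.order_single one_ne_zero]
  refine ⟨Place.ofHom (ratHom 0 1 one_pos) hconst ⟨_, hord⟩, ?_⟩
  rw [Place.ofHom_ord, hord]; exact one_pos

theorem J9_geo : ∃ q : Geo k (RatFunc k) Ω, 0 < q.1.ord RatFunc.X := by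
  obtain ⟨v, hv⟩ := J9_place (k := k)
  have hbij : Function.Bijective (Algebra.ofId k (RF v)) := by
    refine ⟨(algebraMap k (RF v)).injective, ?_⟩
    intro a
    obtain ⟨f, hf⟩ := exists_rep a
    by_cases hf0 : f = 0
    · subst hf0
      refine ⟨0, ?_⟩
      rw [map_zero]
      exact (red_zero v).unique hf
    · obtain ⟨n, u, d, hd, hfu, hu⟩ := J9_split f hf0
      have hord : v.ord f = n := by
        rw [hfu, v.ord_mul _ _ (zpow_ne_zero _ RatFunc.X_ne_zero)
          (Place.ne_zero_of_val (hu v hv) hd), v.ord_zpow, Place.ord_eq_zero_of_val (hu v hv) hd,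
          J9_ord v hv, add_zero, mul_one]
      have hn : 0 ≤ n := by
        rw [← hord]
        exact hf.reg.resolve_left hf0
      rcases hn.lt_or_eq with hn | hn
      · refine ⟨0, ?_⟩
        rw [map_zero]
        exact (red_zero_iff.2 (Or.inr (by rw [hord]; exact hn))).unique hf
      · subst hn
        rw [zpow_zero, one_mul] at hfu
        subst hfu
        exact ⟨d, (red_iff_val.2 (hu v hv)).unique hf⟩
  exact ⟨⟨v, (Algebra.ofId k Ω).comp (AlgEquiv.ofBijective _ hbij).symm.toAlgHom⟩, hv⟩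

theorem geo_ratFunc : ∃ q₀ q₁ : Geo k (RatFunc k) Ω, q₀.1.ord RatFunc.X = 1 ∧
    q₁.1.ord RatFunc.X = -1 ∧
    ∀ q : Geo k (RatFunc k) Ω, q.1.ord RatFunc.X ≠ 0 → q = q₀ ∨ q = q₁ := by
  obtain ⟨q₀, hq₀⟩ := J9_geo (k := k) (Ω := Ω)
  have h0 := J9_ord _ hq₀
  have hres : ∀ q : Geo k (RatFunc k) Ω, q.1.ord RatFunc.X < 0 → Res invHom q q₀ := by
    intro q hq
    have h1 : q.1.ord (invHom (RatFunc.X : RatFunc k)) = - q.1.ord RatFunc.X := by
      rw [invHom_X, q.1.ord_inv]
    obtain ⟨q', hq'⟩ := exists_res invHom q RatFunc.X (by rw [h1]; omega)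
    obtain ⟨e, he, hord⟩ := res_ord hq'
    have h2 := hord RatFunc.X
    rw [h1] at h2
    have h3 : 0 < q'.1.ord RatFunc.X := by
      by_contra h4
      have h5 : (e : ℤ) * q'.1.ord RatFunc.X ≤ 0 :=
        mul_nonpos_of_nonneg_of_nonpos (by positivity) (not_lt.1 h4)
      omega
    rwa [← J9_zero_eq h3 hq₀]
  have hq1 : ∃ q₁ : Geo k (RatFunc k) Ω, q₁.1.ord RatFunc.X = -1 := by
    have h1 : q₀.1.ord (invHom (RatFunc.X : RatFunc k)) = -1 := by
      rw [invHom_X, q₀.1.ord_inv, h0]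
    obtain ⟨q₁, hq₁⟩ := exists_res invHom q₀ RatFunc.X (by rw [h1]; norm_num)
    obtain ⟨e, he, hord⟩ := res_ord hq₁
    have h2 := hord RatFunc.X
    rw [h1] at h2
    have h3 : (e : ℤ) ∣ 1 := ⟨- q₁.1.ord RatFunc.X, by rw [mul_neg, ← h2, neg_neg]⟩
    have h4 : (e : ℤ) = 1 := Int.eq_one_of_dvd_one (by positivity) h3
    refine ⟨q₁, ?_⟩
    rw [h4, one_mul] at h2
    exact h2.symm
  obtain ⟨q₁, hq₁⟩ := hq1
  refine ⟨q₀, q₁, h0, hq₁, ?_⟩
  intro q hq
  rcases lt_or_gt_of_ne hq with hlt | hgt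
  · right
    have r1 := hres q hlt
    have r2 := hres q₁ (by rw [hq₁]; norm_num)
    apply geo_ext
    intro f c hfc
    have h5 : Vl q₁ (invHom (invHom f)) c := by rwa [invHom_invHom]
    have h6 := r1 _ _ (res_vl r2 h5)
    rwa [invHom_invHom] at h6
  · left
    exact J9_zero_eq hgt hq₀

end Pool.Agent.LibCV66
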