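import Pool.Agent.LibCV66.J6
import Pool.Agent.LibCV66.J7
import Pool.Agent.LibCV66.J9
import Pool.Agent.LibCHd.B5

/-!
[CV66 J10] Abel's theorem for a curve over a field `k` of characteristic 0 which need not be
algebraically closed.

Plan. `tot_up`: every geometric place of `L` has a restriction to `F` (`exists_ord_ne`, `exists_res`,
unique by `res_unique`); the support of `p ↦ p.1.ord (algebraMap F L g)` lies in the union of the
(finite, `fibre`) fibres over the finitely many `q` with `q.1.ord g ≠ 0` (`res_ord`), and the sum over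
every fibre is given by `tot_fibre` (`finsum_mem_biUnion` or Finset sums: `Finset.sum_fiberwise`).
`abel`: Case 1: `g` algebraic over `k`. Then `p.1.ord g = 0` for all `p` (the argument of
`exists_ord_ne`: `g` and `g⁻¹` satisfy monic equations over `k`), all terms are zero.
Case 2: `g` transcendental over `k`. Then `RatFunc k → F`, `X ↦ g` (`IsFractionRing.lift` or
`RatFunc.liftAlgHom`), makes `F` a finite extension of `H = RatFunc k` (`FunF k 1 F`: transcendence degree
1 and finitely generated: `F` is algebraic over `k(g)` and finitely generated over it; compare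
LibCHd/B5, LibCHd/A1). Let `L = normalClosure H F (AlgebraicClosure F)`: a finite Galois extension of `H`
which contains `F`. Finiteness for `F`: the support consists of geometric places whose restriction to
`H` is `q₀` or `q₁` (`geo_ratFunc`, `res_ord`), finite by `fibre`. By `tot_up` it is enough to show that the
sum `S = tot univ g z'` for `L` is zero (`z'` the image of `z`): then `[L : F] • tot univ g z = 0`.
`S` is the sum of the two sums over the fibres of `q₀` and `q₁`. By `level` the first one is
`1 • ∑_σ (1, ev p₀ (σ z'))` and the second one `(-1) • ∑_σ (1, ev p₁ (σ z'))` (`p₀`, `p₁` any geometric places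
over `q₀`, `q₁`; the fibres are not empty by `fibre` with `f = X`). The point `T = ∑_σ σ z'` is fixed by the
Galois group, so it comes from a point over `H = RatFunc k` (`descent`), which is constant
(`const_point`): `ev p₀ T = ev p₁ T = constPt Ω P` (`ev_const`, `ev_res`, `map_sum`). So `S = 0`.
-/

open WeierstrassCurve Pool.Agent.LibBH2 Pool.Agent.LibIG50 Pool.Agent.LibCHd Pool.Agent.LibAC34
open scoped Classical

namespace Pool.Agent.LibCV66

variable {k : Type} [Field k] {F Ω : Type} [Field F] [Algebra k F] [Field Ω] [Algebra k Ω]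

theorem tot_up [CharZero k] [IsAlgClosed Ω] {L : Type} [Field L] [Algebra k L] [Algebra F L]
    [IsScalarTower k F L] [FiniteDimensional F L] (g : F) {E : WeierstrassCurve k} [E.IsElliptic]
    (z : (E⁄F).toAffine.Point) (hfin : {q : Geo k F Ω | q.1.ord g ≠ 0}.Finite) :
    {p : Geo k L Ω | p.1.ord (algebraMap F L g) ≠ 0}.Finite ∧
    tot (Set.univ : Set (Geo k L Ω)) (algebraMap F L g) (mp (IsScalarTower.toAlgHom k F L) z) =
      Module.finrank F L • tot (Set.univ : Set (Geo k F Ω)) g z := by
  classical
  set i : F →ₐ[k] L := IsScalarTower.toAlgHom k F L with hi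
  have hint : i.toRingHom.IsIntegral := fun x => Algebra.IsIntegral.isIntegral (R := F) x
  have hex : ∀ p : Geo k L Ω, ∃ q : Geo k F Ω, Res i p q := by
    intro p
    obtain ⟨φ, hφ⟩ := exists_ord_ne p.1 i hint
    exact exists_res i p φ hφ
  choose r hr using hex
  set X : Geo k F Ω → Set (Geo k L Ω) := fun q => {p | Res i p q} with hX
  set S : Set (Geo k F Ω) := {q | q.1.ord g ≠ 0} with hS
  have hU : {p : Geo k L Ω | p.1.ord (algebraMap F L g) ≠ 0} = ⋃ q ∈ S, X q := by
    ext p
    simp only [Set.mem_setOf_eq, Set.mem_iUnion]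
    constructor
    · intro h
      obtain ⟨e, he, ho⟩ := res_ord (hr p)
      refine ⟨r p, ?_, hr p⟩
      intro h0
      apply h
      have h1 := ho g
      rw [h0, mul_zero] at h1
      exact h1
    · rintro ⟨q, hq, hpq⟩
      obtain ⟨e, he, ho⟩ := res_ord (i := i) (p := p) (q := q) hpq
      have h1 := ho g
      intro h0
      have h2 : p.1.ord (i g) = 0 := h0
      rw [h2] at h1
      rcases mul_eq_zero.1 h1.symm with h3 | h3
      · have : (e : ℤ) ≠ 0 := by exact_mod_cast he.ne'
        exact this h3
      · exact hq h3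
  have hXf : ∀ q, (X q).Finite := fun q => (fibre (K := L) q).1
  refine ⟨?_, ?_⟩
  · rw [hU]
    exact hfin.biUnion fun q _ => hXf q
  · set f : Geo k L Ω → ℤ × (E⁄Ω).toAffine.Point := fun p =>
      p.1.ord (algebraMap F L g) • ((1 : ℤ), ev p (mp i z)) with hf
    have h1 : tot (Set.univ : Set (Geo k L Ω)) (algebraMap F L g) (mp i z) =
        ∑ᶠ p ∈ ⋃ q ∈ S, X q, f p := by
      unfold tot
      refine finsum_mem_inter_support_eq f _ _ ?_
      ext p
      simp only [Set.univ_inter, Set.mem_inter_iff, Function.mem_support]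
      constructor
      · intro h
        refine ⟨?_, h⟩
        rw [← hU]
        intro h0
        apply h
        rw [hf]
        simp only [h0, zero_smul]
      · exact fun h => h.2
    have h2 : ∑ᶠ p ∈ ⋃ q ∈ S, X q, f p = ∑ᶠ q ∈ S, ∑ᶠ p ∈ X q, f p := by
      refine finsum_mem_biUnion ?_ hfin fun q _ => hXf q
      intro q _ q' _ hne
      rw [Function.onFun, Set.disjoint_left]
      intro p hp hp'
      exact hne (res_unique (i := i) (p := p) hp hp')
    have h3 : ∀ q, ∑ᶠ p ∈ X q, f p =
        nsmulAddMonoidHom (Module.finrank F L) (q.1.ord g • ((1 : ℤ), ev q z)) := fun q =>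
      tot_fibre (K := L) q g z
    have h4 : ∑ᶠ q ∈ S, ∑ᶠ p ∈ X q, f p =
        Module.finrank F L • tot (Set.univ : Set (Geo k F Ω)) g z := by
      have h5 : tot (Set.univ : Set (Geo k F Ω)) g z =
          ∑ᶠ q ∈ S, q.1.ord g • ((1 : ℤ), ev q z) := by
        unfold tot
        refine finsum_mem_inter_support_eq _ _ _ ?_
        ext q
        simp only [Set.univ_inter, Set.mem_inter_iff, Function.mem_support]
        constructor
        · intro h
          refine ⟨?_, h⟩
          intro h0
          apply h
          rw [h0, zero_smul]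
        · exact fun h => h.2
      rw [h5]
      have h6 := (nsmulAddMonoidHom (α := ℤ × (E⁄Ω).toAffine.Point)
        (Module.finrank F L)).map_finsum_mem (fun q : Geo k F Ω =>
          q.1.ord g • ((1 : ℤ), ev q z)) hfin
      rw [nsmulAddMonoidHom_apply] at h6
      rw [h6]
      exact finsum_congr fun q => finsum_congr fun _ => h3 q
    rw [h1, h2, h4]

theorem J10_galois (H F : Type) [Field H] [CharZero H] [Field F] [Algebra H F]
    [FiniteDimensional H F] : ∃ (L : Type) (_ : Field L) (_ : Algebra F L) (_ : Algebra H L),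
    IsScalarTower H F L ∧ FiniteDimensional H L ∧ IsGalois H L := by
  have hn : Normal H (AlgebraicClosure F) := IsAlgClosure.normal H (AlgebraicClosure F)
  exact ⟨IntermediateField.normalClosure H F (AlgebraicClosure F), inferInstance, inferInstance,
    inferInstance, inferInstance, inferInstance, IsGalois.mk⟩

omit [Field Ω] [Algebra k Ω] in
theorem J10_alg_ord (v : Place k F) (g : F) (hg : g ≠ 0) (ha : IsAlgebraic k g) :
    v.ord g = 0 := by
  have key : ∀ g : F, g ≠ 0 → IsAlgebraic k g → ¬ 0 < v.ord g := by
    intro g hg ha hlt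
    have h0 : v.Zer (g - algebraMap k F 0) := by
      rw [map_zero, sub_zero]; exact Or.inr hlt
    have h1 := Place.val_aeval h0 (minpoly k g)
    rw [minpoly.aeval, zero_sub] at h1
    have h2 := h1.neg
    rw [neg_neg, Place.zer_const_iff, ← Polynomial.coeff_zero_eq_eval_zero] at h2
    exact minpoly.coeff_zero_ne_zero ha.isIntegral hg h2
  have h1 := key g hg ha
  have h2 := key g⁻¹ (inv_ne_zero hg) ha.inv
  rw [v.ord_inv] at h2
  omega

omit [Field Ω] [Algebra k Ω] in
theorem J10_finite (hF : FunF k 1 F) (ι : RatFunc k →ₐ[k] F) : ι.toRingHom.Finite := by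
  let _ : Algebra (RatFunc k) F := ι.toRingHom.toAlgebra
  have _ : IsScalarTower k (RatFunc k) F := IsScalarTower.of_algebraMap_eq fun x => (ι.commutes x).symm
  change Module.Finite (RatFunc k) F
  -- algebraic
  have hind : AlgebraicIndependent k (fun _ : Fin 1 => ι RatFunc.X) := by
    rw [algebraicIndependent_unique_type_iff]
    intro h
    exact RatFunc.transcendental_X ((isAlgebraic_algHom_iff ι ι.toRingHom.injective).1 h)
  have htb : IsTranscendenceBasis k (fun _ : Fin 1 => ι RatFunc.X) := by
    apply hind.isTranscendenceBasis_of_lift_trdeg_le_of_finite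
    rw [hF.trdeg]
    simp
  have halg : Algebra.IsAlgebraic (IntermediateField.adjoin k
      (Set.range fun _ : Fin 1 => ι RatFunc.X)) F := htb.isAlgebraic_field
  have h1 : IntermediateField.adjoin k (Set.range fun _ : Fin 1 => ι RatFunc.X) =
      ι.fieldRange := by
    rw [Set.range_const, ← Set.image_singleton, ← IntermediateField.adjoin_map,
      RatFunc.adjoin_X, ← AlgHom.fieldRange_eq_map]
  rw [h1] at halg
  have halg2 : Algebra.IsAlgebraic (RatFunc k) F :=
    Algebra.IsAlgebraic.of_ringHom_of_comp_eq ι.equivFieldRange (RingHom.id F)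
      ι.equivFieldRange.surjective Function.injective_id (by ext x; rfl)
  -- finitely generated
  obtain ⟨t, ht, hf⟩ := hF
  have he : Algebra.EssFiniteType k F := by
    have h2 : Algebra.EssFiniteType k (IntermediateField.adjoin k (Set.range t)) :=
      IntermediateField.essFiniteType_iff.2 (IntermediateField.fg_adjoin_of_finite (Set.finite_range t))
    exact Algebra.EssFiniteType.comp k (IntermediateField.adjoin k (Set.range t)) F
  have he2 : Algebra.EssFiniteType (RatFunc k) F := Algebra.EssFiniteType.of_comp k (RatFunc k) F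
  have h3 : (⊤ : IntermediateField (RatFunc k) F).FG := IntermediateField.fg_top (RatFunc k) F
  obtain ⟨s, hs⟩ := h3
  have h4 : FiniteDimensional (RatFunc k) (IntermediateField.adjoin (RatFunc k) (s : Set F)) :=
    IntermediateField.finiteDimensional_adjoin fun x _ => (halg2.isAlgebraic x).isIntegral
  rw [hs] at h4
  exact FiniteDimensional.of_finrank_pos (by
    rw [← IntermediateField.finrank_top']
    exact Module.finrank_pos)

/-- the places over the zeros and poles of `X` -/
theorem J10_support {K : Type} [Field K] [Algebra k K] (ι : RatFunc k →ₐ[k] K)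
    {q₀ q₁ : Geo k (RatFunc k) Ω}
    (hq : ∀ q : Geo k (RatFunc k) Ω, q.1.ord RatFunc.X ≠ 0 → q = q₀ ∨ q = q₁)
    {p : Geo k K Ω} (hp : p.1.ord (ι RatFunc.X) ≠ 0) : Res ι p q₀ ∨ Res ι p q₁ := by
  obtain ⟨q, hr⟩ := exists_res ι p RatFunc.X hp
  obtain ⟨e, he, hord⟩ := res_ord hr
  have h1 : q.1.ord RatFunc.X ≠ 0 := by
    intro h
    rw [hord, h, mul_zero] at hp
    exact hp rfl
  rcases hq q h1 with rfl | rfl
  · exact Or.inl hr
  · exact Or.inr hr

theorem J10_fin [CharZero k] [IsAlgClosed Ω] {K : Type} [Field K] [Algebra k K]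
    [Algebra (RatFunc k) K] [IsScalarTower k (RatFunc k) K] [FiniteDimensional (RatFunc k) K] :
    {p : Geo k K Ω | p.1.ord (algebraMap (RatFunc k) K RatFunc.X) ≠ 0}.Finite := by
  obtain ⟨q₀, q₁, -, -, hq⟩ := geo_ratFunc (k := k) (Ω := Ω)
  refine ((fibre (K := K) q₀).1.union (fibre (K := K) q₁).1).subset ?_
  intro p hp
  exact J10_support (IsScalarTower.toAlgHom k (RatFunc k) K) hq hp

theorem J10_nonempty [CharZero k] [IsAlgClosed Ω] {K : Type} [Field K] [Algebra k K]
    [Algebra (RatFunc k) K] [IsScalarTower k (RatFunc k) K] [FiniteDimensional (RatFunc k) K]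
    (q : Geo k (RatFunc k) Ω) (hq : q.1.ord RatFunc.X ≠ 0) :
    ∃ p : Geo k K Ω, Res (IsScalarTower.toAlgHom k (RatFunc k) K) p q := by
  by_contra hne
  push Not at hne
  have h1 := (fibre (K := K) q).2 RatFunc.X
  have h2 : {p : Geo k K Ω | Res (IsScalarTower.toAlgHom k (RatFunc k) K) p q} = ∅ :=
    Set.eq_empty_of_forall_notMem hne
  rw [h2, finsum_mem_empty] at h1
  have h3 : (Module.finrank (RatFunc k) K : ℤ) ≠ 0 := by
    have := Module.finrank_pos (R := RatFunc k) (M := K)
    omega
  exact mul_ne_zero h3 hq h1.symm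

theorem J10_sum {K : Type} [Field K] [Algebra k K] {G : Type} [Fintype G] (p : Geo k K Ω)
    {E : WeierstrassCurve k} [E.IsElliptic] (z : G → (E⁄K).toAffine.Point) :
    ∑ σ, ((1 : ℤ), ev p (z σ)) = ((Fintype.card G : ℤ), ev p (∑ σ, z σ)) := by
  apply Prod.ext
  · rw [Prod.fst_sum]; simp
  · rw [Prod.snd_sum, map_sum]

theorem J10_gal [CharZero k] [IsAlgClosed Ω] {K : Type} [Field K] [Algebra k K]
    [Algebra (RatFunc k) K] [IsScalarTower k (RatFunc k) K] [FiniteDimensional (RatFunc k) K]
    [IsGalois (RatFunc k) K] {E : WeierstrassCurve k} [E.IsElliptic] (z : (E⁄K).toAffine.Point) :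
    tot (Set.univ : Set (Geo k K Ω)) (algebraMap (RatFunc k) K RatFunc.X) z = 0 := by
  obtain ⟨q₀, q₁, h0, h1, hq⟩ := geo_ratFunc (k := k) (Ω := Ω)
  have hne : q₀ ≠ q₁ := by
    rintro rfl
    rw [h0] at h1
    norm_num at h1
  have hsplit : tot (Set.univ : Set (Geo k K Ω)) (algebraMap (RatFunc k) K RatFunc.X) z =
      tot {p : Geo k K Ω | Res (IsScalarTower.toAlgHom k (RatFunc k) K) p q₀}
        (algebraMap (RatFunc k) K RatFunc.X) z +
      tot {p : Geo k K Ω | Res (IsScalarTower.toAlgHom k (RatFunc k) K) p q₁}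
        (algebraMap (RatFunc k) K RatFunc.X) z := by
    unfold tot
    rw [← finsum_mem_union _ (fibre (K := K) q₀).1 (fibre (K := K) q₁).1]
    · apply finsum_mem_inter_support_eq
      ext p
      simp only [Set.mem_inter_iff, Set.mem_univ, true_and, Function.mem_support, ne_eq,
        Set.mem_union, Set.mem_ofPred_eq, iff_and_self]
      intro hp
      have h2 : p.1.ord (algebraMap (RatFunc k) K RatFunc.X) ≠ 0 := by
        intro h3
        rw [h3, zero_smul] at hp
        exact hp rfl
      exact J10_support (IsScalarTower.toAlgHom k (RatFunc k) K) hq h2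
    · rw [Set.disjoint_left]
      intro p hp0 hp1
      exact hne (res_unique hp0 hp1)
  obtain ⟨p₀, hp₀⟩ := J10_nonempty (K := K) q₀ (by rw [h0]; norm_num)
  obtain ⟨p₁, hp₁⟩ := J10_nonempty (K := K) q₁ (by rw [h1]; norm_num)
  rw [hsplit, level hp₀, level hp₁, h0, h1, J10_sum, J10_sum]
  set T := ∑ σ : K ≃ₐ[RatFunc k] K, mp ((σ : K →ₐ[RatFunc k] K).restrictScalars k) z with hT
  obtain ⟨T₀, hT₀⟩ := descent (H := RatFunc k) (K := K) T (by
    intro τ
    rw [hT, map_sum]
    rw [← Equiv.sum_comp (Equiv.mulLeft τ)
      (fun σ : K ≃ₐ[RatFunc k] K => mp ((σ : K →ₐ[RatFunc k] K).restrictScalars k) z)]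
    apply Finset.sum_congr rfl
    intro σ _
    rw [mp_comp]
    rfl)
  obtain ⟨P, rfl⟩ := const_point T₀
  have e0 : ev p₀ T = constPt Ω P := by
    rw [← hT₀, ev_res hp₀, ev_const]
  have e1 : ev p₁ T = constPt Ω P := by
    rw [← hT₀, ev_res hp₁, ev_const]
  rw [e0, e1, one_smul, neg_smul, one_smul, add_neg_cancel]

theorem abel [CharZero k] [IsAlgClosed Ω] (hF : FunF k 1 F) (g : F) (hg : g ≠ 0)
    {E : WeierstrassCurve k} [E.IsElliptic] (z : (E⁄F).toAffine.Point) :
    {p : Geo k F Ω | p.1.ord g ≠ 0}.Finite ∧
      IsOfFinAddOrder (tot (Set.univ : Set (Geo k F Ω)) g z) := by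
  by_cases ha : IsAlgebraic k g
  · have h0 : ∀ p : Geo k F Ω, p.1.ord g = 0 := fun p => J10_alg_ord p.1 g hg ha
    constructor
    · convert Set.finite_empty
      ext p
      simp [h0 p]
    · have h1 : tot (Set.univ : Set (Geo k F Ω)) g z = 0 := by
        unfold tot
        simp only [h0, zero_smul, finsum_zero]
      rw [h1]
      exact IsOfFinAddOrder.zero
  · have htr : Transcendental k g := ha
    let ι : RatFunc k →ₐ[k] F := RatFunc.liftAlgHom (Polynomial.aeval g)
      (nonZeroDivisors_le_comap_nonZeroDivisors_of_injective _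
        (transcendental_iff_injective.1 htr))
    have hι : ι RatFunc.X = g := by
      have := RatFunc.liftAlgHom_apply_div (Polynomial.aeval g : Polynomial k →ₐ[k] F)
        (nonZeroDivisors_le_comap_nonZeroDivisors_of_injective _
          (transcendental_iff_injective.1 htr)) Polynomial.X 1
      simpa [ι] using this
    have hfin := J10_finite hF ι
    let _ : Algebra (RatFunc k) F := ι.toRingHom.toAlgebra
    have _ : IsScalarTower k (RatFunc k) F :=
      IsScalarTower.of_algebraMap_eq fun x => (ι.commutes x).symm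
    have _ : FiniteDimensional (RatFunc k) F := hfin
    have hX : algebraMap (RatFunc k) F RatFunc.X = g := hι
    have _ : CharZero (RatFunc k) := charZero_of_injective_algebraMap (algebraMap k (RatFunc k)).injective
    obtain ⟨L, _, _, _, _, _, _⟩ := J10_galois (RatFunc k) F
    let _ : Algebra k L := ((algebraMap F L).comp (algebraMap k F)).toAlgebra
    have _ : IsScalarTower k F L := IsScalarTower.of_algebraMap_eq fun x => rfl
    have _ : IsScalarTower k (RatFunc k) L := IsScalarTower.of_algebraMap_eq fun x => by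
      rw [IsScalarTower.algebraMap_apply (RatFunc k) F L,
        ← IsScalarTower.algebraMap_apply k (RatFunc k) F]
      rfl
    have _ : FiniteDimensional F L := FiniteDimensional.right (RatFunc k) F L
    have hfinF : {p : Geo k F Ω | p.1.ord g ≠ 0}.Finite := by
      rw [← hX]
      exact J10_fin
    refine ⟨hfinF, ?_⟩
    have h1 := (tot_up (L := L) g z hfinF).2
    have h2 : algebraMap F L g = algebraMap (RatFunc k) L RatFunc.X := by
      rw [IsScalarTower.algebraMap_apply (RatFunc k) F L, hX]
    rw [h2, J10_gal] at h1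
    rw [isOfFinAddOrder_iff_nsmul_eq_zero]
    exact ⟨Module.finrank F L, Module.finrank_pos, h1.symm⟩

end Pool.Agent.LibCV66
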