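import Pool.Agent.LibCV66.J1

/-!
[CV66 T6] change of the base field: geometric places over `κ` as geometric places over `k`.

Plan. `tw` is the identity on coordinates: `(E⁄κ)⁄F` and `E⁄F` are equal curves
(`algebraMap k F = (algebraMap κ F).comp (algebraMap k κ)`).
`geo_rs`: for `P = (v, s)`, `v : Place κ F`, let `v' : Place k F` have the same function `ord`
(`ord_const` from the tower); `VR v' = VR v` holds by `rfl`, so the residue fields are the same rings, and
`s` is a ring homomorphism `RF v' → Ω` over `k`. Conversely `p = (v', s')` with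
`Vl p (algebraMap κ F c) (algebraMap κ Ω c)` for all `c` in `κ` comes from `κ`: the order of `c ≠ 0` in `κ` is
zero (`c` and `c⁻¹` are regular), and `s'` is a homomorphism over `κ`. Injective: the data are the same
(`Place.ext'`, or `geo_ext`). `ev`: `rd`, `mp` act on the coordinates (cases: origin, affine point; `SpR`).
-/

open WeierstrassCurve Pool.Agent.LibBH2 Pool.Agent.LibIG50 Pool.Agent.LibCHd Pool.Agent.LibAC34
open scoped Classical

namespace Pool.Agent.LibCV66

variable {k κ F Ω : Type} [Field k] [Field κ] [Algebra k κ] [Field F] [Algebra k F] [Algebra κ F]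
  [IsScalarTower k κ F] [Field Ω] [Algebra k Ω] [Algebra κ Ω] [IsScalarTower k κ Ω]

omit [Field Ω] [Algebra k Ω] [Algebra κ Ω] [IsScalarTower k κ Ω] in
theorem base_twice (E : WeierstrassCurve k) : (E⁄F) = ((E⁄κ)⁄F) := by
  have h := IsScalarTower.algebraMap_eq k κ F
  change E.map (algebraMap k F) = (E.map (algebraMap k κ)).map (algebraMap κ F)
  rw [WeierstrassCurve.map_map, ← h]

/-- a point of `E` over `F` as a point of the base change of `E` to `κ` -/
noncomputable def tw (κ : Type) {F : Type} [Field κ] [Algebra k κ] [Field F] [Algebra k F]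
    [Algebra κ F] [IsScalarTower k κ F] (E : WeierstrassCurve k) :
    (E⁄F).toAffine.Point ≃+ ((E⁄κ)⁄F).toAffine.Point :=
  (base_twice (κ := κ) (F := F) E) ▸ AddEquiv.refl (E⁄F).toAffine.Point

theorem tw_some (E : WeierstrassCurve k) (x y : F) (h : (E⁄F).toAffine.Nonsingular x y) :
    ∃ h', tw κ E (.some x y h) = .some x y h' := by
  have key : ∀ (W W' : WeierstrassCurve F) (h0 : W = W') (hW : W.toAffine.Nonsingular x y),
      ∃ h' : W'.toAffine.Nonsingular x y,
        (h0 ▸ AddEquiv.refl W.toAffine.Point : W.toAffine.Point ≃+ W'.toAffine.Point)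
          (.some x y hW) = .some x y h' := by
    intro W W' h0 hW
    subst h0
    exact ⟨hW, rfl⟩
  exact key _ _ (base_twice E) h

/-- the place over `k` -/
private def T6_P (k : Type) [Field k] [Algebra k κ] [Algebra k F] [IsScalarTower k κ F]
    (v : Place κ F) : Place k F where
  ord := v.ord
  ord_zero := v.ord_zero
  ord_mul := v.ord_mul
  ord_add := v.ord_add
  ord_const := by
    intro c hc
    rw [IsScalarTower.algebraMap_apply k κ F]
    exact v.ord_const _ ((map_ne_zero _).2 hc)
  exists_uniformizer := v.exists_uniformizer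

/-- the geometric place over `k` -/
private noncomputable def T6_r (k : Type) [Field k] [Algebra k κ] [Algebra k F]
    [IsScalarTower k κ F] [Algebra k Ω] [IsScalarTower k κ Ω] (P : Geo κ F Ω) : Geo k F Ω :=
  ⟨T6_P k P.1,
    { toRingHom := (P.2.toRingHom : RF P.1 →+* Ω)
      commutes' := by
        intro c
        obtain ⟨h1, e1⟩ := red_const (T6_P k P.1) c
        obtain ⟨h2, e2⟩ := red_const P.1 (algebraMap k κ c)
        have h3 : algebraMap k (RF (T6_P k P.1)) c = algebraMap κ (RF P.1) (algebraMap k κ c) := by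
          rw [← e1, ← e2]
          show IsLocalRing.residue (VR P.1) _ = IsLocalRing.residue (VR P.1) _
          congr 1
          exact Subtype.ext (IsScalarTower.algebraMap_apply k κ F c)
        rw [h3]
        refine (P.2.commutes _).trans ?_
        exact (IsScalarTower.algebraMap_apply k κ Ω c).symm }⟩

private theorem T6_vl (P : Geo κ F Ω) (f : F) (c : Ω) : Vl (T6_r k P) f c ↔ Vl P f c := Iff.rfl

theorem elliptic_base (κ : Type) [Field κ] [Algebra k κ] (E : WeierstrassCurve k)
    [E.IsElliptic] : (E⁄κ).IsElliptic :=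
  inferInstanceAs (E.map (algebraMap k κ)).IsElliptic

theorem geo_rs : ∃ ρ : Geo κ F Ω → Geo k F Ω, Function.Injective ρ ∧
    (∀ P f, (ρ P).1.ord f = P.1.ord f) ∧ (∀ P f c, Vl (ρ P) f c ↔ Vl P f c) ∧
    (∀ p : Geo k F Ω, (∀ c : κ, Vl p (algebraMap κ F c) (algebraMap κ Ω c)) ↔ ∃ P, ρ P = p) ∧
    ∀ (E : WeierstrassCurve k) [E.IsElliptic] [(E⁄κ).IsElliptic] (P : Geo κ F Ω)
      (z : (E⁄F).toAffine.Point), ev P (tw κ E z) = tw κ E (ev (ρ P) z) := by
  refine ⟨T6_r k, ?_, fun P f => rfl, T6_vl, ?_, ?_⟩
  · intro P Q h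
    refine geo_ext fun f c hc => ?_
    rw [← T6_vl (k := k)] at hc ⊢
    rw [h]
    exact hc
  · intro p
    constructor
    · intro hp
      let v : Place κ F :=
        { ord := p.1.ord
          ord_zero := p.1.ord_zero
          ord_mul := p.1.ord_mul
          ord_add := p.1.ord_add
          ord_const := by
            intro c hc
            have h0 : algebraMap κ F c ≠ 0 := (map_ne_zero _).2 hc
            have h1 := (vl_reg (hp c)).resolve_left h0
            have h2 := (vl_reg (hp c⁻¹)).resolve_left ((map_ne_zero _).2 (inv_ne_zero hc))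
            rw [map_inv₀, p.1.ord_inv] at h2
            omega
          exists_uniformizer := p.1.exists_uniformizer }
      let s : RF v →ₐ[κ] Ω :=
        { toRingHom := (p.2.toRingHom : RF p.1 →+* Ω)
          commutes' := by
            intro c
            obtain ⟨a, ha, h1⟩ := hp c
            have h2 : Red v (algebraMap κ F c) (algebraMap κ (RF v) c) := red_const v c
            have h3 : a = algebraMap κ (RF v) c := Red.unique (v := v) ha h2
            rw [← h3]
            exact h1 }
      refine ⟨⟨v, s⟩, geo_ext fun f c hc => ?_⟩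
      exact hc
    · rintro ⟨P, rfl⟩ c
      rw [T6_vl]
      exact ⟨algebraMap κ (RF P.1) c, red_const P.1 c, P.2.commutes c⟩
  · intro E _ _ P z
    match z with
    | .zero =>
      have h0 : (.zero : (E⁄F).toAffine.Point) = 0 := rfl
      rw [h0, map_zero, map_zero, map_zero, map_zero]
    | .some x y hxy =>
      obtain ⟨h1, e1⟩ := tw_some (κ := κ) E x y hxy
      rw [e1, ev_apply, ev_apply]
      have hp := rd_spec P.1 (.some x y h1 : ((E⁄κ)⁄F).toAffine.Point)
      have hq := rd_spec (T6_r k P).1 (.some x y hxy : (E⁄F).toAffine.Point)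
      obtain ⟨p, hP⟩ : ∃ p, p = rd P.1 (E⁄κ) (.some x y h1 : ((E⁄κ)⁄F).toAffine.Point) := ⟨_, rfl⟩
      obtain ⟨q, hQ⟩ : ∃ q, q = rd (T6_r k P).1 E (.some x y hxy : (E⁄F).toAffine.Point) :=
        ⟨_, rfl⟩
      rw [← hP] at hp ⊢
      rw [← hQ] at hq ⊢
      match p, q, hp, hq with
      | .zero, .zero, _, _ =>
        have h2 : (.zero : ((E⁄κ)⁄(RF P.1)).toAffine.Point) = 0 := rfl
        have h3 : (.zero : (E⁄(RF (T6_r k P).1)).toAffine.Point) = 0 := rfl
        rw [h2, h3, map_zero, map_zero, map_zero]
      | .zero, .some x₀ y₀ h₀, hp, hq =>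
        exfalso
        have h2 : P.1.ord x < 0 := hp
        have h3 : Red (T6_r k P).1 x x₀ := hq.1
        have h4 : P.1.Reg x := h3.reg
        rcases h4 with h4 | h4
        · rw [h4, P.1.ord_zero] at h2
          exact lt_irrefl _ h2
        · omega
      | .some a b hab, .zero, hp, hq =>
        exfalso
        have h2 : P.1.ord x < 0 := hq
        have h3 : Red P.1 x a := hp.1
        rcases h3.reg with h5 | h5
        · rw [h5, P.1.ord_zero] at h2
          exact lt_irrefl _ h2
        · omega
      | .some a b hab, .some x₀ y₀ h₀, hp, hq =>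
        have hx : a = x₀ := Red.unique (v := P.1) hp.1 hq.1
        have hy : b = y₀ := Red.unique (v := P.1) hp.2 hq.2
        obtain ⟨h5, e5⟩ := mp_some P.2 a b hab
        obtain ⟨h6, e6⟩ := mp_some (T6_r k P).2 x₀ y₀ h₀
        rw [e5, e6]
        obtain ⟨h7, e7⟩ := tw_some (κ := κ) E ((T6_r k P).2 x₀) ((T6_r k P).2 y₀) h6
        rw [e7]
        have hx' : P.2 a = (T6_r k P).2 x₀ := by rw [hx]; rfl
        have hy' : P.2 b = (T6_r k P).2 y₀ := by rw [hy]; rfl
        simp only [hx', hy']

end Pool.Agent.LibCV66
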