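import Pool.Agent.LibCV66.T3
import Pool.Agent.LibCV66.T6
import Pool.Agent.LibCV66.J10

/-!
[CV66 T8] Abel's theorem relative to a product of elliptic curves.

Plan. Let `S` be the set in question. Case 1: `S` is empty: trivial (`tot` over the empty set is `0`).
Case 2: some `p` in `S`. Then `w` is generic (`triv_of_gn`, because `η` is). Let `κ = cof w` (an
`IntermediateField`, so a tower `k ⊆ κ ⊆ F`) and `τ : κ →ₐ[k] Ω` with `mp τ (w0 w a) = η a` (`gn_unique`), and give
`Ω` the `κ`-algebra structure of `τ` (`letI := τ.toRingHom.toAlgebra`, tower by `τ.commutes`). Take `ρ` of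
`geo_rs`. Claim: `S = range ρ`. If `p = ρ P` then `Vl p c (τ c)` for `c` in `κ`; so `p` restricts on `κ` to the
embedding `τ` in the sense that `ev p (mp (cof w).val q) = mp τ q` for points `q` over `κ` (coordinates:
`rd_eq`, `SpR`, values), hence `ev p (w a) = η a` by `w0_spec`. If `p` is in `S` then by
`triv_of_gn` all `c ≠ 0` in `κ` have order zero, so `c ↦` the value of `c` at `p` is an embedding
`τ' : κ →ₐ[k] Ω` with `mp τ' (w0 w a) = ev p (w a) = η a`, so `τ' = τ` by the uniqueness in `gn_unique`.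
Then `tot S g z` corresponds under `ρ` (injective: `finsum_mem_range`, orders are equal) and
`tw κ E : E(Ω) ≃ (E⁄κ)(Ω)` to `tot univ g (tw κ E z)` for `κ`, and `abel` for `κ`
(`funF_over`, `elliptic_base`, `CharZero κ`) gives the claim: an additive equivalence preserves
elements of finite order (`AddMonoidHom.prodMap`, `isOfFinAddOrder` of an injective image; move
the `finsum` through the additive equivalence with `AddMonoidHom.map_finsum_mem` on the finite support).
-/

open WeierstrassCurve Pool.Agent.LibBH2 Pool.Agent.LibIG50 Pool.Agent.LibCHd Pool.Agent.LibAC34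
open scoped Classical

namespace Pool.Agent.LibCV66

variable {k : Type} [Field k] {D : ℕ} {V : Fin D → WeierstrassCurve k} [∀ a, (V a).IsElliptic]
  {F : Type} [Field F] [Algebra k F] {Ω : Type} [Field Ω] [Algebra k Ω]

omit [∀ a, (V a).IsElliptic] in
private theorem T8_ev {H : Type} [Field H] [Algebra k H] (i : H →ₐ[k] F) (τ : H →ₐ[k] Ω)
    (p : Geo k F Ω) (h : ∀ c, Vl p (i c) (τ c)) {E : WeierstrassCurve k} [E.IsElliptic]
    (z : (E⁄H).toAffine.Point) : ev p (mp i z) = mp τ z := by
  match z with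
  | .zero =>
    have h0 : (.zero : (E⁄H).toAffine.Point) = 0 := rfl
    rw [h0, map_zero, map_zero, map_zero]
  | .some x y hxy =>
    obtain ⟨h1, e1⟩ := mp_some i x y hxy
    obtain ⟨h2, e2⟩ := mp_some τ x y hxy
    rw [e1, e2, ev_apply]
    have hp := rd_spec p.1 (.some (i x) (i y) h1 : (E⁄F).toAffine.Point)
    obtain ⟨P, hP⟩ : ∃ P, P = rd p.1 E (.some (i x) (i y) h1 : (E⁄F).toAffine.Point) := ⟨_, rfl⟩
    rw [← hP] at hp ⊢
    match P, hp with
    | .zero, hp =>
      exfalso
      have h3 : p.1.ord (i x) < 0 := hp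
      rcases vl_reg (h x) with h4 | h4
      · rw [h4, p.1.ord_zero] at h3
        exact lt_irrefl _ h3
      · omega
    | .some a b hab, hp =>
      have hx : p.2 a = τ x := vl_unique (p := p) ⟨a, hp.1, rfl⟩ (h x)
      have hy : p.2 b = τ y := vl_unique (p := p) ⟨b, hp.2, rfl⟩ (h y)
      obtain ⟨h5, e5⟩ := mp_some p.2 a b hab
      rw [e5]
      simp only [hx, hy]

private theorem T8_iff (w : ∀ a, ((V a)⁄F).toAffine.Point) {η : ∀ a, ((V a)⁄Ω).toAffine.Point}
    (hη : Gn η) {τ : cof w →ₐ[k] Ω} (hτ : ∀ a, mp τ (w0 w a) = η a)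
    (hu : ∀ τ' : cof w →ₐ[k] Ω, (∀ a, mp τ' (w0 w a) = η a) → τ' = τ) (p : Geo k F Ω) :
    (∀ c : cof w, Vl p (c : F) (τ c)) ↔ ∀ a, ev p (w a) = η a := by
  constructor
  · intro h a
    have h1 := T8_ev (cof w).val τ p h (w0 w a)
    rw [w0_spec, hτ] at h1
    exact h1
  · intro h
    have h1 : Gn (fun a => ev p (w a)) := by
      have h0 : (fun a => ev p (w a)) = η := funext h
      rw [h0]
      exact hη
    obtain ⟨-, h2⟩ := triv_of_gn p w h1
    have hreg : ∀ c : cof w, p.1.Reg (c : F) := fun c => Or.inr (h2 c c.2).ge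
    let g : cof w →+* VR p.1 :=
      { toFun := fun c => ⟨c, hreg c⟩
        map_one' := rfl
        map_mul' := fun _ _ => rfl
        map_zero' := rfl
        map_add' := fun _ _ => rfl }
    let τ' : cof w →ₐ[k] Ω :=
      { toRingHom := p.2.toRingHom.comp ((IsLocalRing.residue (VR p.1)).comp g)
        commutes' := by
          intro c
          obtain ⟨h3, e3⟩ := red_const p.1 c
          have h4 : p.2 (algebraMap k (RF p.1) c) = algebraMap k Ω c := p.2.commutes c
          rw [← e3] at h4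
          exact h4 }
    have h3 : ∀ c : cof w, Vl p (c : F) (τ' c) := fun c => ⟨_, ⟨hreg c, rfl⟩, rfl⟩
    have h4 : τ' = τ := by
      refine hu τ' fun a => ?_
      have h5 := T8_ev (cof w).val τ' p h3 (w0 w a)
      rw [w0_spec] at h5
      rw [← h5]
      exact h a
    rw [← h4]
    exact h3

theorem abel_rel [CharZero k] [IsAlgClosed Ω] (hF : FunF k (D + 1) F)
    (w : ∀ a, ((V a)⁄F).toAffine.Point) {η : ∀ a, ((V a)⁄Ω).toAffine.Point} (hη : Gn η)
    (g : F) (hg : g ≠ 0) {E : WeierstrassCurve k} [E.IsElliptic] (z : (E⁄F).toAffine.Point) :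
    {p : Geo k F Ω | (∀ a, ev p (w a) = η a) ∧ p.1.ord g ≠ 0}.Finite ∧
      IsOfFinAddOrder (tot {p : Geo k F Ω | ∀ a, ev p (w a) = η a} g z) := by
  by_cases hS : ∃ p : Geo k F Ω, ∀ a, ev p (w a) = η a
  · obtain ⟨p₀, hp₀⟩ := hS
    have hw : Gn w := by
      have h0 : (fun a => ev p₀ (w a)) = η := funext hp₀
      exact (triv_of_gn p₀ w (by rw [h0]; exact hη)).1
    obtain ⟨τ, hτ, hu⟩ := gn_unique (fun a => inferInstance) hw hη
    letI : Algebra (cof w) Ω := τ.toRingHom.toAlgebra
    haveI : IsScalarTower k (cof w) Ω :=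
      IsScalarTower.of_algebraMap_eq fun x => (τ.commutes x).symm
    obtain ⟨ρ, hρi, hρo, -, hρr, hρe⟩ := geo_rs (k := k) (κ := cof w) (F := F) (Ω := Ω)
    haveI : (E⁄(cof w)).IsElliptic := elliptic_base (cof w) E
    haveI : CharZero (cof w) := charZero_of_injective_algebraMap (algebraMap k (cof w)).injective
    have hSr : {p : Geo k F Ω | ∀ a, ev p (w a) = η a} = Set.range ρ := by
      ext p
      exact (T8_iff w hη hτ (fun τ' h => hu τ' h) p).symm.trans (hρr p)
    obtain ⟨hfin, hord⟩ := abel (k := cof w) (Ω := Ω) (funF_over hw hF) g hg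
      (E := E⁄(cof w)) (tw (cof w) E z)
    constructor
    · refine (hfin.image ρ).subset ?_
      rintro p ⟨h1, h2⟩
      have h3 : p ∈ Set.range ρ := by rw [← hSr]; exact h1
      obtain ⟨P, rfl⟩ := h3
      refine ⟨P, ?_, rfl⟩
      show P.1.ord g ≠ 0
      rw [← hρo]
      exact h2
    · have h1 : tot {p : Geo k F Ω | ∀ a, ev p (w a) = η a} g z =
          ∑ᶠ P : Geo (cof w) F Ω, P.1.ord g • ((1 : ℤ), ev (ρ P) z) := by
        rw [tot, hSr, finsum_mem_range hρi]
        simp only [hρo]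
      have h2 : tot (Set.univ : Set (Geo (cof w) F Ω)) g (tw (cof w) E z) =
          ∑ᶠ P : Geo (cof w) F Ω, P.1.ord g • ((1 : ℤ), tw (cof w) E (ev (ρ P) z)) := by
        rw [tot, finsum_mem_univ]
        simp only [hρe]
      let Φ : ℤ × (E⁄Ω).toAffine.Point ≃+ ℤ × ((E⁄(cof w))⁄Ω).toAffine.Point :=
        (AddEquiv.refl ℤ).prodCongr (tw (cof w) E)
      have h3 : Φ (tot {p : Geo k F Ω | ∀ a, ev p (w a) = η a} g z) =
          tot (Set.univ : Set (Geo (cof w) F Ω)) g (tw (cof w) E z) := by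
        rw [h1, h2, AddEquiv.map_finsum]
        refine finsum_congr fun P => ?_
        rw [map_zsmul]
        rfl
      rw [← h3] at hord
      rw [isOfFinAddOrder_iff_nsmul_eq_zero] at hord ⊢
      obtain ⟨n, hn, h4⟩ := hord
      refine ⟨n, hn, ?_⟩
      apply Φ.injective
      rw [map_nsmul, h4, map_zero]
  · have h0 : {p : Geo k F Ω | ∀ a, ev p (w a) = η a} = ∅ := by
      ext p
      simp only [Set.mem_ofPred_eq, Set.mem_empty_iff_false, iff_false]
      exact fun h => hS ⟨p, h⟩
    constructor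
    · refine Set.Finite.subset (Set.finite_empty) ?_
      rintro p ⟨h1, -⟩
      exact absurd ⟨p, h1⟩ hS
    · rw [h0, tot, finsum_mem_empty]
      exact IsOfFinAddOrder.zero

end Pool.Agent.LibCV66
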