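import Pool.Agent.LibCV66.P4
import Pool.Agent.LibCV66.T8

/-!
[CV66 P5] the residue field of a geometric place at which `w` has a generic value is a function field of
dimension `D`.
-/

open WeierstrassCurve Pool.Agent.LibBH2 Pool.Agent.LibIG50 Pool.Agent.LibCHd Pool.Agent.LibAC34
open scoped Classical

namespace Pool.Agent.LibCV66

section P5

private theorem P5_finite {F K : Type} [Field F] [Field K] [Algebra F K]
    [Algebra.EssFiniteType F K] [Algebra.IsAlgebraic F K] : FiniteDimensional F K := by
  obtain ⟨S, hS⟩ := IntermediateField.fg_top F K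
  have h1 : FiniteDimensional F (IntermediateField.adjoin F (S : Set K)) :=
    IntermediateField.finiteDimensional_adjoin fun x _ => Algebra.IsIntegral.isIntegral x
  rw [hS] at h1
  exact Module.Finite.equiv (IntermediateField.topEquiv (F := F) (E := K)).toLinearEquiv

private theorem P5_ess {F K : Type} [Field F] [Field K] [Algebra F K] {d : ℕ}
    (h : FunF F d K) : Algebra.EssFiniteType F K := by
  obtain ⟨t, -, hf⟩ := h
  have h1 : Algebra.EssFiniteType F (IntermediateField.adjoin F (Set.range t)) :=
    IntermediateField.essFiniteType_iff.2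
      (IntermediateField.fg_adjoin_of_finite (Set.finite_range t))
  exact Algebra.EssFiniteType.comp F (IntermediateField.adjoin F (Set.range t)) K

private theorem P5_alg {F K : Type} [Field F] [Field K] [Algebra F K] {ι : Type} {t : ι → K}
    (h : IsTranscendenceBasis F t) :
    Algebra.IsAlgebraic (IntermediateField.adjoin F (Set.range t)) K :=
  h.isAlgebraic_field

private theorem P5_funF {F K : Type} [Field F] [Field K] [Algebra F K] {d : ℕ}
    [Algebra.EssFiniteType F K] (h : Algebra.trdeg F K = (d : Cardinal)) : FunF F d K := by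
  obtain ⟨s, hs⟩ := exists_isTranscendenceBasis F K
  have h1 : Cardinal.mk s = (d : Cardinal) := by
    rw [hs.cardinalMk_eq_trdeg, h]
  obtain ⟨e⟩ : Nonempty (Fin d ≃ s) := by
    rw [← Cardinal.mk_fin] at h1
    exact Cardinal.eq.1 h1.symm
  have h2 : IsTranscendenceBasis F (fun i => ((e i : s) : K)) :=
    hs.comp_equiv e
  refine ⟨fun i => (e i : K), h2.1, ?_⟩
  have := P5_alg h2
  have : Algebra.EssFiniteType (IntermediateField.adjoin F (Set.range fun i => ((e i : s) : K)))
      K := Algebra.EssFiniteType.of_comp F _ K
  exact P5_finite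

variable {k : Type} [Field k] {K : Type} [Field K] [Algebra k K]

private noncomputable def P5_rho (v : Place k K) (M : IntermediateField k K)
    (h : ∀ c ∈ M, v.ord c = 0) : M →ₐ[k] RF v where
  toFun c := IsLocalRing.residue (VR v) ⟨c, Or.inr (h c c.2).ge⟩
  map_one' := by
    rw [← map_one (IsLocalRing.residue (VR v))]
    rfl
  map_mul' a b := by
    rw [← map_mul (IsLocalRing.residue (VR v))]
    rfl
  map_zero' := by
    rw [← map_zero (IsLocalRing.residue (VR v))]
    rfl
  map_add' a b := by
    rw [← map_add (IsLocalRing.residue (VR v))]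
    rfl
  commutes' c := by
    obtain ⟨h1, e1⟩ := red_const v c
    rw [← e1]
    rfl

private theorem P5_red (v : Place k K) (M : IntermediateField k K)
    (h : ∀ c ∈ M, v.ord c = 0) (c : M) : Red v (c : K) (P5_rho v M h c) := ⟨_, rfl⟩

private theorem P5_reg (v : Place k K) (M : IntermediateField k K)
    (h : ∀ c ∈ M, v.ord c = 0) {x : K} (hx : v.Reg x) (Q : Polynomial M) :
    v.Reg (Polynomial.aeval x Q) := by
  induction Q using Polynomial.induction_on' with
  | add p q hp hq =>
    rw [map_add]
    exact hp.add hq
  | monomial n a =>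
    rw [Polynomial.aeval_monomial]
    exact Place.Reg.mul (P5_red v M h a).reg (hx.pow n)

private theorem P5_aeval (v : Place k K) (M : IntermediateField k K)
    (h : ∀ c ∈ M, v.ord c = 0) {x : K} (hx : v.Zer x) (Q : Polynomial M) :
    Red v (Polynomial.aeval x Q) (P5_rho v M h (Q.coeff 0)) := by
  have h1 : Polynomial.aeval x Q =
      Polynomial.aeval x Q.divX * x + ((Q.coeff 0 : M) : K) := by
    have h2 := congrArg (Polynomial.aeval x) (Polynomial.divX_mul_X_add Q)
    rw [← h2, map_add, map_mul, Polynomial.aeval_X, Polynomial.aeval_C]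
    rfl
  rw [h1]
  have h3 : Red v (Polynomial.aeval x Q.divX * x) 0 :=
    red_zero_iff.2 (Place.Zer.reg_mul (P5_reg v M h hx.reg _) hx)
  have h4 := h3.add (P5_red v M h (Q.coeff 0))
  rwa [zero_add] at h4

private theorem P5_sum (v : Place k K) {ι : Type} (s : Finset ι) (f : ι → K) (c : ι → RF v)
    (h : ∀ i, Red v (f i) (c i)) : Red v (∑ i ∈ s, f i) (∑ i ∈ s, c i) := by
  induction s using Finset.induction_on with
  | empty => simpa using red_zero v
  | insert j s hj ih =>
    rw [Finset.sum_insert hj, Finset.sum_insert hj]
    exact (h j).add ih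

private theorem P5_poly (v : Place k K) (M : IntermediateField k K)
    (h : ∀ c ∈ M, v.ord c = 0) {x : K} (hx : v.ord x = 1) {ι : Type} [Fintype ι] (u : ι → K)
    (b : ι → RF v) (hu : ∀ i, Red v (u i) (b i))
    (hb : ∀ c : ι → M, ∑ i, P5_rho v M h (c i) * b i = 0 → ∀ i, c i = 0) (n : ℕ) :
    ∀ P : ι → Polynomial M, (∀ i, (P i).natDegree ≤ n) →
      ∑ i, Polynomial.aeval x (P i) * u i = 0 → ∀ i, P i = 0 := by
  have hx0 : x ≠ 0 := by
    rintro rfl
    rw [v.ord_zero] at hx
    exact zero_ne_one hx
  have hxz : v.Zer x := Or.inr (by rw [hx]; exact one_pos)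
  have key : ∀ P : ι → Polynomial M, ∑ i, Polynomial.aeval x (P i) * u i = 0 →
      ∀ i, (P i).coeff 0 = 0 := by
    intro P hP
    apply hb
    have h1 := P5_sum v Finset.univ (fun i => Polynomial.aeval x (P i) * u i)
      (fun i => P5_rho v M h ((P i).coeff 0) * b i)
      (fun i => (P5_aeval v M h hxz (P i)).mul (hu i))
    rw [hP] at h1
    exact h1.unique (red_zero v)
  induction n with
  | zero =>
    intro P hd hP i
    have h1 := key P hP i
    rw [Polynomial.eq_C_of_natDegree_le_zero (hd i), h1, Polynomial.C_0]
  | succ n ih =>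
    intro P hd hP i
    have h1 := key P hP
    have h2 : ∀ i, P i = (P i).divX * Polynomial.X := by
      intro i
      conv_lhs => rw [← Polynomial.divX_mul_X_add (P i), h1 i, Polynomial.C_0, add_zero]
    have h3 : ∀ i, Polynomial.aeval x (P i) * u i =
        x * (Polynomial.aeval x (P i).divX * u i) := by
      intro i
      conv_lhs => rw [h2 i, map_mul, Polynomial.aeval_X]
      ring
    have h4 : ∑ i, Polynomial.aeval x (P i).divX * u i = 0 := by
      rw [Finset.sum_congr rfl fun i _ => h3 i, ← Finset.mul_sum] at hP
      exact (mul_eq_zero.1 hP).resolve_left hx0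
    have h5 := ih (fun i => (P i).divX) (fun i => by
      rw [Polynomial.natDegree_divX_eq_natDegree_tsub_one]
      have := hd i
      omega) h4 i
    rw [h2 i, h5, zero_mul]

open scoped IntermediateField.algebraAdjoinAdjoin in
private theorem P5_fin (v : Place k K) (M : IntermediateField k K)
    (h : ∀ c ∈ M, v.ord c = 0) (hK : FunF M 1 K) :
    (P5_rho v M h).toRingHom.Finite := by
  obtain ⟨x, hx⟩ := v.exists_uniformizer
  have hxz : v.Zer x := Or.inr (by rw [hx]; exact one_pos)
  -- `x` is transcendental over `M`
  have htr : Transcendental M x := by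
    rw [transcendental_iff]
    intro P hP
    have h1 := P5_poly v M h hx (fun _ : Unit => (1 : K)) (fun _ => 1) (fun _ => red_one v)
      (fun c hc i => by
        have h2 : P5_rho v M h (c ()) = 0 := by simpa using hc
        exact (map_eq_zero _).1 h2) P.natDegree (fun _ => P) (fun _ => le_rfl)
      (by simpa using hP)
    exact h1 ()
  -- `K` is finite over `M(x)`
  have hess : Algebra.EssFiniteType M K := P5_ess hK
  have hind : AlgebraicIndependent M (fun _ : Fin 1 => x) := by
    rw [algebraicIndependent_unique_type_iff]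
    exact htr
  have hT : IsTranscendenceBasis M (fun _ : Fin 1 => x) :=
    hind.isTranscendenceBasis_of_trdeg_le_of_finite (by rw [hK.trdeg]; simp)
  have halg := P5_alg hT
  have hr : (Set.range fun _ : Fin 1 => x) = {x} := Set.range_const
  rw [hr] at halg
  have hess' : Algebra.EssFiniteType (IntermediateField.adjoin M {x}) K :=
    Algebra.EssFiniteType.of_comp M _ K
  have hfin : FiniteDimensional (IntermediateField.adjoin M {x}) K := P5_finite
  let _ : Algebra M (RF v) := (P5_rho v M h).toRingHom.toAlgebra
  have hsm : ∀ (c : M) (b : RF v), c • b = P5_rho v M h c * b := fun c b => rfl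
  have hrank : Module.rank M (RF v) ≤
      (Module.finrank (IntermediateField.adjoin M {x}) K : ℕ) := by
    refine rank_le fun s hs => ?_
    choose u hu using fun b : s => exists_rep (v := v) (b : RF v)
    have h1 : LinearIndependent (Algebra.adjoin M {x}) u := by
      rw [Fintype.linearIndependent_iff]
      intro g hg
      have h2 : ∀ b : s, ∃ P : Polynomial M, Polynomial.aeval x P = (g b : K) := by
        intro b
        have h3 : (g b : K) ∈ (Polynomial.aeval (R := M) x).range := by
          rw [← Algebra.adjoin_singleton_eq_range_aeval]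
          exact (g b).2
        exact h3
      choose P hP using h2
      have h4 := P5_poly v M h hx u (fun b : s => (b : RF v)) hu (fun c hc => by
        have h5 : ∑ b : s, c b • (b : RF v) = 0 := hc
        exact (Fintype.linearIndependent_iff.1 hs) c h5)
        (Finset.univ.sup fun b => (P b).natDegree) P
        (fun b => Finset.le_sup (f := fun b => (P b).natDegree) (Finset.mem_univ b)) (by
          rw [← hg]
          refine Finset.sum_congr rfl fun b _ => ?_
          rw [hP b]
          rfl)
      intro b
      apply Subtype.ext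
      rw [← hP b, h4 b, map_zero]
      rfl
    have h6 : LinearIndependent (IntermediateField.adjoin M {x}) u :=
      (LinearIndependent.iff_fractionRing (R := Algebra.adjoin M {x})
        (K := IntermediateField.adjoin M {x})).1 h1
    have h7 := h6.fintype_card_le_finrank
    simpa using h7
  have hfinM : Module.Finite M (RF v) := by
    rw [← Module.rank_lt_aleph0_iff]
    exact hrank.trans_lt (Cardinal.natCast_lt_aleph0)
  exact hfinM

private theorem P5_image {M R : Type} [Field M] [Algebra k M] [Field R] [Algebra k R] {d : ℕ}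
    (ρ : M →ₐ[k] R) (hρ : ρ.toRingHom.Finite) (hM : FunF k d M) : FunF k d R := by
  obtain ⟨t, ht, hf⟩ := hM
  refine ⟨fun i => ρ (t i), ht.map' (f := ρ) ρ.injective, ?_⟩
  have h1 : IntermediateField.adjoin k (Set.range fun l => ρ (t l)) =
      (IntermediateField.adjoin k (Set.range t)).map ρ := by
    rw [IntermediateField.adjoin_map, ← Set.range_comp]
    rfl
  rw [h1]
  set E := IntermediateField.adjoin k (Set.range t)
  have h2 : (algebraMap E M).Finite := by
    rw [RingHom.finite_algebraMap]
    exact hf
  have h3 : (ρ.toRingHom.comp (algebraMap E M)).Finite := RingHom.Finite.comp hρ h2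
  let g : E →+* E.map ρ :=
    { toFun := fun c => ⟨ρ c, c, c.2, rfl⟩
      map_one' := Subtype.ext (map_one ρ)
      map_mul' := fun a b => Subtype.ext (map_mul ρ _ _)
      map_zero' := Subtype.ext (map_zero ρ)
      map_add' := fun a b => Subtype.ext (map_add ρ _ _) }
  have h4 : ρ.toRingHom.comp (algebraMap E M) = (algebraMap (E.map ρ) R).comp g := by
    ext c
    rfl
  rw [h4] at h3
  have h5 : (algebraMap (E.map ρ) R).Finite := RingHom.Finite.of_comp_finite h3
  rwa [RingHom.finite_algebraMap] at h5

end P5

variable {k : Type} [Field k] {D : ℕ} {V : Fin D → WeierstrassCurve k}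
  {Ω : Type} [Field Ω] [Algebra k Ω]

theorem P5_cof {F : Type} [Field F] [Algebra k F] {w : ∀ a, ((V a)⁄F).toAffine.Point}
    (hw : Gn w) : FunF k D (cof w) := by
  have h1 : Algebra.EssFiniteType k (cof w) := by
    rw [IntermediateField.essFiniteType_iff]
    refine IntermediateField.fg_adjoin_of_finite ?_
    refine (Set.finite_range fun q : Fin D × Fin 3 × Fin 3 =>
      hc (w q.1) q.2.1 / hc (w q.1) q.2.2).subset ?_
    rintro c ⟨a, i, j, rfl⟩
    exact ⟨(a, i, j), rfl⟩
  exact P5_funF hw

/-- the residue field of a geometric place at which `w` has a generic value -/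
theorem funF_res [∀ a, (V a).IsElliptic] {K : Type} [Field K] [Algebra k K]
    (hK : FunF k (D + 1) K) (p : Geo k K Ω) (w : ∀ a, ((V a)⁄K).toAffine.Point)
    (h : Gn (fun a => ev p (w a))) : FunF k D (RF p.1) := by
  obtain ⟨hw, htriv⟩ := triv_of_gn p w h
  exact P5_image (P5_rho p.1 (cof w) htriv) (P5_fin p.1 (cof w) htriv (funF_over hw hK))
    (P5_cof hw)

end Pool.Agent.LibCV66
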