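import Pool.Agent.LibCV66.P4
import Pool.Agent.LibCV66.P5
import Pool.Agent.LibCV66.T8

/-!
[CV66 P6] the functional is torsion on the cycles rationally equivalent to zero.
-/

open WeierstrassCurve Pool.Agent.LibBH2 Pool.Agent.LibIG50 Pool.Agent.LibCHd Pool.Agent.LibAC34
open scoped Classical

namespace Pool.Agent.LibCV66

variable {k : Type} [Field k] {r : ℕ} {W : Fin r → WeierstrassCurve k} {Y : Prj k}
  {D : ℕ} {V : Fin D → WeierstrassCurve k} {E : WeierstrassCurve k}
  {Ω : Type} [Field Ω] [Algebra k Ω]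

theorem exists_spV (hW : ∀ i, (W i).IsElliptic) {K : Type} [Field K] [Algebra k K]
    (v : Place k K) (u : Pnt W Y K) : ∃ q : Pnt W Y (RF v), SpV v u q := by
  have h1 : ∀ i, ∃ p : ((W i)⁄(RF v)).toAffine.Point, SpR v (u.z i) p := by
    intro i
    have := hW i
    exact SpR_exists v (u.z i)
  choose z hz using h1
  obtain ⟨j, hj⟩ : ∃ j, u.y j ≠ 0 := by
    by_contra h
    push Not at h
    exact u.y_ne (funext h)
  obtain ⟨j0, hj0, hmin⟩ : ∃ j0, u.y j0 ≠ 0 ∧ ∀ j, u.y j ≠ 0 → v.ord (u.y j0) ≤ v.ord (u.y j) := by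
    obtain ⟨j0, h1, h2⟩ := Finset.exists_min_image
      (Finset.univ.filter fun j => u.y j ≠ 0) (fun j => v.ord (u.y j)) ⟨j, by simp [hj]⟩
    refine ⟨j0, by simpa using h1, fun j hj => h2 j (by simp [hj])⟩
  have hreg : ∀ a, v.Reg ((u.y j0)⁻¹ * u.y a) := by
    intro a
    by_cases ha : u.y a = 0
    · rw [ha, mul_zero]
      exact v.reg_zero
    · right
      rw [v.ord_mul _ _ (inv_ne_zero hj0) ha, v.ord_inv]
      have := hmin a ha
      omega
  choose y hy using fun a => exists_red (hreg a)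
  have h1 : y j0 = 1 := by
    have h2 := hy j0
    rw [inv_mul_cancel₀ hj0] at h2
    exact h2.unique (red_one v)
  refine ⟨⟨z, y, fun h => one_ne_zero (h1.symm.trans (congrFun h j0)), ?_⟩,
    hz, (u.y j0)⁻¹, inv_ne_zero hj0, hy⟩
  intro f hf
  have hs := (LibCV6.Pnt.scale (u.y j0)⁻¹ (inv_ne_zero hj0) u).mem f hf
  have key : ∀ F : MvPolynomial (Fin (Y.N + 1)) k,
      Red v (MvPolynomial.aeval (fun a => (u.y j0)⁻¹ * u.y a) F) (MvPolynomial.aeval y F) := by
    intro F
    induction F using MvPolynomial.induction_on with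
    | C a =>
      rw [MvPolynomial.algHom_C, MvPolynomial.algHom_C]
      exact red_const v a
    | add p q hp hq =>
      rw [map_add, map_add]
      exact hp.add hq
    | mul_X p n hp =>
      rw [map_mul, map_mul, MvPolynomial.aeval_X, MvPolynomial.aeval_X]
      exact hp.mul (hy n)
  have h3 := key f
  have h4 : MvPolynomial.aeval (fun a => (u.y j0)⁻¹ * u.y a) f = 0 := hs
  rw [h4] at h3
  exact h3.unique (red_zero v)

theorem phi_div [CharZero k] [IsAlgClosed Ω] (hW : ∀ i, (W i).IsElliptic)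
    (hV : ∀ a, (V a).IsElliptic) (hE : E.IsElliptic) (β : ∀ a, PH W (V a)) (γ : PH W E)
    {η : ∀ a, ((V a)⁄Ω).toAffine.Point} (hη : Gn η) {c : Cyc r Y} (hc : IsDiv W Y D c) :
    IsOfFinAddOrder (Phi Y β γ η c) := by
  obtain ⟨K, _, _, u, g, S, C, hK, hg, hS, hS', rfl⟩ := hc
  have hVi : ∀ a, (V a).IsElliptic := hV
  let w : ∀ a, ((V a)⁄K).toAffine.Point := fun a => (β a).f K u.z
  let z : (E⁄K).toAffine.Point := γ.f K u.z
  obtain ⟨hfin, htor⟩ := abel_rel hK w hη g hg z
  have hev : ∀ (v : Place k K) (q : Pnt W Y (RF v)), SpV v u q → ∀ s : RF v →ₐ[k] Ω,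
      (∀ a, ev (⟨v, s⟩ : Geo k K Ω) (w a) = mp s ((β a).f (RF v) q.z)) ∧
      ev (⟨v, s⟩ : Geo k K Ω) z = mp s (γ.f (RF v) q.z) := by
    intro v q hq s
    refine ⟨fun a => ?_, ?_⟩
    · rw [ev_apply]
      exact congrArg (mp s) (rd_eq ((β a).sp K v u.z q.z hq.1))
    · rw [ev_apply]
      exact congrArg (mp s) (rd_eq (γ.sp K v u.z q.z hq.1))
  have hmem : ∀ (v : Place k K) (q : Pnt W Y (RF v)), SpV v u q → ∀ s : RF v →ₐ[k] Ω,
      s ∈ Emb β η q.z ↔ ∀ a, ev (⟨v, s⟩ : Geo k K Ω) (w a) = η a := by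
    intro v q hq s
    refine forall_congr' fun a => ?_
    rw [(hev v q hq s).1 a]
  have hin : ∀ p ∈ hfin.toFinset, p.1 ∈ S := by
    rintro ⟨v, s⟩ hp
    rw [Set.Finite.mem_toFinset] at hp
    obtain ⟨hp1, hp2⟩ := hp
    by_contra hv
    obtain ⟨q, hq⟩ := exists_spV hW v u
    have hgn : Gn (fun a => ev (⟨v, s⟩ : Geo k K Ω) (w a)) := by
      have h1 : (fun a => ev (⟨v, s⟩ : Geo k K Ω) (w a)) = η := funext hp1
      rw [h1]
      exact hη
    have hF : FunF k D (RF v) := funF_res hK (⟨v, s⟩ : Geo k K Ω) w hgn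
    have h0 := hS' v hv hp2 hF q hq
    have h1 := phi_cyc hV β γ hη hF q
    have hE2 := emb_finite hV β hη hF q.z
    rw [h0, map_zero, finsum_mem_eq_finite_toFinset_sum _ hE2] at h1
    have h2 := congrArg Prod.fst h1
    rw [Prod.fst_sum, Finset.sum_const, Prod.fst_zero] at h2
    have h3 : s ∈ hE2.toFinset := by
      rw [Set.Finite.mem_toFinset, hmem v q hq s]
      exact hp1
    have h4 := Finset.card_pos.2 ⟨s, h3⟩
    simp only [nsmul_eq_mul, mul_one] at h2
    omega
  have hkey : Phi Y β γ η (∑ v ∈ S, v.ord g • C v) =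
      tot {p : Geo k K Ω | ∀ a, ev p (w a) = η a} g z := by
    have h1 : tot {p : Geo k K Ω | ∀ a, ev p (w a) = η a} g z =
        ∑ p ∈ hfin.toFinset, p.1.ord g • ((1 : ℤ), ev p z) := by
      unfold tot
      rw [finsum_mem_def, finsum_eq_sum_of_support_subset (s := hfin.toFinset)]
      · refine Finset.sum_congr rfl fun p hp => ?_
        rw [Set.Finite.mem_toFinset] at hp
        exact Set.indicator_of_mem (s := {p : Geo k K Ω | ∀ a, ev p (w a) = η a}) hp.1 _
      · intro p hp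
        rw [Set.Finite.coe_toFinset]
        rw [Function.mem_support] at hp
        refine ⟨?_, ?_⟩
        · by_contra h2
          exact hp (Set.indicator_of_notMem (s := {p : Geo k K Ω | ∀ a, ev p (w a) = η a}) h2 _)
        · intro h2
          apply hp
          by_cases h3 : p ∈ {p : Geo k K Ω | ∀ a, ev p (w a) = η a}
          · rw [Set.indicator_of_mem h3, h2, zero_smul]
          · exact Set.indicator_of_notMem h3 _
    rw [h1, map_sum, ← Finset.sum_fiberwise_of_maps_to (s := hfin.toFinset) (t := S)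
      (g := fun p => p.1) hin]
    refine Finset.sum_congr rfl fun v hv => ?_
    rw [map_zsmul]
    obtain ⟨hF, q, hq, hC⟩ := hS v hv
    rw [hC, phi_cyc hV β γ hη hF q]
    have hE2 := emb_finite hV β hη hF q.z
    rw [finsum_mem_eq_finite_toFinset_sum _ hE2, Finset.smul_sum]
    by_cases h0 : v.ord g = 0
    · rw [Finset.sum_eq_zero (fun s _ => by rw [h0, zero_smul]), eq_comm]
      refine Finset.sum_eq_zero fun p hp => ?_
      rw [Finset.mem_filter] at hp
      rw [hp.2, h0, zero_smul]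
    · refine Finset.sum_bij (fun s _ => (⟨v, s⟩ : Geo k K Ω)) ?_ ?_ ?_ ?_
      · intro s hs
        rw [Set.Finite.mem_toFinset, hmem v q hq s] at hs
        rw [Finset.mem_filter, Set.Finite.mem_toFinset]
        exact ⟨⟨hs, h0⟩, rfl⟩
      · intro s _ t _ hst
        exact eq_of_heq (Sigma.mk.inj hst).2
      · rintro ⟨v', s⟩ hp
        rw [Finset.mem_filter, Set.Finite.mem_toFinset] at hp
        obtain ⟨⟨hp1, _⟩, hp2⟩ := hp
        have hp2' : v' = v := hp2
        subst hp2'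
        refine ⟨s, ?_, rfl⟩
        rw [Set.Finite.mem_toFinset, hmem v' q hq s]
        exact hp1
      · intro s _
        rw [(hev v q hq s).2]
  rw [hkey]
  exact htor

theorem phi_torsion [CharZero k] [IsAlgClosed Ω] (hW : ∀ i, (W i).IsElliptic)
    (hV : ∀ a, (V a).IsElliptic) (hE : E.IsElliptic) (β : ∀ a, PH W (V a)) (γ : PH W E)
    {η : ∀ a, ((V a)⁄Ω).toAffine.Point} (hη : Gn η) {c : Cyc r Y}
    (hc : IsOfFinAddOrder (QuotientAddGroup.mk c : CH W Y D)) :
    IsOfFinAddOrder (Phi Y β γ η c) := by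
  have hcl : ∀ x ∈ RatEq W Y D, IsOfFinAddOrder (Phi Y β γ η x) := by
    intro x hx
    unfold RatEq at hx
    induction hx using AddSubgroup.closure_induction with
    | mem x hx => exact phi_div hW hV hE β γ hη hx
    | zero =>
      rw [map_zero]
      exact IsOfFinAddOrder.zero
    | add x y _ _ hx hy =>
      rw [map_add]
      exact hx.add hy
    | neg x _ hx =>
      rw [map_neg]
      exact hx.neg
  obtain ⟨n, hn, h1⟩ := isOfFinAddOrder_iff_nsmul_eq_zero.1 hc
  have h2 : n • c ∈ RatEq W Y D := by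
    rw [← QuotientAddGroup.eq_zero_iff]
    exact h1
  have h3 := hcl _ h2
  rw [map_nsmul] at h3
  obtain ⟨m, hm, h4⟩ := isOfFinAddOrder_iff_nsmul_eq_zero.1 h3
  refine isOfFinAddOrder_iff_nsmul_eq_zero.2 ⟨m * n, Nat.mul_pos hm hn, ?_⟩
  rw [mul_smul]
  exact h4

end Pool.Agent.LibCV66
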