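import Pool.Agent.LibCV66.CDefs
import Pool.Agent.LibCHd.A

/-!
[CV66 C1] homomorphisms given by matrices, embeddings of the field of the generic point.

Plan. `exists_lc`: the family `F ↦ lc E z` is a `PH`: `nat` by `mp_tr`, `map_sum`, `map_zsmul`; `sp` by `spR_tr`,
`spR_zsmul` (LibAC34/B1), `SpR_add`, `Finset.sum_induction` (elliptic curves; for `V ≠ W` `tr` is `0`; use
`rfl`-type facts for the origin as in LibAC34/B1: note that only `E` has to be elliptic for sums; terms
with `W i ≠ E` are zero). `mp_mx`: the same computation.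
`gen_all`: `L` is finite over `k` (`FunF k 0 L`), `k` algebraically closed, so `l` has image `k` and the
coordinates of `ξ` generate `K`: `cof ξ = ⊤`; `trdeg K = D`, so `Gn ξ`.
`emb_gen`: `gn_unique` for `w = ξ` and `cof ξ = ⊤` (`IntermediateField.topEquiv`), with `w0_spec`.
`const_L`: a point over `L` comes from `k`: `k → L` is bijective.
`gn_image`: if `mx V φ x = η'` is generic then `x` is generic: the coordinates of `mx V φ x` lie in `cof x`
(`exists_pt`, `mp_mx`, `coo_mp`) and `gn_of_le`.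
`gn_add_const`: adding a constant point does not change the field of coordinates (both inclusions:
`exists_pt` and `coo_mp`, `mp_const`).
-/

open WeierstrassCurve Pool.Agent.LibBH2 Pool.Agent.LibIG50 Pool.Agent.LibCHd Pool.Agent.LibAC34
open scoped Classical

namespace Pool.Agent.LibCV66

variable {k : Type} [Field k] {r D : ℕ} {V : Fin D → WeierstrassCurve k}
  {W : Fin r → WeierstrassCurve k} {F : Type} [Field F] [Algebra k F] {Ω : Type} [Field Ω]
  [Algebra k Ω]

theorem exists_lc (W : Fin r → WeierstrassCurve k) (E : WeierstrassCurve k) [E.IsElliptic]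
    (z : Fin r → ℤ) : ∃ γ : PH W E, ∀ (F : Type) [Field F] [Algebra k F]
      (P : ∀ i, ((W i)⁄F).toAffine.Point), γ.f F P = lc E z P := by
  refine ⟨⟨fun F _ _ => lc E z, ?_, ?_⟩, fun F _ _ P => rfl⟩
  · intro F G _ _ _ _ σ P
    rw [lc_apply, lc_apply, map_sum]
    refine Finset.sum_congr rfl fun i _ => ?_
    rw [map_zsmul, mp_tr]
  · intro K _ _ v P p h
    rw [lc_apply, lc_apply]
    have key : ∀ s : Finset (Fin r), SpR v (∑ i ∈ s, z i • tr (W i) E (P i))
        (∑ i ∈ s, z i • tr (W i) E (p i)) := by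
      intro s
      induction s using Finset.induction_on with
      | empty =>
        rw [Finset.sum_empty, Finset.sum_empty]
        exact spR_zero_iff.2 (Or.inl rfl)
      | insert i s hi ih =>
        rw [Finset.sum_insert hi, Finset.sum_insert hi]
        exact SpR_add (spR_zsmul (z i) (spR_tr E (h i))) ih
    exact key Finset.univ

theorem mp_mx (s : F →ₐ[k] Ω) (N : Matrix (Fin r) (Fin D) ℤ)
    (x : ∀ a, ((V a)⁄F).toAffine.Point) (i : Fin r) :
    mp s (mx W N x i) = mx W N (fun a => mp s (x a)) i := by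
  rw [mx_apply, mx_apply, map_sum]
  refine Finset.sum_congr rfl fun a _ => ?_
  rw [map_zsmul, mp_tr]

private theorem C1_bij [IsAlgClosed k] {L : Type} [Field L] [Algebra k L] (hL : FunF k 0 L) :
    Function.Bijective (algebraMap k L) := by
  have h1 : Algebra.IsAlgebraic k L := by
    rw [← trdeg_eq_zero_iff, hL.trdeg, Nat.cast_zero]
  exact IsAlgClosed.algebraMap_bijective_of_isIntegral

theorem gen_all [IsAlgClosed k] {L K : Type} [Field L] [Algebra k L] [Field K] [Algebra k K]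
    {l : L →ₐ[k] K} {ξ : ∀ a, ((V a)⁄K).toAffine.Point} (h : IsGen 0 l V ξ) :
    Gn ξ ∧ cof ξ = ⊤ ∧ FunF k D K := by
  have h1 : FunF k D K := by
    have h2 := h.dim
    rwa [zero_add] at h2
  have h3 : cof ξ = ⊤ := by
    rw [eq_top_iff, ← h.gen, IntermediateField.adjoin_le_iff]
    rintro c (⟨z, rfl⟩ | ⟨a, i, j, rfl⟩)
    · obtain ⟨y, rfl⟩ := (C1_bij h.dimL).2 z
      rw [l.commutes]
      exact (cof ξ).algebraMap_mem y
    · exact IntermediateField.subset_adjoin _ _ ⟨a, i, j, rfl⟩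
  refine ⟨?_, h3, h1⟩
  rw [Gn, h3, (IntermediateField.topEquiv (F := k) (E := K)).trdeg_eq]
  exact h1.trdeg

theorem emb_gen [IsAlgClosed k] (hV : ∀ a, (V a).IsElliptic) {L K : Type} [Field L]
    [Algebra k L] [Field K] [Algebra k K] {l : L →ₐ[k] K} {ξ : ∀ a, ((V a)⁄K).toAffine.Point}
    (h : IsGen 0 l V ξ) {x : ∀ a, ((V a)⁄Ω).toAffine.Point} (hx : Gn x) :
    ∃! s : K →ₐ[k] Ω, ∀ a, mp s (ξ a) = x a := by
  obtain ⟨h1, h2, -⟩ := gen_all h
  obtain ⟨τ, hτ, hu⟩ := gn_unique hV h1 hx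
  have hb : Function.Bijective (cof ξ).val := by
    refine ⟨(cof ξ).val.injective, fun z => ?_⟩
    have hz : z ∈ cof ξ := by rw [h2]; exact IntermediateField.mem_top
    exact ⟨⟨z, hz⟩, rfl⟩
  obtain ⟨e, he⟩ : ∃ e : K →ₐ[k] cof ξ, e.comp (cof ξ).val = AlgHom.id k (cof ξ) ∧
      (cof ξ).val.comp e = AlgHom.id k K := by
    refine ⟨((AlgEquiv.ofBijective (cof ξ).val hb).symm : K →ₐ[k] cof ξ), ?_, ?_⟩
    · ext z
      exact congrArg (cof ξ).val ((AlgEquiv.ofBijective (cof ξ).val hb).symm_apply_apply z)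
    · ext z
      exact (AlgEquiv.ofBijective (cof ξ).val hb).apply_symm_apply z
  refine ⟨τ.comp e, ?_, ?_⟩
  · intro a
    show mp (τ.comp e) (ξ a) = x a
    rw [← w0_spec ξ a, mp_comp, AlgHom.comp_assoc, he.1, AlgHom.comp_id]
    exact hτ a
  · intro s hs
    have h3 : s.comp (cof ξ).val = τ := by
      refine hu _ fun a => ?_
      show mp (s.comp (cof ξ).val) (w0 ξ a) = x a
      rw [← mp_comp, w0_spec]
      exact hs a
    rw [← h3, AlgHom.comp_assoc, he.2, AlgHom.comp_id]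

theorem const_L [IsAlgClosed k] {L : Type} [Field L] [Algebra k L] (hL : FunF k 0 L)
    {E : WeierstrassCurve k} (P : (E⁄L).toAffine.Point) :
    ∃ p : E.toAffine.Point, P = constPt L p := by
  match P with
  | .zero => exact ⟨.zero, rfl⟩
  | .some x y h =>
    obtain ⟨x₀, rfl⟩ := (C1_bij hL).2 x
    obtain ⟨y₀, rfl⟩ := (C1_bij hL).2 y
    exact ⟨.some x₀ y₀
      ((WeierstrassCurve.Affine.map_nonsingular E (algebraMap k L).injective x₀ y₀).1 h), rfl⟩

private theorem C1_coo_val {E : WeierstrassCurve k} (L : IntermediateField k Ω)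
    (p : (E⁄L).toAffine.Point) : coo (mp L.val p) ⊆ L := by
  rw [coo_mp]
  rintro _ ⟨c, -, rfl⟩
  exact c.2

private theorem C1_cof_le {y : ∀ a, ((V a)⁄Ω).toAffine.Point} (L : IntermediateField k Ω)
    (h : ∀ a, ∃ p : ((V a)⁄L).toAffine.Point, mp L.val p = y a) : cof y ≤ L := by
  rw [cof, IntermediateField.adjoin_le_iff]
  rintro c ⟨a, hc'⟩
  obtain ⟨p, hp⟩ := h a
  rw [← hp] at hc'
  exact C1_coo_val L p hc'

theorem gn_image {φ : Matrix (Fin D) (Fin D) ℤ} {x : ∀ a, ((V a)⁄Ω).toAffine.Point}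
    (h : Gn (mx V φ x)) : Gn x := by
  refine gn_of_le h (C1_cof_le (cof x) fun a => ⟨mx V φ (w0 x) a, ?_⟩)
  rw [mp_mx]
  have h1 : (fun b => mp (cof x).val (w0 x b)) = x := funext fun b => w0_spec x b
  rw [h1]

private theorem C1_exsub {E : WeierstrassCurve k} {A B : Type} [Field A] [Algebra k A] [Field B]
    [Algebra k B] (f : A →ₐ[k] B) (P Q : (E⁄A).toAffine.Point) :
    ∃ R : (E⁄A).toAffine.Point, mp f R = mp f P - mp f Q := ⟨P - Q, map_sub _ _ _⟩

theorem gn_add_const {η : ∀ a, ((V a)⁄Ω).toAffine.Point} (hη : Gn η) (c : Pts V) :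
    Gn (fun a => η a + constPt Ω (c a)) := by
  obtain ⟨w, hw⟩ : ∃ w : ∀ a, ((V a)⁄Ω).toAffine.Point, w = fun a => η a + constPt Ω (c a) :=
    ⟨_, rfl⟩
  rw [← hw]
  refine gn_of_le hη (C1_cof_le (cof w) fun a => ?_)
  obtain ⟨R, hR⟩ := C1_exsub (cof w).val (w0 w a) (constPt (cof w) (c a))
  refine ⟨R, ?_⟩
  rw [hR, w0_spec, mp_const, hw]
  exact add_sub_cancel_right _ _

end Pool.Agent.LibCV66
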