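import Pool.Agent.LibCV66.C1
import Pool.Agent.LibCV66.P6
import Pool.Agent.LibAC34.Stmt
import Pool.Agent.LibBH2.TwTools

/-!
The degree of a homomorphism of a product of elliptic curves given by a matrix, from the
theorem on cycles of all dimensions.
-/

open WeierstrassCurve Pool.Agent.LibBH2 Pool.Agent.LibIG50 Pool.Agent.LibCHd Pool.Agent.LibAC34
open scoped Classical

namespace Pool.Agent.LibCV66

section General

variable {k : Type} [Field k] {r D : ℕ}

theorem cls_tor {W : Fin r → WeierstrassCurve k}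
    {V : Fin D → WeierstrassCurve k} {Y : Prj k} {L K : Type} [Field L] [Algebra k L] [Field K]
    [Algebra k K] (u : Pnt W Y L) (l : L →ₐ[k] K) (ξ : ∀ a, ((V a)⁄K).toAffine.Point)
    {J : Type} [Fintype J] (m : J → ℤ) (N : J → Matrix (Fin r) (Fin D) ℤ) (g : J → Pts W)
    (n : ℕ) (hn : n = D) (ht : IsOfFinAddOrder (∑ j, m j • cl l n ξ u (N j) (g j))) :
    IsOfFinAddOrder (QuotientAddGroup.mk (∑ j, m j • cyc (lin l ξ (N j) (g j) u)) :
      CH W Y D) := by
  subst hn
  have h1 : (QuotientAddGroup.mk (∑ j, m j • cyc (lin l ξ (N j) (g j) u)) : CH W Y n) =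
      ∑ j, m j • cl l n ξ u (N j) (g j) := by
    have h2 := map_sum (QuotientAddGroup.mk' (RatEq W Y n))
      (fun j => m j • cyc (lin l ξ (N j) (g j) u)) Finset.univ
    refine h2.trans (Finset.sum_congr rfl fun j _ => ?_)
    rw [map_zsmul]
    rfl
  rw [h1]
  exact ht

/-- the projection to a component -/
noncomputable def prj (W : Fin r → WeierstrassCurve k) (i : Fin r) : PH W (W i) where
  f F _ _ := Pi.evalAddMonoidHom (fun i => ((W i)⁄F).toAffine.Point) i
  nat _ _ _ _ _ _ _ _ := rfl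
  sp _ _ _ _ _ _ h := h i

/-- a point -/
def ptY (k : Type) [Field k] : Prj k := ⟨0, ∅, by simp⟩

/-- the origin of a product of curves -/
def orgY (W : Fin r → WeierstrassCurve k) : Pnt W (ptY k) k where
  z _ := 0
  y _ := 1
  y_ne h := one_ne_zero (congrFun h 0)
  mem _ h := absurd h (Set.notMem_empty _)

theorem tor_int {x : ℤ} (h : IsOfFinAddOrder x) : x = 0 := by
  obtain ⟨n, hn, h1⟩ := isOfFinAddOrder_iff_nsmul_eq_zero.1 h
  rw [nsmul_eq_mul] at h1
  rcases mul_eq_zero.1 h1 with h2 | h2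
  · exfalso
    have h3 : n = 0 := by exact_mod_cast h2
    omega
  · exact h2

variable {V : Fin D → WeierstrassCurve k} {K : Type} [Field K] [Algebra k K]

theorem mx_one (x : ∀ a, ((V a)⁄K).toAffine.Point) : mx V 1 x = x := by
  funext i
  rw [mx_apply, Finset.sum_eq_single i]
  · rw [Matrix.one_apply_eq, one_smul, tr_self]
  · intro b _ hb
    rw [Matrix.one_apply_ne hb.symm, zero_smul]
  · intro h
    exact absurd (Finset.mem_univ i) h

theorem count_aux [CharZero k] [IsAlgClosed k] (hV : ∀ a, (V a).IsElliptic) {E : WeierstrassCurve k}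
    {l : k →ₐ[k] K} {ξ : ∀ a, ((V a)⁄K).toAffine.Point} (h : IsGen 0 l V ξ)
    {Ω : Type} [Field Ω] [Algebra k Ω] [IsAlgClosed Ω]
    {η : ∀ a, ((V a)⁄Ω).toAffine.Point} (hη : Gn η) (φ : Matrix (Fin D) (Fin D) ℤ) (γ : PH V E) :
    {x : ∀ a, ((V a)⁄Ω).toAffine.Point | mx V φ x = η}.Finite ∧
      (Nat.card {x : ∀ a, ((V a)⁄Ω).toAffine.Point | mx V φ x = η} : ℤ) =
        (Phi (ptY k) (prj V) γ η (cyc (lin l ξ φ 0 (orgY V)))).1 := by
  have hK : FunF k D K := (gen_all h).2.2
  obtain ⟨T, hT⟩ : ∃ T : Pnt V (ptY k) K, T = lin l ξ φ 0 (orgY V) := ⟨_, rfl⟩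
  have hTz : ∀ i, T.z i = mx V φ ξ i := by
    intro i
    have h1 : T.z i = 0 + ((∑ a, φ i a • tr (V a) (V i) (ξ a)) + mp l 0) := by
      rw [hT]
      rfl
    rw [h1, map_zero, add_zero, zero_add, mx_apply]
  have hmem : ∀ s : K →ₐ[k] Ω, s ∈ Emb (prj V) η T.z ↔ mx V φ (fun a => mp s (ξ a)) = η := by
    intro s
    have h1 : ∀ a, mp s ((prj V a).f K T.z) = mx V φ (fun a => mp s (ξ a)) a := by
      intro a
      have h2 : (prj V a).f K T.z = T.z a := rfl
      rw [h2, hTz, mp_mx]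
    constructor
    · intro hs
      funext a
      rw [← h1]
      exact hs a
    · intro hs a
      rw [h1, hs]
  have hfin : (Emb (prj V) η T.z).Finite := emb_finite hV (prj V) hη hK T.z
  let e : Emb (prj V) η T.z → {x : ∀ a, ((V a)⁄Ω).toAffine.Point | mx V φ x = η} :=
    fun s => ⟨fun a => mp s.1 (ξ a), (hmem s.1).1 s.2⟩
  have he : Function.Bijective e := by
    constructor
    · intro s t hst
      have h2 : (fun a => mp s.1 (ξ a)) = fun a => mp t.1 (ξ a) := congrArg Subtype.val hst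
      have h3 : Gn (fun a => mp s.1 (ξ a)) := gn_image (by
        rw [(hmem s.1).1 s.2]
        exact hη)
      obtain ⟨s₀, -, h4⟩ := emb_gen hV h h3
      have h5 := h4 s.1 fun a => rfl
      have h6 := h4 t.1 fun a => (congrFun h2 a).symm
      exact Subtype.ext (h5.trans h6.symm)
    · rintro ⟨x, hx⟩
      have h3 : Gn x := gn_image (by
        rw [show mx V φ x = η from hx]
        exact hη)
      obtain ⟨s, hs, -⟩ := emb_gen hV h h3
      have h4 : (fun a => mp s (ξ a)) = x := funext hs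
      refine ⟨⟨s, (hmem s).2 ?_⟩, ?_⟩
      · rw [h4]
        exact hx
      · exact Subtype.ext h4
  have hfin' : Finite (Emb (prj V) η T.z) := hfin
  refine ⟨?_, ?_⟩
  · exact Finite.of_surjective e he.2
  · rw [← Nat.card_eq_of_bijective e he, Nat.card_eq_card_finite_toFinset hfin, ← hT,
      phi_cyc hV (prj V) γ hη hK T, finsum_mem_eq_finite_toFinset_sum _ hfin, Prod.fst_sum]
    simp

end General

theorem count_det (h0 : AllDim (fun _ => ⊥)) {D : ℕ} {V : Fin D → WeierstrassCurve Qb}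
    (hV : ∀ a, (V a).IsElliptic) {Ω : Type} [Field Ω] [Algebra Qb Ω] [IsAlgClosed Ω]
    {η : ∀ a, ((V a)⁄Ω).toAffine.Point} (hη : Gn η) (φ : Matrix (Fin D) (Fin D) ℤ)
    (hφ : Mat V V φ) :
    {x : ∀ a, ((V a)⁄Ω).toAffine.Point | mx V φ x = η}.Finite ∧
      (Nat.card {x : ∀ a, ((V a)⁄Ω).toAffine.Point | mx V φ x = η} : ℤ) = φ.det ^ 2 := by
  have hgen : IsGen 0 (Algebra.ofId Qb (cof η)) V (w0 η) := by
    refine ⟨⟨Fin.elim0, algebraicIndependent_empty_type_iff.2 (algebraMap Qb Qb).injective, ?_⟩,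
      ?_, ?_⟩
    · exact Module.Finite.of_restrictScalars_finite Qb
        (IntermediateField.adjoin Qb (Set.range Fin.elim0)) Qb
    · rw [zero_add]
      exact P5_cof hη
    · refine eq_top_iff.2 ((T1_top η).ge.trans (IntermediateField.adjoin_le_iff.2 ?_))
      rintro c ⟨a, i, j, rfl⟩
      exact IntermediateField.subset_adjoin _ _ (Or.inr ⟨a, i, j, rfl⟩)
  obtain ⟨γ, -⟩ := exists_lc V (WeierstrassCurve.ofJ 0 : WeierstrassCurve Qb) 0
  have hcard := fun φ => count_aux hV hgen hη φ γ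
  refine ⟨(hcard φ).1, ?_⟩
  let m : Bool → ℤ := fun b => if b then 1 else -(φ.det ^ 2)
  let N : Bool → Matrix (Fin D) (Fin D) ℤ := fun b => if b then φ else 1
  have hN : ∀ b, Mat V V (N b) := by
    rintro (_ | _)
    · intro i a h
      change (1 : Matrix (Fin D) (Fin D) ℤ) i a = 0
      refine Matrix.one_apply_ne ?_
      rintro rfl
      exact h rfl
    · exact hφ
  have ht := h0 D V hV D V hV (ptY Qb) 0 Qb (orgY V) (cof η) (Algebra.ofId Qb (cof η)) (w0 η) hgen
    Bool m N (fun _ => 0) hN (fun _ _ => rfl)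
    (fun M _ => by
      simp only [m, N, Fintype.sum_bool, if_true, Bool.false_eq_true, if_false, Matrix.det_mul,
        Matrix.det_transpose, Matrix.det_one]
      ring)
    (fun M _ E z _ => by
      have h1 : ∀ b, bdet E M z (N b) (0 : Pts V) = 0 := by
        intro b
        unfold bdet
        refine Finset.sum_eq_zero fun i _ => ?_
        have h2 : trk (V i) E ((0 : Pts V) i) = 0 := by
          by_cases h : V i = E
          · subst h
            rw [trk_self]
            rfl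
          · rw [trk_ne h]
        rw [h2, smul_zero]
      simp only [h1, smul_zero, Finset.sum_const_zero]
      exact IsOfFinAddOrder.zero)
  have hcl := cls_tor (orgY V) (Algebra.ofId Qb (cof η)) (w0 η) m N (fun _ => 0) (0 + D)
    (zero_add D) ht
  have h1 := phi_torsion hV hV (inferInstance : (WeierstrassCurve.ofJ 0 :
    WeierstrassCurve Qb).IsElliptic) (prj V) γ hη hcl
  rw [map_sum] at h1
  have h3 := (AddMonoidHom.fst ℤ (((WeierstrassCurve.ofJ 0 :
    WeierstrassCurve Qb))⁄Ω).toAffine.Point).isOfFinAddOrder h1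
  have h4 := tor_int h3
  rw [map_sum, Fintype.sum_bool, map_zsmul, map_zsmul, map_zsmul, map_zsmul] at h4
  have h5 : (Nat.card {x : ∀ a, ((V a)⁄Ω).toAffine.Point | mx V 1 x = η} : ℤ) = 1 := by
    have h6 : {x : ∀ a, ((V a)⁄Ω).toAffine.Point | mx V 1 x = η} = {η} := by
      ext x
      simp [mx_one]
    rw [h6]
    simp
  have e1 := (hcard φ).2
  have e2 := (hcard 1).2
  rw [h5] at e2
  have h7 : m true • (Phi (ptY Qb) (prj V) γ η (cyc (lin (Algebra.ofId Qb (cof η)) (w0 η) (N true)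
      0 (orgY V)))).1 + m false • (Phi (ptY Qb) (prj V) γ η (cyc (lin (Algebra.ofId Qb (cof η))
      (w0 η) (N false) 0 (orgY V)))).1 = 0 := h4
  change (1 : ℤ) • (Phi (ptY Qb) (prj V) γ η (cyc (lin (Algebra.ofId Qb (cof η)) (w0 η) φ
      0 (orgY V)))).1 + (-(φ.det ^ 2)) • (Phi (ptY Qb) (prj V) γ η (cyc (lin
      (Algebra.ofId Qb (cof η)) (w0 η) 1 0 (orgY V)))).1 = 0 at h7
  rw [← e1, ← e2, smul_eq_mul, smul_eq_mul, one_mul, mul_one] at h7
  linarith

end Pool.Agent.LibCV66
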