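import Pool.Agent.LibCV66.CDefs

/-!
[CV66 C3] algebra of the tests (no geometry).

Plan. `det_bordered`: for square `A` (indexed by `Fin D`), column `b`, row `c`, scalar `e`:
`det [[A, b], [c, e]] = det A * e - c ⬝ adj(A) b`; here the matrix `(M | z)ᵀ (N | w)` is
`[[Mᵀ N, Mᵀ w], [zᵀ N, zᵀ w]]` (`Matrix.fromBlocks`). Over a field with `det A ≠ 0`: `det_fromBlocks₁₁`; in
general: replace `A` by `A + t` over `ℤ[t]` (its determinant is a monic polynomial, nonzero; work in
the fraction field of `ℤ[t]`), then `t = 0`. Or Laplace expansion.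
`deriv_hom`: for `M' = M + t • z e_aᵀ` (`Matrix.vecMulVec z (Pi.single a 1)`), `t` an integer: `Mat V W M'`
because `z i ≠ 0` implies `W i = E = V a`; `M'ᵀ N = (Mᵀ N).updateRow a (row a + t • (z ᵥ* N))`, so
`det (M'ᵀ N) = det (Mᵀ N) + t * δ`, `δ = det ((Mᵀ N).updateRow a (z ᵥ* N)) = ((z ᵥ* N) ᵥ* adj (Mᵀ N)) a`
(`Matrix.adjugate_apply`/`cramer`, linearity in the row). `∑ m_j (d_j + t δ_j) ^ 2 = 0` for `t = 0, 1, -1` gives
`4 ∑ m_j d_j δ_j = 0`.
`lc_value`: put `x' a = tr (V a) E (x a)`, `c' i = tr (W i) E (c i)`, `q = z ᵥ* N`, `y = q ᵥ* adj φ`, `φ = Mᵀ N`,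
`d = det φ`. (1) `lc E z (mx W N x) = ∑ a, q a • x' a` (if `z i * N i a ≠ 0` then `V a = W i = E`, `subst`).
(2) `d • q = y ᵥ* φ` (`adjugate_mul`). (3) `∑ b, φ a b • x' b = tr (V a) E (mx V φ x a)` for all `a` (`V a = E`: clear;
`V a ≠ E`: both sides are `0`, because `φ a b ≠ 0` implies `V b = V a` by `mat_mul`). So
`d • lc E z (mx W N x) = ∑ a, y a • tr (V a) E (η a - mx V Mᵀ c a)`, and
(4) `tr (V a) E (mx V Mᵀ c a) = ∑ i, M i a • c' i` (same argument). With `d • lc E z c = ∑ i, (d * z i) • c' i` the
coefficient of `c' i` is `d * z i - ∑ a, y a * M i a`, which is `det_bordered` for `w = Pi.single i 1`.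
(No hypothesis `d ≠ 0` is needed.)
-/

open WeierstrassCurve Pool.Agent.LibBH2 Pool.Agent.LibIG50 Pool.Agent.LibCHd Pool.Agent.LibAC34
open scoped Classical

namespace Pool.Agent.LibCV66

variable {r D : ℕ}

/-- the coefficients of `η` -/
def yv (M N : Matrix (Fin r) (Fin D) ℤ) (z : Fin r → ℤ) : Fin D → ℤ :=
  Matrix.vecMul (Matrix.vecMul z N) (M.transpose * N).adjugate

private theorem C3a_dom {R : Type} [CommRing R] [IsDomain R] (A : Matrix (Fin D) (Fin D) R)
    (b c : Fin D → R) (e : R) (hA : A.det ≠ 0) :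
    (Matrix.fromBlocks A (Matrix.replicateCol Unit b) (Matrix.replicateRow Unit c)
      (Matrix.of fun _ _ => e)).det = A.det * e - dotProduct c (Matrix.mulVec A.adjugate b) := by
  have h1 : Matrix.fromBlocks A (Matrix.replicateCol Unit b) (Matrix.replicateRow Unit c)
      (Matrix.of fun _ _ => e) *
      Matrix.fromBlocks 1 (-(A.adjugate * Matrix.replicateCol Unit b)) 0
        (Matrix.of fun _ _ => A.det) =
      Matrix.fromBlocks A 0 (Matrix.replicateRow Unit c)
        (Matrix.of fun _ _ => A.det * e - dotProduct c (Matrix.mulVec A.adjugate b)) := by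
    rw [Matrix.fromBlocks_multiply]
    congr 1
    · rw [Matrix.mul_one, Matrix.mul_zero, add_zero]
    · rw [Matrix.mul_neg, ← Matrix.mul_assoc, Matrix.mul_adjugate]
      ext i j
      simp [Matrix.mul_apply, Matrix.add_apply, Matrix.neg_apply, mul_comm]
    · rw [Matrix.mul_one, Matrix.mul_zero, add_zero]
    · ext i j
      simp [Matrix.mul_apply, Matrix.add_apply, dotProduct, Matrix.mulVec]
      ring
  have h2 := congrArg Matrix.det h1
  rw [Matrix.det_mul, Matrix.det_fromBlocks_zero₂₁, Matrix.det_fromBlocks_zero₁₂, Matrix.det_one,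
    one_mul] at h2
  simp only [Matrix.det_unique, Matrix.of_apply] at h2
  have h3 : A.det * (Matrix.fromBlocks A (Matrix.replicateCol Unit b) (Matrix.replicateRow Unit c)
      (Matrix.of fun _ _ => e)).det =
      A.det * (A.det * e - dotProduct c (Matrix.mulVec A.adjugate b)) := by
    rw [mul_comm, h2]
  exact mul_left_cancel₀ hA h3

private theorem C3a_int (A : Matrix (Fin D) (Fin D) ℤ) (b c : Fin D → ℤ) (e : ℤ) :
    (Matrix.fromBlocks A (Matrix.replicateCol Unit b) (Matrix.replicateRow Unit c)
      (Matrix.of fun _ _ => e)).det = A.det * e - dotProduct c (Matrix.mulVec A.adjugate b) := by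
  have hA : (Matrix.charmatrix (-A)).det ≠ 0 := (Matrix.charpoly_monic (-A)).ne_zero
  have h1 := C3a_dom (Matrix.charmatrix (-A)) (fun i => Polynomial.C (b i))
    (fun i => Polynomial.C (c i)) (Polynomial.C e) hA
  let φ : Polynomial ℤ →+* ℤ := Polynomial.evalRingHom 0
  have hφ : φ.mapMatrix (Matrix.charmatrix (-A)) = A := by
    ext i j
    rw [RingHom.mapMatrix_apply, Matrix.map_apply, Matrix.charmatrix_apply]
    by_cases hij : i = j
    · subst hij
      simp [φ]
    · simp [φ, Matrix.diagonal_apply_ne _ hij]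
  have h2 := congrArg φ h1
  rw [RingHom.map_det, map_sub, map_mul, RingHom.map_det, hφ, RingHom.map_dotProduct] at h2
  have h3 : φ.mapMatrix (Matrix.fromBlocks (Matrix.charmatrix (-A))
      (Matrix.replicateCol Unit fun i => Polynomial.C (b i))
      (Matrix.replicateRow Unit fun i => Polynomial.C (c i)) (Matrix.of fun _ _ => Polynomial.C e)) =
      Matrix.fromBlocks A (Matrix.replicateCol Unit b) (Matrix.replicateRow Unit c)
      (Matrix.of fun _ _ => e) := by
    rw [RingHom.mapMatrix_apply, Matrix.fromBlocks_map, ← RingHom.mapMatrix_apply, hφ]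
    congr 1
    · ext i j
      simp [φ]
    · ext i j
      simp [φ]
    · ext i j
      simp [φ]
  have h4 : (φ ∘ Matrix.mulVec (Matrix.charmatrix (-A)).adjugate fun i => Polynomial.C (b i)) =
      Matrix.mulVec A.adjugate b := by
    ext i
    rw [Function.comp_apply, RingHom.map_mulVec]
    have h5 : (Matrix.charmatrix (-A)).adjugate.map φ = A.adjugate := by
      rw [← RingHom.mapMatrix_apply, RingHom.map_adjugate, hφ]
    rw [h5]
    congr 1
    ext i
    simp [φ]
  have h6 : (φ ∘ fun i => Polynomial.C (c i)) = c := by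
    ext i
    simp [φ]
  rw [h3, h4, h6] at h2
  rw [h2]
  simp [φ]

theorem det_bordered (M N : Matrix (Fin r) (Fin D) ℤ) (z w : Fin r → ℤ) :
    ((bd M z).transpose * bd N w).det = (M.transpose * N).det * dotProduct z w -
      dotProduct (yv M N z) (Matrix.mulVec M.transpose w) := by
  have h1 : (bd M z).transpose * bd N w =
      Matrix.fromBlocks (M.transpose * N) (Matrix.replicateCol Unit (Matrix.mulVec M.transpose w))
        (Matrix.replicateRow Unit (Matrix.vecMul z N)) (Matrix.of fun _ _ => dotProduct z w) := by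
    rw [bd, bd, Matrix.transpose_fromCols, Matrix.fromRows_mul_fromCols]
    congr 1
  rw [h1, C3a_int, yv, Matrix.dotProduct_mulVec]

variable {k : Type} [Field k] {V : Fin D → WeierstrassCurve k} {W : Fin r → WeierstrassCurve k}

private theorem c3b_det (M N : Matrix (Fin r) (Fin D) ℤ) (z : Fin r → ℤ) (a : Fin D) (t : ℤ) :
    ((M + t • Matrix.vecMulVec z (Pi.single a 1)).transpose * N).det =
      (M.transpose * N).det + t * yv M N z a := by
  have h1 : (M + t • Matrix.vecMulVec z (Pi.single a 1)).transpose * N =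
      (M.transpose * N).updateRow a ((M.transpose * N) a + t • Matrix.vecMul z N) := by
    ext b c
    by_cases hb : b = a
    · subst hb
      simp only [Matrix.updateRow_self, Pi.add_apply, Pi.smul_apply, Matrix.mul_apply,
        Matrix.transpose_apply, Matrix.add_apply, Matrix.smul_apply, Matrix.vecMulVec_apply,
        Pi.single_eq_same, mul_one, smul_eq_mul, Matrix.vecMul, dotProduct]
      rw [Finset.mul_sum, ← Finset.sum_add_distrib]
      exact Finset.sum_congr rfl fun i _ => by ring
    · simp only [Matrix.updateRow_ne hb, Matrix.mul_apply,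
        Matrix.transpose_apply, Matrix.add_apply, Matrix.smul_apply, Matrix.vecMulVec_apply,
        Pi.single_eq_of_ne hb, mul_zero, smul_zero, add_zero]
  have h2 : yv M N z a = ((M.transpose * N).updateRow a (Matrix.vecMul z N)).det := by
    rw [yv, ← Matrix.cramer_transpose_apply, Matrix.cramer_eq_adjugate_mulVec,
      ← Matrix.adjugate_transpose, Matrix.mulVec_transpose]
  rw [h1, Matrix.det_updateRow_add, Matrix.det_updateRow_smul, Matrix.updateRow_eq_self, ← h2]

private theorem c3b_tr {k : Type} [Field k] {F : Type} [Field F] [Algebra k F]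
    {A B E : WeierstrassCurve k} {n : ℤ} (h : A ≠ B → n = 0) (p : (A⁄F).toAffine.Point) :
    n • tr B E (tr A B p) = n • tr A E p := by
  by_cases hAB : A = B
  · subst hAB
    rw [tr_self]
  · rw [h hAB, zero_smul, zero_smul]

private theorem c3b_sum {k : Type} [Field k] {F : Type} [Field F] [Algebra k F]
    (A B : WeierstrassCurve k) {ι : Type} (s : Finset ι) (f : ι → (A⁄F).toAffine.Point) :
    tr A B (∑ i ∈ s, f i) = ∑ i ∈ s, tr A B (f i) := by
  let φ : (A⁄F).toAffine.Point →+ (B⁄F).toAffine.Point := ⟨⟨tr A B, tr_zero⟩, tr_add⟩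
  exact map_sum φ f s

theorem deriv_hom {J : Type} [Fintype J] (m : J → ℤ) (N : J → Matrix (Fin r) (Fin D) ℤ)
    (h : ∀ M, Mat V W M → ∑ j, m j * (M.transpose * N j).det ^ 2 = 0)
    {M : Matrix (Fin r) (Fin D) ℤ} (hM : Mat V W M) {E : WeierstrassCurve k} {z : Fin r → ℤ}
    (hz : ∀ i, W i ≠ E → z i = 0) {a : Fin D} (ha : V a = E) :
    ∑ j, m j * ((M.transpose * N j).det * yv M (N j) z a) = 0 := by
  have hmat : ∀ t : ℤ, Mat V W (M + t • Matrix.vecMulVec z (Pi.single a 1)) := by
    intro t i b hb
    rw [Matrix.add_apply, hM i b hb, zero_add, Matrix.smul_apply, Matrix.vecMulVec_apply]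
    by_cases hba : b = a
    · subst hba
      rw [hz i (fun h1 => hb (ha.trans h1.symm)), zero_mul, smul_zero]
    · rw [Pi.single_eq_of_ne hba, mul_zero, smul_zero]
  have h1 : ∀ t : ℤ, ∑ j, m j * ((M.transpose * N j).det + t * yv M (N j) z a) ^ 2 = 0 := by
    intro t
    rw [← h _ (hmat t)]
    exact Finset.sum_congr rfl fun j _ => by rw [c3b_det]
  have h2 := h1 1
  have h3 := h1 (-1)
  have h4 : (4 : ℤ) * ∑ j, m j * ((M.transpose * N j).det * yv M (N j) z a) =
      ∑ j, m j * ((M.transpose * N j).det + 1 * yv M (N j) z a) ^ 2 -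
        ∑ j, m j * ((M.transpose * N j).det + (-1) * yv M (N j) z a) ^ 2 := by
    rw [Finset.mul_sum, ← Finset.sum_sub_distrib]
    exact Finset.sum_congr rfl fun j _ => by ring
  rw [h2, h3, sub_zero] at h4
  omega

theorem lc_value {F : Type} [Field F] [Algebra k F] {M N : Matrix (Fin r) (Fin D) ℤ}
    (hM : Mat V W M) (hN : Mat V W N) {E : WeierstrassCurve k} {z : Fin r → ℤ}
    (hz : ∀ i, W i ≠ E → z i = 0)
    (x η : ∀ a, ((V a)⁄F).toAffine.Point) (c : ∀ i, ((W i)⁄F).toAffine.Point)
    (h : mx V (M.transpose * N) x + mx V M.transpose c = η) :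
    (M.transpose * N).det • lc E z (mx W N x + c) =
      ∑ a, yv M N z a • tr (V a) E (η a) +
        ∑ i, ((bd M z).transpose * bd N (Pi.single i 1)).det • tr (W i) E (c i) := by
  have hφ : Mat V V (M.transpose * N) := by
    intro a b hab
    rw [Matrix.mul_apply]
    refine Finset.sum_eq_zero fun i _ => ?_
    rw [Matrix.transpose_apply]
    by_cases h1 : V b = W i
    · rw [hM i a (fun h2 => hab (h1.trans h2.symm)), zero_mul]
    · rw [hN i b h1, mul_zero]
  -- (1)
  have h1 : lc E z (mx W N x) = ∑ a, Matrix.vecMul z N a • tr (V a) E (x a) := by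
    rw [lc_apply]
    have h2 : ∀ i, z i • tr (W i) E (mx W N x i) =
        ∑ a, (z i * N i a) • tr (V a) E (x a) := by
      intro i
      rw [mx_apply, c3b_sum, Finset.smul_sum]
      refine Finset.sum_congr rfl fun a _ => ?_
      rw [tr_zsmul, c3b_tr (hN i a), smul_smul]
    rw [Finset.sum_congr rfl fun i _ => h2 i, Finset.sum_comm]
    refine Finset.sum_congr rfl fun a _ => ?_
    rw [← Finset.sum_smul]
    rfl
  -- (2)
  have h2 : ∀ b, (M.transpose * N).det * Matrix.vecMul z N b =
      ∑ a, yv M N z a * (M.transpose * N) a b := by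
    intro b
    have h3 : Matrix.vecMul (yv M N z) (M.transpose * N) =
        (M.transpose * N).det • Matrix.vecMul z N := by
      rw [yv, Matrix.vecMul_vecMul, Matrix.adjugate_mul, Matrix.vecMul_smul, Matrix.vecMul_one]
    have h4 := congrFun h3 b
    rw [Pi.smul_apply, smul_eq_mul] at h4
    rw [← h4]
    rfl
  -- (3)
  have h3 : ∀ a, ∑ b, (M.transpose * N) a b • tr (V b) E (x b) =
      tr (V a) E (mx V (M.transpose * N) x a) := by
    intro a
    rw [mx_apply, c3b_sum]
    refine Finset.sum_congr rfl fun b _ => ?_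
    rw [tr_zsmul, c3b_tr (hφ a b)]
  -- (4)
  have h4 : ∀ a, tr (V a) E (mx V M.transpose c a) = ∑ i, M i a • tr (W i) E (c i) := by
    intro a
    rw [mx_apply, c3b_sum]
    refine Finset.sum_congr rfl fun i _ => ?_
    rw [tr_zsmul, Matrix.transpose_apply, c3b_tr (fun h5 => hM i a (fun h6 => h5 h6.symm))]
  have h5 : ∀ i, ((bd M z).transpose * bd N (Pi.single i 1)).det =
      (M.transpose * N).det * z i - ∑ a, yv M N z a * M i a := by
    intro i
    rw [det_bordered, dotProduct_single, mul_one, Matrix.mulVec_single_one]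
    rfl
  have h6 : ∀ a, mx V (M.transpose * N) x a = η a - mx V M.transpose c a := by
    intro a
    rw [← h, Pi.add_apply, add_sub_cancel_right]
  have h7 : (M.transpose * N).det • lc E z (mx W N x) =
      ∑ a, yv M N z a • tr (V a) E (η a) -
        ∑ i, (∑ a, yv M N z a * M i a) • tr (W i) E (c i) := by
    calc (M.transpose * N).det • lc E z (mx W N x)
        = ∑ b, ((M.transpose * N).det * Matrix.vecMul z N b) • tr (V b) E (x b) := by
          rw [h1, Finset.smul_sum]
          exact Finset.sum_congr rfl fun b _ => smul_smul _ _ _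
      _ = ∑ b, ∑ a, (yv M N z a * (M.transpose * N) a b) • tr (V b) E (x b) :=
          Finset.sum_congr rfl fun b _ => by rw [h2 b, Finset.sum_smul]
      _ = ∑ a, ∑ b, (yv M N z a * (M.transpose * N) a b) • tr (V b) E (x b) :=
          Finset.sum_comm
      _ = ∑ a, yv M N z a • tr (V a) E (mx V (M.transpose * N) x a) :=
          Finset.sum_congr rfl fun a _ => by
            rw [← h3 a, Finset.smul_sum]
            exact Finset.sum_congr rfl fun b _ => (smul_smul _ _ _).symm
      _ = ∑ a, (yv M N z a • tr (V a) E (η a) -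
            ∑ i, (yv M N z a * M i a) • tr (W i) E (c i)) :=
          Finset.sum_congr rfl fun a _ => by
            rw [h6 a, tr_sub, smul_sub, h4 a, Finset.smul_sum]
            congr 1
            exact Finset.sum_congr rfl fun i _ => smul_smul _ _ _
      _ = _ := by
          rw [Finset.sum_sub_distrib, Finset.sum_comm (f := fun a i =>
            (yv M N z a * M i a) • tr (W i) E (c i))]
          congr 1
          exact Finset.sum_congr rfl fun i _ => (Finset.sum_smul).symm
  rw [map_add, smul_add, h7, lc_apply, Finset.smul_sum, sub_add, sub_eq_add_neg]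
  congr 1
  rw [neg_sub, ← Finset.sum_sub_distrib]
  refine Finset.sum_congr rfl fun i _ => ?_
  rw [h5 i, sub_smul, smul_smul]

theorem mx_mul {F : Type} [Field F] [Algebra k F] {M N : Matrix (Fin r) (Fin D) ℤ}
    (hM : Mat V W M) (hN : Mat V W N) (x : ∀ a, ((V a)⁄F).toAffine.Point) :
    mx V M.transpose (mx W N x) = mx V (M.transpose * N) x := by
  funext a
  rw [mx_apply, mx_apply]
  have h2 : ∀ i, M.transpose a i • tr (W i) (V a) (mx W N x i) =
      ∑ b, (M.transpose a i * N i b) • tr (V b) (V a) (x b) := by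
    intro i
    rw [mx_apply, c3b_sum, Finset.smul_sum]
    refine Finset.sum_congr rfl fun b _ => ?_
    rw [tr_zsmul, c3b_tr (hN i b), smul_smul]
  rw [Finset.sum_congr rfl fun i _ => h2 i, Finset.sum_comm]
  refine Finset.sum_congr rfl fun b _ => ?_
  rw [← Finset.sum_smul, Matrix.mul_apply]

theorem mat_mul {M N : Matrix (Fin r) (Fin D) ℤ} (hM : Mat V W M) (hN : Mat V W N) :
    Mat V V (M.transpose * N) := by
  intro a b hab
  rw [Matrix.mul_apply]
  refine Finset.sum_eq_zero fun i _ => ?_
  rw [Matrix.transpose_apply]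
  by_cases h1 : V b = W i
  · rw [hM i a (fun h2 => hab (h1.trans h2.symm)), zero_mul]
  · rw [hN i b h1, mul_zero]

end Pool.Agent.LibCV66
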