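import Pool.Agent.LibCV66.C2
import Pool.Agent.LibCV66.C3
import Pool.Agent.LibBH2.TwTools

/-!
[CV66 C6] the converse of the theorem on cycles of all dimensions.

Plan. `phi_lin`: let `k = Qb`, `IsGen 0 l V ξ`, `u.z i = constPt L (u₀ i)` (`const_L`), so that the components of
`lin l ξ N g u` are `constPt K (g i) + (mx W N ξ i + constPt K (u₀ i))` (`mp_const`, LibCHd/B6). Let `β a` be
`exists_lc W (V a) (fun i => M i a)` and `γ = exists_lc W E z`. By `phi_cyc` (with `gen_all`: `FunF`) the value
`Phi (cyc (lin ..))` is the sum over the embeddings `s : K → Ω` with `mx V (Mᵀ N) x + mx V Mᵀ c = η`, where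
`x a = mp s (ξ a)` and `c i = constPt Ω (g i + u₀ i)` (`mx_mul`), of `(1, lc E z (mx W N x + c))`. By `emb_gen`,
`gn_image`, `gn_add_const` the `s` correspond to the points `x` with `mx V (Mᵀ N) x = η'`,
`η' = η - mx V Mᵀ c` (a constant translate of `η`), their number is `d ^ 2` by `count_det`, `d = det (Mᵀ N)`,
and for every one of them `d • lc E z (mx W N x + c)` is the right-hand side `R` of `lc_value`. So
`P = (Phi ..).2` satisfies `d • P = d ^ 2 • R`, i.e. `d • (P - d • R) = 0`, and if `d = 0` then `P = 0`.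
`converse`: choose `Ω = AlgebraicClosure K`, `η = ` the image of `ξ`. The sum `∑ m j • cl ..` is the class of
`∑ m j • cyc ..`; `phi_torsion` gives that `∑ m j • Phi (cyc ..)` has finite order. First component:
`∑ m j * d_j ^ 2 = 0`. Here `E` must be elliptic: for (hom) take `E = V a` or any elliptic curve and `z = 0`
(`D = 0` or `r = 0` too); for (AJ): if no `W i` equals `E` then `z = 0` and `bdet E M 0 N g = 0`; otherwise `E = W i` is
elliptic. Second component: `∑ m j • P_j` has finite order, and so has `P_j - d_j • (y_j(η) + b_j)`,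
`y_j(η) = ∑ a, yv M (N j) z a • tr (V a) E (η a)`, `b_j = constPt Ω (bdet E M z (N j) (g j + u₀))`;
`∑ m j • d_j • y_j(η) = 0` by `deriv_hom` (terms with `V a ≠ E` vanish). So `∑ (m j * d_j) • b_j` has finite
order; and `∑ (m j * d_j) • bdet E M z (N j) u₀ = 0`: by `det_bordered` its coefficient at `trk (W i) E (u₀ i)` is
`∑ m j d_j (d_j z_i - (yv_j ⬝ Mᵀ e_i))`, zero by (hom) and `deriv_hom` (only `a` with `V a = W i = E` matter, as
`M i a = 0` otherwise). `constPt` is injective and additive (compare LibGG/G6, `mp` and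
`Algebra.ofId`), so `∑ (m j * d_j) • bdet E M z (N j) (g j)` has finite order.
-/

open WeierstrassCurve Pool.Agent.LibBH2 Pool.Agent.LibIG50 Pool.Agent.LibCHd Pool.Agent.LibAC34
open scoped Classical

namespace Pool.Agent.LibCV66

private theorem C6a_const_some (F : Type) [Field F] [Algebra Qb F] (E : WeierstrassCurve Qb)
    {x y : Qb} (h : E.toAffine.Nonsingular x y) :
    (constPt F (.some x y h : E.toAffine.Point) : (E⁄F).toAffine.Point) =
      .some (algebraMap Qb F x) (algebraMap Qb F y)
        ((WeierstrassCurve.Affine.map_nonsingular E (algebraMap Qb F).injective x y).2 h) := rfl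

private theorem C6a_const_add (F : Type) [Field F] [Algebra Qb F] {E : WeierstrassCurve Qb}
    (p q : E.toAffine.Point) :
    (constPt F (p + q) : (E⁄F).toAffine.Point) = constPt F p + constPt F q := by
  rcases p with _ | ⟨x₁, y₁, h₁⟩ <;> rcases q with _ | ⟨x₂, y₂, h₂⟩
  · rfl
  · rfl
  · rfl
  · have n₁ := (WeierstrassCurve.Affine.map_nonsingular E (algebraMap Qb F).injective x₁ y₁).2 h₁
    have n₂ := (WeierstrassCurve.Affine.map_nonsingular E (algebraMap Qb F).injective x₂ y₂).2 h₂
    by_cases hxy : x₁ = x₂ ∧ y₁ = E.toAffine.negY x₂ y₂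
    · rw [Affine.Point.add_of_Y_eq hxy.left hxy.right]
      have hy : algebraMap Qb F y₁ =
          (E⁄F).toAffine.negY (algebraMap Qb F x₂) (algebraMap Qb F y₂) := by
        rw [hxy.right]; exact (Affine.map_negY (W' := E) (algebraMap Qb F) x₂ y₂).symm
      exact (Affine.Point.add_of_Y_eq (W := (E⁄F).toAffine) (h₁ := n₁)
        (h₂ := n₂) (congr_arg _ hxy.left) hy).symm
    · have hxy' : ¬(algebraMap Qb F x₁ = algebraMap Qb F x₂ ∧
          algebraMap Qb F y₁ = (E⁄F).toAffine.negY (algebraMap Qb F x₂) (algebraMap Qb F y₂)) := by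
        rintro ⟨h1, h2⟩
        apply hxy
        refine ⟨(algebraMap Qb F).injective h1, (algebraMap Qb F).injective ?_⟩
        rw [h2]
        exact Affine.map_negY (W' := E) (algebraMap Qb F) x₂ y₂
      rw [Affine.Point.add_some hxy]
      refine Eq.trans ?_ (Affine.Point.add_some (W := (E⁄F).toAffine) (h₁ := n₁)
        (h₂ := n₂) hxy').symm
      have hs : (E⁄F).toAffine.slope (algebraMap Qb F x₁) (algebraMap Qb F x₂)
          (algebraMap Qb F y₁) (algebraMap Qb F y₂) =
            algebraMap Qb F (E.toAffine.slope x₁ x₂ y₁ y₂) :=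
        Affine.map_slope (W := E) (algebraMap Qb F) x₁ x₂ y₁ y₂
      rw [C6a_const_some]
      congr 1
      · rw [hs]
        exact (Affine.map_addX (W' := E) (algebraMap Qb F) x₁ x₂ _).symm
      · rw [hs]
        exact (Affine.map_addY (W' := E) (algebraMap Qb F) x₁ y₁ x₂ _).symm

/-- the constant points: a homomorphism -/
private noncomputable def C6a_cst (F : Type) [Field F] [Algebra Qb F] (E : WeierstrassCurve Qb) :
    E.toAffine.Point →+ (E⁄F).toAffine.Point :=
  AddMonoidHom.mk' (constPt F) (C6a_const_add F)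

private theorem C6a_cst_apply (F : Type) [Field F] [Algebra Qb F] {E : WeierstrassCurve Qb}
    (p : E.toAffine.Point) : C6a_cst F E p = constPt F p := rfl

private theorem C6a_const_lin (F : Type) [Field F] [Algebra Qb F] {r : ℕ}
    {W : Fin r → WeierstrassCurve Qb} (E : WeierstrassCurve Qb) (n : Fin r → ℤ) (p : Pts W) :
    (constPt F (∑ i, n i • trk (W i) E (p i)) : (E⁄F).toAffine.Point) =
      ∑ i, n i • tr (W i) E (constPt F (p i)) := by
  rw [← C6a_cst_apply, map_sum]
  refine Finset.sum_congr rfl fun i _ => ?_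
  rw [map_zsmul, C6a_cst_apply, constPt_tr]

theorem phi_lin (h0 : AllDim (fun _ => ⊥)) {r D : ℕ} {W : Fin r → WeierstrassCurve Qb}
    {V : Fin D → WeierstrassCurve Qb}
    (hV : ∀ a, (V a).IsElliptic) {Y : Prj Qb} {L K : Type} [Field L] [Algebra Qb L] [Field K]
    [Algebra Qb K] {l : L →ₐ[Qb] K} {ξ : ∀ a, ((V a)⁄K).toAffine.Point} (h : IsGen 0 l V ξ)
    (u : Pnt W Y L) (u₀ : Pts W) (hu : ∀ i, u.z i = constPt L (u₀ i))
    {Ω : Type} [Field Ω] [Algebra Qb Ω] [IsAlgClosed Ω]
    {η : ∀ a, ((V a)⁄Ω).toAffine.Point} (hη : Gn η) {M N : Matrix (Fin r) (Fin D) ℤ}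
    (hM : Mat V W M) (hN : Mat V W N) {E : WeierstrassCurve Qb} [E.IsElliptic] {z : Fin r → ℤ}
    (hz : ∀ i, W i ≠ E → z i = 0) (β : ∀ a, PH W (V a)) (γ : PH W E)
    (hβ : ∀ a (F : Type) [Field F] [Algebra Qb F] (P : ∀ i, ((W i)⁄F).toAffine.Point),
      (β a).f F P = lc (V a) (fun i => M i a) P)
    (hγ : ∀ (F : Type) [Field F] [Algebra Qb F] (P : ∀ i, ((W i)⁄F).toAffine.Point),
      γ.f F P = lc E z P) (g : Pts W) :
    (Phi Y β γ η (cyc (lin l ξ N g u))).1 = (M.transpose * N).det ^ 2 ∧
      IsOfFinAddOrder ((Phi Y β γ η (cyc (lin l ξ N g u))).2 -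
        (M.transpose * N).det • (∑ a, yv M N z a • tr (V a) E (η a) +
          constPt Ω (bdet E M z N (g + u₀)))) := by
  have hK : FunF Qb D K := (gen_all h).2.2
  obtain ⟨T, hT⟩ : ∃ T : Pnt W Y K, T = lin l ξ N g u := ⟨_, rfl⟩
  obtain ⟨c, hc⟩ : ∃ c : ∀ i, ((W i)⁄Ω).toAffine.Point, c = fun i => constPt Ω ((g + u₀) i) :=
    ⟨_, rfl⟩
  have hTz : ∀ i, T.z i = constPt K (g i) + (mx W N ξ i + constPt K (u₀ i)) := by
    intro i
    have h1 : T.z i = constPt K (g i) + ((∑ a, N i a • tr (V a) (W i) (ξ a)) + mp l (u.z i)) := by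
      rw [hT]
      rfl
    rw [h1, hu, mp_const, mx_apply]
  have hsz : ∀ s : K →ₐ[Qb] Ω, (fun i => mp s (T.z i)) = mx W N (fun a => mp s (ξ a)) + c := by
    intro s
    funext i
    rw [hTz, map_add, map_add, mp_const, mp_const, mp_mx, Pi.add_apply, hc]
    show _ = mx W N (fun a => mp s (ξ a)) i + constPt Ω (g i + u₀ i)
    rw [C6a_const_add]
    abel
  have hβs : ∀ (s : K →ₐ[Qb] Ω) (a : Fin D), mp s ((β a).f K T.z) =
      (mx V (M.transpose * N) (fun a => mp s (ξ a)) + mx V M.transpose c) a := by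
    intro s a
    have h1 := (β a).nat K Ω s T.z
    rw [← h1, hβ, hsz s, ← mx_mul hM hN, ← map_add]
    rfl
  obtain ⟨c', hc'⟩ : ∃ c' : Pts V, c' =
      fun a => -(∑ i, M i a • trk (W i) (V a) ((g + u₀) i)) := ⟨_, rfl⟩
  have hcc : ∀ a, (constPt Ω (c' a) : ((V a)⁄Ω).toAffine.Point) = -(mx V M.transpose c a) := by
    intro a
    rw [hc', ← C6a_cst_apply, map_neg, C6a_cst_apply, C6a_const_lin, mx_apply, hc]
    rfl
  have hη' : Gn (fun a => η a + constPt Ω (c' a)) := gn_add_const hη c'
  have hmem : ∀ s : K →ₐ[Qb] Ω, s ∈ Emb β η T.z ↔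
      mx V (M.transpose * N) (fun a => mp s (ξ a)) = fun a => η a + constPt Ω (c' a) := by
    intro s
    constructor
    · intro hs
      funext a
      have h1 : mp s ((β a).f K T.z) = η a := hs a
      rw [hβs, Pi.add_apply] at h1
      rw [hcc, ← h1]
      abel
    · intro hs a
      have h1 := congrFun hs a
      rw [hβs, Pi.add_apply, h1, hcc]
      abel
  have hfin : (Emb β η T.z).Finite := emb_finite hV β hη hK T.z
  obtain ⟨-, hcount⟩ := count_det h0 hV hη' (M.transpose * N) (mat_mul hM hN)
  have hcard : (hfin.toFinset.card : ℤ) = (M.transpose * N).det ^ 2 := by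
    rw [← hcount]
    have h1 : Nat.card (Emb β η T.z) = hfin.toFinset.card :=
      Nat.card_eq_card_finite_toFinset hfin
    rw [← h1]
    let e : Emb β η T.z → {x : ∀ a, ((V a)⁄Ω).toAffine.Point |
        mx V (M.transpose * N) x = fun a => η a + constPt Ω (c' a)} :=
      fun s => ⟨fun a => mp s.1 (ξ a), (hmem s.1).1 s.2⟩
    have he : Function.Bijective e := by
      constructor
      · intro s t hst
        have h2 : (fun a => mp s.1 (ξ a)) = fun a => mp t.1 (ξ a) := congrArg Subtype.val hst
        have h3 : Gn (fun a => mp s.1 (ξ a)) := gn_image (by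
          rw [(hmem s.1).1 s.2]
          exact hη')
        obtain ⟨s₀, -, h4⟩ := emb_gen hV h h3
        have h5 := h4 s.1 fun a => rfl
        have h6 := h4 t.1 fun a => (congrFun h2 a).symm
        exact Subtype.ext (h5.trans h6.symm)
      · rintro ⟨x, hx⟩
        have h3 : Gn x := gn_image (by
          rw [show mx V (M.transpose * N) x = fun a => η a + constPt Ω (c' a) from hx]
          exact hη')
        obtain ⟨s, hs, -⟩ := emb_gen hV h h3
        have h4 : (fun a => mp s (ξ a)) = x := funext hs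
        refine ⟨⟨s, (hmem s).2 ?_⟩, ?_⟩
        · rw [h4]
          exact hx
        · exact Subtype.ext h4
    rw [Nat.card_eq_of_bijective e he]
  obtain ⟨R, hR⟩ : ∃ R : (E⁄Ω).toAffine.Point, R = ∑ a, yv M N z a • tr (V a) E (η a) +
          constPt Ω (bdet E M z N (g + u₀)) := ⟨_, rfl⟩
  have hval : ∀ s ∈ hfin.toFinset, (M.transpose * N).det • mp s (γ.f K T.z) = R := by
    intro s hs
    have hs' : s ∈ Emb β η T.z := hfin.mem_toFinset.1 hs
    have h1 := γ.nat K Ω s T.z
    have h2 : mx V (M.transpose * N) (fun a => mp s (ξ a)) + mx V M.transpose c = η := by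
      funext a
      rw [← hβs]
      exact hs' a
    rw [← h1, hγ, hsz s, lc_value hM hN hz (fun a => mp s (ξ a)) η c h2, hR, bdet, C6a_const_lin,
      hc]
  have hphi : Phi Y β γ η (cyc T) =
      ∑ s ∈ hfin.toFinset, ((1 : ℤ), mp s (γ.f K T.z)) := by
    rw [phi_cyc hV β γ hη hK T, finsum_mem_eq_finite_toFinset_sum _ hfin]
  rw [← hT, ← hR, hphi]
  constructor
  · rw [Prod.fst_sum, ← hcard]
    simp
  · rw [Prod.snd_sum]
    by_cases hd : (M.transpose * N).det = 0
    · have h1 : hfin.toFinset = ∅ := by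
        rw [hd] at hcard
        exact Finset.card_eq_zero.1 (by exact_mod_cast hcard)
      rw [h1, Finset.sum_empty, hd, zero_smul, sub_zero]
      exact IsOfFinAddOrder.zero
    · rw [isOfFinAddOrder_iff_zsmul_eq_zero]
      refine ⟨(M.transpose * N).det, hd, ?_⟩
      have h1 : (M.transpose * N).det • ∑ s ∈ hfin.toFinset, mp s (γ.f K T.z) =
          (M.transpose * N).det ^ 2 • R := by
        rw [Finset.smul_sum, Finset.sum_congr rfl hval, Finset.sum_const, ← hcard,
          natCast_zsmul]
      rw [smul_sub, h1, smul_smul, sq, sub_self]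

private theorem C6_trk_add {k : Type} [Field k] {V W : WeierstrassCurve k}
    (p q : V.toAffine.Point) : trk V W (p + q) = trk V W p + trk V W q := by
  by_cases h : V = W
  · subst h
    rw [trk_self, trk_self, trk_self]
  · rw [trk_ne h, trk_ne h, trk_ne h, add_zero]

private theorem C6_bdet_add {k : Type} [Field k] {r D : ℕ} {W : Fin r → WeierstrassCurve k}
    (E : WeierstrassCurve k) (M : Matrix (Fin r) (Fin D) ℤ) (z : Fin r → ℤ)
    (N : Matrix (Fin r) (Fin D) ℤ) (g g' : Pts W) :
    bdet E M z N (g + g') = bdet E M z N g + bdet E M z N g' := by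
  unfold bdet
  rw [← Finset.sum_add_distrib]
  refine Finset.sum_congr rfl fun i _ => ?_
  have h1 : (g + g') i = g i + g' i := rfl
  rw [h1, C6_trk_add, smul_add]

private theorem C6_cls {k : Type} [Field k] {r D : ℕ} {W : Fin r → WeierstrassCurve k}
    {V : Fin D → WeierstrassCurve k} {Y : Prj k} {L K : Type} [Field L] [Algebra k L] [Field K]
    [Algebra k K] (u : Pnt W Y L) (l : L →ₐ[k] K) (ξ : ∀ a, ((V a)⁄K).toAffine.Point)
    {J : Type} [Fintype J] (m : J → ℤ) (N : J → Matrix (Fin r) (Fin D) ℤ) (g : J → Pts W)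
    (n : ℕ) (ht : IsOfFinAddOrder (∑ j, m j • cl l n ξ u (N j) (g j))) :
    IsOfFinAddOrder (QuotientAddGroup.mk (∑ j, m j • cyc (lin l ξ (N j) (g j) u)) :
      CH W Y n) := by
  have h1 : (QuotientAddGroup.mk (∑ j, m j • cyc (lin l ξ (N j) (g j) u)) : CH W Y n) =
      ∑ j, m j • cl l n ξ u (N j) (g j) := by
    have h2 := map_sum (QuotientAddGroup.mk' (RatEq W Y n))
      (fun j => m j • cyc (lin l ξ (N j) (g j) u)) Finset.univ
    refine h2.trans (Finset.sum_congr rfl fun j _ => ?_)
    rw [map_zsmul]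
    rfl
  rw [h1]
  exact ht

private theorem C6_int {x : ℤ} (h : IsOfFinAddOrder x) : x = 0 := by
  obtain ⟨n, hn, h1⟩ := isOfFinAddOrder_iff_nsmul_eq_zero.1 h
  rw [nsmul_eq_mul] at h1
  rcases mul_eq_zero.1 h1 with h2 | h2
  · exfalso
    have h3 : n = 0 := by exact_mod_cast h2
    omega
  · exact h2

/-- **The converse.** -/
theorem converse (h0 : AllDim (fun _ => ⊥)) {r : ℕ} {W : Fin r → WeierstrassCurve Qb}
    (hW : ∀ i, (W i).IsElliptic) {D : ℕ} {V : Fin D → WeierstrassCurve Qb}
    (hV : ∀ a, (V a).IsElliptic) {Y : Prj Qb} {L : Type} [Field L] [Algebra Qb L]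
    (u : Pnt W Y L) {K : Type} [Field K] [Algebra Qb K] (l : L →ₐ[Qb] K)
    (ξ : ∀ a, ((V a)⁄K).toAffine.Point) (h : IsGen 0 l V ξ) {J : Type} [Fintype J] (m : J → ℤ)
    (N : J → Matrix (Fin r) (Fin D) ℤ) (g : J → Pts W) (hN : ∀ j, Mat V W (N j))
    (ht : IsOfFinAddOrder (∑ j, m j • cl l (0 + D) ξ u (N j) (g j))) :
    (∀ M, Mat V W M → ∑ j, m j * (M.transpose * N j).det ^ 2 = 0) ∧
      ∀ M, Mat V W M → ∀ (E : WeierstrassCurve Qb) (z : Fin r → ℤ), (∀ i, W i ≠ E → z i = 0) →
        IsOfFinAddOrder (∑ j, (m j * (M.transpose * N j).det) • bdet E M z (N j) (g j)) := by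
  obtain ⟨hG, hT, hF⟩ := gen_all h
  have hhV : ∀ a, (V a).IsElliptic := hV
  let Ω : Type := AlgebraicClosure K
  let ι : K →ₐ[Qb] Ω := IsScalarTower.toAlgHom Qb K Ω
  let η : ∀ a, ((V a)⁄Ω).toAffine.Point := fun a => mp ι (ξ a)
  have hη : Gn η := (gn_map ι ξ).2 hG
  choose u₀ hu using fun i => const_L h.dimL (u.z i)
  have hcls : IsOfFinAddOrder (QuotientAddGroup.mk
      (∑ j, m j • cyc (lin l ξ (N j) (g j) u)) : CH W Y D) := by
    have e : ∀ n, n = D → IsOfFinAddOrder (∑ j, m j • cl l n ξ u (N j) (g j)) →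
        IsOfFinAddOrder (QuotientAddGroup.mk
          (∑ j, m j • cyc (lin l ξ (N j) (g j) u)) : CH W Y D) := by
      intro n hn h1
      subst hn
      exact C6_cls u l ξ m N g _ h1
    exact e (0 + D) (zero_add D) ht
  have main : ∀ M, Mat V W M → ∀ (E : WeierstrassCurve Qb), E.IsElliptic →
      ∀ (z : Fin r → ℤ), (∀ i, W i ≠ E → z i = 0) →
      ∑ j, m j * (M.transpose * N j).det ^ 2 = 0 ∧
      IsOfFinAddOrder (∑ j, m j • ((M.transpose * N j).det •
        (∑ a, yv M (N j) z a • tr (V a) E (η a) +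
          constPt Ω (bdet E M z (N j) (g j + u₀))))) := by
    intro M hM E hE z hz
    have hex : ∀ a, ∃ β : PH W (V a), ∀ (F : Type) [Field F] [Algebra Qb F]
        (P : ∀ i, ((W i)⁄F).toAffine.Point), β.f F P = lc (V a) (fun i => M i a) P := fun a => by
      have := hhV a
      exact exists_lc W (V a) (fun i => M i a)
    choose β hβ using hex
    obtain ⟨γ, hγ⟩ := exists_lc W E z
    have h1 := phi_torsion hW hV hE β γ hη hcls
    rw [map_sum] at h1
    have h2 := fun j => phi_lin h0 hV h u u₀ hu hη hM (hN j) hz β γ hβ hγ (g j)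
    refine ⟨?_, ?_⟩
    · have h3 := (AddMonoidHom.fst ℤ (E⁄Ω).toAffine.Point).isOfFinAddOrder h1
      have h4 := C6_int h3
      rw [map_sum] at h4
      rw [← h4]
      refine Finset.sum_congr rfl fun j _ => ?_
      rw [map_zsmul, AddMonoidHom.coe_fst, Prod.smul_fst, (h2 j).1, smul_eq_mul]
    · have h3 := (AddMonoidHom.snd ℤ (E⁄Ω).toAffine.Point).isOfFinAddOrder h1
      rw [map_sum] at h3
      set T := AddCommGroup.torsion (E⁄Ω).toAffine.Point with hTdef
      have h3' : ∑ j, (AddMonoidHom.snd ℤ (E⁄Ω).toAffine.Point)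
          (Phi Y β γ η (m j • cyc (lin l ξ (N j) (g j) u))) ∈ T := h3
      have h4 : ∑ j, m j • ((Phi Y β γ η (cyc (lin l ξ (N j) (g j) u))).2 -
          (M.transpose * N j).det • (∑ a, yv M (N j) z a • tr (V a) E (η a) +
          constPt Ω (bdet E M z (N j) (g j + u₀)))) ∈ T :=
        AddSubgroup.sum_mem _ fun j _ => AddSubgroup.zsmul_mem _ (h2 j).2 _
      have h5 := AddSubgroup.sub_mem _ h3' h4
      have h6 : ∑ j, (AddMonoidHom.snd ℤ (E⁄Ω).toAffine.Point)
          (Phi Y β γ η (m j • cyc (lin l ξ (N j) (g j) u))) -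
          ∑ j, m j • ((Phi Y β γ η (cyc (lin l ξ (N j) (g j) u))).2 -
          (M.transpose * N j).det • (∑ a, yv M (N j) z a • tr (V a) E (η a) +
          constPt Ω (bdet E M z (N j) (g j + u₀)))) =
          ∑ j, m j • ((M.transpose * N j).det • (∑ a, yv M (N j) z a • tr (V a) E (η a) +
          constPt Ω (bdet E M z (N j) (g j + u₀)))) := by
        rw [← Finset.sum_sub_distrib]
        refine Finset.sum_congr rfl fun j _ => ?_
        rw [map_zsmul, AddMonoidHom.coe_snd, Prod.smul_snd, smul_sub]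
        abel
      rw [h6] at h5
      exact h5
  have hhom : ∀ M, Mat V W M → ∑ j, m j * (M.transpose * N j).det ^ 2 = 0 := fun M hM =>
    (main M hM (WeierstrassCurve.ofJ 0) inferInstance (fun _ => 0) fun _ _ => rfl).1
  refine ⟨hhom, ?_⟩
  intro M hM E z hz
  by_cases hE : ∃ i, W i = E
  · obtain ⟨i₀, hi₀⟩ := hE
    have hEe : E.IsElliptic := by rw [← hi₀]; exact hW i₀
    have h1 := (main M hM E hEe z hz).2
    have h2 : ∑ j, m j • ((M.transpose * N j).det •
        (∑ a, yv M (N j) z a • tr (V a) E (η a) +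
          constPt Ω (bdet E M z (N j) (g j + u₀)))) =
        constHom Ω E (∑ j, (m j * (M.transpose * N j).det) • bdet E M z (N j) (g j + u₀)) := by
      have h3 : ∑ j, m j • ((M.transpose * N j).det •
          ∑ a, yv M (N j) z a • tr (V a) E (η a)) = 0 := by
        have h4 : ∀ j, m j • ((M.transpose * N j).det •
            ∑ a, yv M (N j) z a • tr (V a) E (η a)) =
            ∑ a, (m j * ((M.transpose * N j).det * yv M (N j) z a)) • tr (V a) E (η a) := by
          intro j
          rw [Finset.smul_sum, Finset.smul_sum]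
          refine Finset.sum_congr rfl fun a _ => ?_
          rw [mul_smul, mul_smul]
        rw [Finset.sum_congr rfl fun j _ => h4 j, Finset.sum_comm]
        refine Finset.sum_eq_zero fun a _ => ?_
        rw [← Finset.sum_smul]
        by_cases ha : V a = E
        · rw [deriv_hom m N hhom hM hz ha, zero_smul]
        · rw [tr_ne ha, smul_zero]
      rw [map_sum]
      have h5 : ∀ j, m j • ((M.transpose * N j).det •
          (∑ a, yv M (N j) z a • tr (V a) E (η a) +
            constPt Ω (bdet E M z (N j) (g j + u₀)))) =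
          m j • ((M.transpose * N j).det • ∑ a, yv M (N j) z a • tr (V a) E (η a)) +
          constHom Ω E ((m j * (M.transpose * N j).det) • bdet E M z (N j) (g j + u₀)) := by
        intro j
        rw [map_zsmul, constHom_apply, mul_smul, smul_add, smul_add]
      rw [Finset.sum_congr rfl fun j _ => h5 j, Finset.sum_add_distrib, h3, zero_add]
    rw [h2] at h1
    have h6 := (Function.Injective.isOfFinAddOrder_iff
      (LibBH2.constPt_injective Ω E)).1 h1
    have h7 : ∑ j, (m j * (M.transpose * N j).det) • bdet E M z (N j) u₀ = 0 := by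
      have h8 : ∀ j, (m j * (M.transpose * N j).det) • bdet E M z (N j) u₀ =
          ∑ i, (m j * (M.transpose * N j).det *
            ((bd M z).transpose * bd (N j) (Pi.single i 1)).det) • trk (W i) E (u₀ i) := by
        intro j
        unfold bdet
        rw [Finset.smul_sum]
        refine Finset.sum_congr rfl fun i _ => ?_
        rw [← mul_smul]
      rw [Finset.sum_congr rfl fun j _ => h8 j, Finset.sum_comm]
      refine Finset.sum_eq_zero fun i _ => ?_
      rw [← Finset.sum_smul]
      by_cases hi : W i = E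
      · have h9 : ∀ j, m j * (M.transpose * N j).det *
            ((bd M z).transpose * bd (N j) (Pi.single i 1)).det =
            (m j * (M.transpose * N j).det ^ 2) * z i -
              ∑ a, (m j * ((M.transpose * N j).det * yv M (N j) z a)) * M i a := by
          intro j
          have e1 : dotProduct z (Pi.single i 1) = z i := by
            rw [dotProduct_single, mul_one]
          have e2 : Matrix.mulVec M.transpose (Pi.single i 1) = fun a => M i a := by
            funext a
            rw [Matrix.mulVec_single_one]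
            rfl
          rw [det_bordered, e1, e2]
          have e3 : dotProduct (yv M (N j) z) (fun a => M i a) =
              ∑ a, yv M (N j) z a * M i a := rfl
          rw [e3, mul_sub, Finset.mul_sum]
          congr 1
          · ring
          · refine Finset.sum_congr rfl fun a _ => ?_
            ring
        rw [Finset.sum_congr rfl fun j _ => h9 j, Finset.sum_sub_distrib, ← Finset.sum_mul,
          hhom M hM, zero_mul, zero_sub, Finset.sum_comm]
        have h10 : ∑ a, ∑ j, (m j * ((M.transpose * N j).det * yv M (N j) z a)) * M i a = 0 := by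
          refine Finset.sum_eq_zero fun a _ => ?_
          rw [← Finset.sum_mul]
          by_cases ha : V a = E
          · rw [deriv_hom m N hhom hM hz ha, zero_mul]
          · rw [hM i a (by rw [hi]; exact ha), mul_zero]
        rw [h10, neg_zero, zero_smul]
      · rw [trk_ne hi, smul_zero]
    have h11 : ∑ j, (m j * (M.transpose * N j).det) • bdet E M z (N j) (g j + u₀) =
        ∑ j, (m j * (M.transpose * N j).det) • bdet E M z (N j) (g j) := by
      have h12 : ∀ j, (m j * (M.transpose * N j).det) • bdet E M z (N j) (g j + u₀) =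
          (m j * (M.transpose * N j).det) • bdet E M z (N j) (g j) +
          (m j * (M.transpose * N j).det) • bdet E M z (N j) u₀ := by
        intro j
        rw [C6_bdet_add, smul_add]
      rw [Finset.sum_congr rfl fun j _ => h12 j, Finset.sum_add_distrib, h7, add_zero]
    rw [← h11]
    exact h6
  · have h1 : ∑ j, (m j * (M.transpose * N j).det) • bdet E M z (N j) (g j) = 0 := by
      refine Finset.sum_eq_zero fun j _ => ?_
      have h2 : bdet E M z (N j) (g j) = 0 := by
        unfold bdet
        refine Finset.sum_eq_zero fun i _ => ?_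
        rw [trk_ne (fun hi => hE ⟨i, hi⟩), smul_zero]
      rw [h2, smul_zero]
    rw [h1]
    exact IsOfFinAddOrder.zero

end Pool.Agent.LibCV66
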