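import Pool.Agent.LibCV66.PDefs
import Pool.Agent.LibAC34.Stmt
import Pool.Agent.LibAC34.B1

/-!
Homomorphisms given by integral matrices.
-/

open WeierstrassCurve Pool.Agent.LibBH2 Pool.Agent.LibIG50 Pool.Agent.LibCHd Pool.Agent.LibAC34
open scoped Classical

namespace Pool.Agent.LibCV66

variable {k : Type} [Field k] {r D : ℕ}

/-- the homomorphism from `V 1 × ... × V D` to `W 1 × ... × W r` defined by an integral matrix -/
noncomputable def mx {V : Fin D → WeierstrassCurve k} (W : Fin r → WeierstrassCurve k) {F : Type}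
    [Field F] [Algebra k F] (N : Matrix (Fin r) (Fin D) ℤ) :
    (∀ a, ((V a)⁄F).toAffine.Point) →+ ∀ i, ((W i)⁄F).toAffine.Point where
  toFun x i := ∑ a, N i a • tr (V a) (W i) (x a)
  map_zero' := by
    funext i
    simp [tr_zero]
  map_add' x y := by
    funext i
    simp [tr_add, Finset.sum_add_distrib]

theorem mx_apply {V : Fin D → WeierstrassCurve k} (W : Fin r → WeierstrassCurve k) {F : Type}
    [Field F] [Algebra k F] (N : Matrix (Fin r) (Fin D) ℤ) (x : ∀ a, ((V a)⁄F).toAffine.Point)
    (i : Fin r) : mx W N x i = ∑ a, N i a • tr (V a) (W i) (x a) := rfl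

/-- the homomorphism from `W 1 × ... × W r` to `E` with the integral coefficients `z i` -/
noncomputable def lc {W : Fin r → WeierstrassCurve k} (E : WeierstrassCurve k) {F : Type}
    [Field F] [Algebra k F] (z : Fin r → ℤ) :
    (∀ i, ((W i)⁄F).toAffine.Point) →+ (E⁄F).toAffine.Point where
  toFun x := ∑ i, z i • tr (W i) E (x i)
  map_zero' := by simp [tr_zero]
  map_add' x y := by simp [tr_add, Finset.sum_add_distrib]

theorem lc_apply {W : Fin r → WeierstrassCurve k} (E : WeierstrassCurve k) {F : Type}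
    [Field F] [Algebra k F] (z : Fin r → ℤ) (x : ∀ i, ((W i)⁄F).toAffine.Point) :
    lc E z x = ∑ i, z i • tr (W i) E (x i) := rfl

end Pool.Agent.LibCV66
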