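import Pool.Agent.LibCHd.R6
import Pool.Agent.LibCHd.B4
import Pool.Agent.LibCHd.B6
import Pool.Agent.LibAC34.A1

/-!
Geometric places of a function field and the value of a point at a geometric place: definitions.
-/

open WeierstrassCurve Pool.Agent.LibBH2 Pool.Agent.LibIG50 Pool.Agent.LibCHd Pool.Agent.LibAC34
open scoped Classical

namespace Pool.Agent.LibCV66

variable {k : Type} [Field k]

theorem mp_comp {A B C : Type} [Field A] [Algebra k A] [Field B] [Algebra k B] [Field C]
    [Algebra k C] {E : WeierstrassCurve k} (f : A →ₐ[k] B) (g : B →ₐ[k] C)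
    (P : (E⁄A).toAffine.Point) : mp g (mp f P) = mp (g.comp f) P := by
  match P with
  | .zero =>
    have h0 : (.zero : (E⁄A).toAffine.Point) = 0 := rfl
    rw [h0, mp_zero, mp_zero, mp_zero]
  | .some x y h =>
    obtain ⟨h1, e1⟩ := mp_some f x y h
    obtain ⟨h2, e2⟩ := mp_some g (f x) (f y) h1
    obtain ⟨h3, e3⟩ := mp_some (g.comp f) x y h
    rw [e1, e2, e3]
    rfl

theorem mp_injective {A B : Type} [Field A] [Algebra k A] [Field B] [Algebra k B]
    {E : WeierstrassCurve k} (f : A →ₐ[k] B) :
    Function.Injective (mp f : (E⁄A).toAffine.Point →+ (E⁄B).toAffine.Point) := by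
  rw [injective_iff_map_eq_zero]
  intro P hP
  match P, hP with
  | .zero, _ => rfl
  | .some x y h, hP =>
    obtain ⟨h1, e1⟩ := mp_some f x y h
    rw [e1] at hP
    exact absurd hP (by intro h''; cases h'')

section places

variable {K : Type} [Field K] [Algebra k K]

/-- the specialisation of the points of a curve at a place -/
noncomputable def rd (v : Place k K) (E : WeierstrassCurve k) [E.IsElliptic] :
    (E⁄K).toAffine.Point →+ (E⁄(RF v)).toAffine.Point where
  toFun T := (SpR_exists v T).choose
  map_zero' := SpR_unique (SpR_exists v 0).choose_spec rfl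
  map_add' T S := SpR_unique (SpR_exists v (T + S)).choose_spec
    (SpR_add (SpR_exists v T).choose_spec (SpR_exists v S).choose_spec)

theorem rd_spec (v : Place k K) {E : WeierstrassCurve k} [E.IsElliptic]
    (T : (E⁄K).toAffine.Point) : SpR v T (rd v E T) :=
  (SpR_exists v T).choose_spec

theorem rd_eq {v : Place k K} {E : WeierstrassCurve k} [E.IsElliptic]
    {T : (E⁄K).toAffine.Point} {p : (E⁄(RF v)).toAffine.Point} (h : SpR v T p) :
    rd v E T = p :=
  SpR_unique (rd_spec v T) h

/-- A geometric place of the field `K` over `k`, with values in the field `Ω`: a place `v` together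
with an embedding of its residue field in `Ω` over `k`. -/
def Geo (k K Ω : Type) [Field k] [Field K] [Algebra k K] [Field Ω] [Algebra k Ω] : Type :=
  (v : Place k K) × (RF v →ₐ[k] Ω)

variable {Ω : Type} [Field Ω] [Algebra k Ω]

/-- the value of a point at a geometric place -/
noncomputable def ev (p : Geo k K Ω) {E : WeierstrassCurve k} [E.IsElliptic] :
    (E⁄K).toAffine.Point →+ (E⁄Ω).toAffine.Point :=
  (mp p.2).comp (rd p.1 E)

theorem ev_apply (p : Geo k K Ω) {E : WeierstrassCurve k} [E.IsElliptic]
    (T : (E⁄K).toAffine.Point) : ev p T = mp p.2 (rd p.1 E T) := rfl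

/-- the value of a function at a geometric place: `f` is regular with the value `c` -/
def Vl (p : Geo k K Ω) (f : K) (c : Ω) : Prop := ∃ a : RF p.1, Red p.1 f a ∧ p.2 a = c

/-- `q` is the restriction of the geometric place `p` to the subfield `i : H → K` -/
def Res {H : Type} [Field H] [Algebra k H] (i : H →ₐ[k] K) (p : Geo k K Ω) (q : Geo k H Ω) :
    Prop :=
  ∀ f c, Vl q f c → Vl p (i f) c

/-- the sum over the geometric places `p` in the set `S` of the pairs `(1, z(p))` with the weights
`ord_p g` -/
noncomputable def tot (S : Set (Geo k K Ω)) (g : K) {E : WeierstrassCurve k} [E.IsElliptic]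
    (z : (E⁄K).toAffine.Point) : ℤ × (E⁄Ω).toAffine.Point :=
  ∑ᶠ p ∈ S, p.1.ord g • ((1 : ℤ), ev p z)

end places

end Pool.Agent.LibCV66
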