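import Pool.Agent.LibCV66.Defs

/-!
[CV66 J1] geometric places are determined by their values; restriction to subfields.

Plan. `Vl p f c` says: `f ∈ VR p.1` and `p.2` of its residue is `c` (use `Red`, `red_iff`, `Red.unique`,
`exists_red`, `exists_rep`, `red_zero_iff` of LibCHd/Api and R6).
`res_ord`: let `Res i p q`. If `q.1.Reg f` then `p.1.Reg (i f)` (take the value of `f`); if `q.1.Zer f`
then `Vl q f 0`, so `Vl p (i f) 0` and `p.1.Zer (i f)` (`p.2` is injective). Conversely, if `f ≠ 0` is not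
regular at `q.1` then `f⁻¹` is a zero of `q.1`, so `i f⁻¹` is a zero of `p.1` and `i f` is not regular. So
`p.1.Reg (i f) ↔ q.1.Reg f` and `q.1.ord f = 0 → p.1.ord (i f) = 0`; with a uniformizer `t` of `q.1` and
`e = p.1.ord (i t) > 0` write `f = t ^ n * f'` with `q.1.ord f' = 0` (`Place.ord_zpow`).
`geo_ext`: apply `res_ord` to the identity: `p.1.ord f = e * q.1.ord f`, and `e = 1` because both are
normalised (`exists_uniformizer`), so the places are equal (`Place.ext'`); then `subst` (write the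
geometric places as pairs) and compare the embeddings on all residues (`exists_rep`).
`ev_res`: for a point `(x, y)` with `rd q.1 = (x₀, y₀)` the values of `x`, `y` at `q` are `q.2 x₀`,
`q.2 y₀`; the values of `i x`, `i y` at `p` are the same; for `rd q.1 = 0` the order of `x` is negative at
`q.1`, so that of `i x` at `p.1` is. (`rd_eq`, `SpR`.)
`exists_res`: `exists_restrict` (LibCHd/B4) gives the place `q.1` and `e`; the residue map
`RF q.1 → RF p.1` is induced by `VR q.1 → VR p.1` (`IsLocalRing.ResidueField.map` or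
`Ideal.Quotient.lift`), compose with `p.2`.
`exists_ord_ne`: if `p.1.ord (i f) = 0` for all `f ≠ 0` then every element algebraic over `i H` has
order `≤ 0` and `≥ 0`: for `x` of negative order the leading term in
`x ^ n + i a_(n-1) x ^ (n-1) + ... = 0` has strictly smallest order, contradiction (this is
`Place.reg_of_...` for monic equations: valuation rings are integrally closed); apply it to `x` and `x⁻¹`,
`x` a uniformizer.
-/

open WeierstrassCurve Pool.Agent.LibBH2 Pool.Agent.LibIG50 Pool.Agent.LibCHd Pool.Agent.LibAC34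
open scoped Classical

namespace Pool.Agent.LibCV66

variable {k : Type} [Field k] {H K Ω : Type} [Field H] [Algebra k H] [Field K] [Algebra k K]
  [Field Ω] [Algebra k Ω]

theorem vl_unique {p : Geo k K Ω} {f : K} {c d : Ω} (h : Vl p f c) (h' : Vl p f d) : c = d := by
  obtain ⟨a, ha, rfl⟩ := h
  obtain ⟨b, hb, rfl⟩ := h'
  rw [ha.unique hb]

theorem exists_vl (p : Geo k K Ω) {f : K} (h : p.1.Reg f) : ∃ c, Vl p f c := by
  obtain ⟨c, hc⟩ := exists_red h
  exact ⟨p.2 c, c, hc, rfl⟩

theorem vl_reg {p : Geo k K Ω} {f : K} {c : Ω} (h : Vl p f c) : p.1.Reg f := by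
  obtain ⟨a, ha, -⟩ := h
  exact ha.reg

private theorem J1_zer {p : Geo k K Ω} {f : K} : Vl p f 0 ↔ p.1.Zer f := by
  constructor
  · rintro ⟨a, ha, h⟩
    have h0 : a = 0 := (map_eq_zero p.2).1 h
    rw [h0] at ha
    exact red_zero_iff.1 ha
  · intro h
    exact ⟨0, red_zero_iff.2 h, map_zero _⟩

theorem res_ord {i : H →ₐ[k] K} {p : Geo k K Ω} {q : Geo k H Ω} (h : Res i p q) :
    ∃ e : ℕ, 0 < e ∧ ∀ f, p.1.ord (i f) = e * q.1.ord f := by
  have hi : ∀ f : H, f ≠ 0 → i f ≠ 0 := fun f hf => (map_ne_zero i).2 hf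
  have hA : ∀ f, q.1.Reg f → p.1.Reg (i f) := by
    intro f hf
    obtain ⟨c, hc⟩ := exists_vl q hf
    exact vl_reg (h f c hc)
  have hB : ∀ f, q.1.Zer f → p.1.Zer (i f) := fun f hf => J1_zer.1 (h f 0 (J1_zer.2 hf))
  have hD : ∀ f, f ≠ 0 → q.1.ord f = 0 → p.1.ord (i f) = 0 := by
    intro f hf h0
    have h1 := (hA f (Or.inr h0.ge)).resolve_left (hi f hf)
    have h2 := (hA f⁻¹ (Or.inr (by rw [q.1.ord_inv, h0, neg_zero]))).resolve_left
      (hi _ (inv_ne_zero hf))
    rw [map_inv₀, p.1.ord_inv] at h2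
    omega
  obtain ⟨t, ht⟩ := q.1.exists_uniformizer
  have ht0 : t ≠ 0 := by
    rintro rfl
    rw [q.1.ord_zero] at ht
    exact zero_ne_one ht
  have he : 0 < p.1.ord (i t) := (hB t (Or.inr (by rw [ht]; exact one_pos))).resolve_left (hi t ht0)
  refine ⟨(p.1.ord (i t)).toNat, by omega, fun f => ?_⟩
  have he' : (((p.1.ord (i t)).toNat : ℕ) : ℤ) = p.1.ord (i t) := Int.toNat_of_nonneg he.le
  rw [he']
  by_cases hf : f = 0
  · rw [hf, map_zero, p.1.ord_zero, q.1.ord_zero, mul_zero]
  have h1 : t ^ (-(q.1.ord f)) ≠ 0 := zpow_ne_zero _ ht0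
  have h2 := hD (f * t ^ (-(q.1.ord f))) (mul_ne_zero hf h1) (by
    rw [q.1.ord_mul _ _ hf h1, q.1.ord_zpow, ht]
    ring)
  rw [map_mul, map_zpow₀, p.1.ord_mul _ _ (hi f hf) (zpow_ne_zero _ (hi t ht0)),
    p.1.ord_zpow] at h2
  linarith

/-- a value at `p` of an element of `H` is a value at the restriction `q` of `p` -/
theorem res_vl {i : H →ₐ[k] K} {p : Geo k K Ω} {q : Geo k H Ω} (h : Res i p q) {f : H} {c : Ω}
    (hf : Vl p (i f) c) : Vl q f c := by
  obtain ⟨e, he, ho⟩ := res_ord h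
  have h1 : q.1.Reg f := by
    by_cases h0 : f = 0
    · exact Or.inl h0
    right
    have h2 := (vl_reg hf).resolve_left ((map_ne_zero i).2 h0)
    rw [ho] at h2
    have he' : (0 : ℤ) < e := by exact_mod_cast he
    exact nonneg_of_mul_nonneg_right h2 he'
  obtain ⟨d, hd⟩ := exists_vl q h1
  rwa [vl_unique hf (h f d hd)]

theorem geo_ext {p q : Geo k K Ω} (h : ∀ f c, Vl q f c → Vl p f c) : p = q := by
  have h0 : Res (AlgHom.id k K) p q := h
  obtain ⟨e, he, ho⟩ := res_ord h0
  obtain ⟨v, φ⟩ := p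
  obtain ⟨w, ψ⟩ := q
  have hvw : v = w := by
    refine Place.ext' fun f => ?_
    obtain ⟨t, ht⟩ := v.exists_uniformizer
    have h1 : v.ord t = e * w.ord t := ho t
    rw [ht] at h1
    have h2 : (e : ℤ) = 1 := by
      have h3 : (e : ℤ) ∣ 1 := ⟨_, h1⟩
      exact Int.eq_one_of_dvd_one (by positivity) h3
    have h3 : v.ord f = e * w.ord f := ho f
    rw [h3, h2, one_mul]
  subst hvw
  have hφ : φ = ψ := by
    refine AlgHom.ext fun c => ?_
    obtain ⟨f, hf⟩ := exists_rep c
    obtain ⟨a, ha, h1⟩ := h f (ψ c) ⟨c, hf, rfl⟩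
    have h2 : a = c := Red.unique ha hf
    rw [h2] at h1
    exact h1
  rw [hφ]

theorem res_unique {i : H →ₐ[k] K} {p : Geo k K Ω} {q q' : Geo k H Ω} (h : Res i p q)
    (h' : Res i p q') : q = q' :=
  geo_ext fun f c hf => res_vl h (h' f c hf)

theorem ev_res {i : H →ₐ[k] K} {p : Geo k K Ω} {q : Geo k H Ω} (h : Res i p q)
    {E : WeierstrassCurve k} [E.IsElliptic] (z : (E⁄H).toAffine.Point) :
    ev p (mp i z) = ev q z := by
  obtain ⟨e, he, ho⟩ := res_ord h
  match z with
  | .zero =>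
    have h0 : (.zero : (E⁄H).toAffine.Point) = 0 := rfl
    rw [h0, map_zero, map_zero, map_zero]
  | .some x y hxy =>
    obtain ⟨h1, e1⟩ := mp_some i x y hxy
    rw [e1, ev_apply, ev_apply]
    have hq := rd_spec q.1 (.some x y hxy : (E⁄H).toAffine.Point)
    have hp := rd_spec p.1 (.some (i x) (i y) h1 : (E⁄K).toAffine.Point)
    obtain ⟨P, hP⟩ : ∃ P, P = rd p.1 E (.some (i x) (i y) h1 : (E⁄K).toAffine.Point) := ⟨_, rfl⟩
    obtain ⟨Q, hQ⟩ : ∃ Q, Q = rd q.1 E (.some x y hxy : (E⁄H).toAffine.Point) := ⟨_, rfl⟩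
    rw [← hP] at hp ⊢
    rw [← hQ] at hq ⊢
    match P, Q, hp, hq with
    | .zero, .zero, _, _ =>
      have h2 : (.zero : (E⁄(RF p.1)).toAffine.Point) = 0 := rfl
      have h3 : (.zero : (E⁄(RF q.1)).toAffine.Point) = 0 := rfl
      rw [h2, h3, map_zero, map_zero]
    | .zero, .some x₀ y₀ h₀, hp, hq =>
      exfalso
      have h2 : p.1.ord (i x) < 0 := hp
      have h3 : Red q.1 x x₀ := hq.1
      have h4 : p.1.Reg (i x) := vl_reg (h x (q.2 x₀) ⟨x₀, h3, rfl⟩)
      rcases h4 with h4 | h4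
      · rw [h4, p.1.ord_zero] at h2
        exact lt_irrefl _ h2
      · omega
    | .some a b hab, .zero, hp, hq =>
      exfalso
      have h2 : q.1.ord x < 0 := hq
      have h3 : Red p.1 (i x) a := hp.1
      have h4 : p.1.ord (i x) < 0 := by
        rw [ho]
        have he' : (0 : ℤ) < e := by exact_mod_cast he
        exact mul_neg_of_pos_of_neg he' h2
      rcases h3.reg with h5 | h5
      · rw [h5, p.1.ord_zero] at h4
        exact lt_irrefl _ h4
      · omega
    | .some a b hab, .some x₀ y₀ h₀, hp, hq =>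
      have hx : p.2 a = q.2 x₀ :=
        vl_unique (p := p) ⟨a, hp.1, rfl⟩ (h x (q.2 x₀) ⟨x₀, hq.1, rfl⟩)
      have hy : p.2 b = q.2 y₀ :=
        vl_unique (p := p) ⟨b, hp.2, rfl⟩ (h y (q.2 y₀) ⟨y₀, hq.2, rfl⟩)
      obtain ⟨h5, e5⟩ := mp_some p.2 a b hab
      obtain ⟨h6, e6⟩ := mp_some q.2 x₀ y₀ h₀
      rw [e5, e6]
      simp only [hx, hy]

theorem exists_res (i : H →ₐ[k] K) (p : Geo k K Ω) (φ : H) (hφ : p.1.ord (i φ) ≠ 0) :
    ∃ q : Geo k H Ω, Res i p q := by
  obtain ⟨v, e, he, hv⟩ := exists_restrict i p.1 φ hφ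
  have he' : (0 : ℤ) < e := by exact_mod_cast he
  have hR : ∀ f, v.Reg f → p.1.Reg (i f) := by
    rintro f (hf | hf)
    · exact Or.inl (by rw [hf, map_zero])
    · exact Or.inr (by rw [hv]; positivity)
  have hZ : ∀ f, v.Zer f → p.1.Zer (i f) := by
    rintro f (hf | hf)
    · exact Or.inl (by rw [hf, map_zero])
    · exact Or.inr (by rw [hv]; positivity)
  let g : VR v →+* VR p.1 :=
    { toFun := fun f => ⟨i f, hR f f.2⟩
      map_one' := Subtype.ext (map_one i)
      map_mul' := fun a b => Subtype.ext (map_mul i _ _)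
      map_zero' := Subtype.ext (map_zero i)
      map_add' := fun a b => Subtype.ext (map_add i _ _) }
  haveI : IsLocalHom g := by
    refine ⟨fun a ha => ?_⟩
    refine isUnit_VR v a fun h0 => ?_
    have h1 : g a ∈ IsLocalRing.maximalIdeal (VR p.1) := (mem_max_iff (g a)).2 (hZ a h0)
    exact (IsLocalRing.mem_maximalIdeal _).1 h1 ha
  let ρ : RF v →ₐ[k] RF p.1 :=
    { toRingHom := IsLocalRing.ResidueField.map g
      commutes' := by
        intro c
        obtain ⟨h1, e1⟩ := red_const v c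
        obtain ⟨h2, e2⟩ := red_const p.1 c
        show IsLocalRing.ResidueField.map g (algebraMap k (RF v) c) = algebraMap k (RF p.1) c
        rw [← e1, ← e2, IsLocalRing.ResidueField.map_residue]
        congr 1
        exact Subtype.ext (i.commutes c) }
  refine ⟨⟨v, p.2.comp ρ⟩, ?_⟩
  rintro f c ⟨a, ⟨hf, rfl⟩, rfl⟩
  exact ⟨_, ⟨hR f hf, (IsLocalRing.ResidueField.map_residue g ⟨f, hf⟩).symm⟩, rfl⟩

theorem exists_ord_ne (v : Place k K) (i : H →ₐ[k] K) (hi : i.toRingHom.IsIntegral) :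
    ∃ φ : H, v.ord (i φ) ≠ 0 := by
  by_contra hcon
  push Not at hcon
  obtain ⟨t, ht⟩ := v.exists_uniformizer
  have ht0 : t ≠ 0 := by
    rintro rfl
    rw [v.ord_zero] at ht
    exact zero_ne_one ht
  have htz : v.Zer t := Or.inr (by rw [ht]; exact one_pos)
  obtain ⟨P, hP, hP0⟩ := hi t⁻¹
  rw [Polynomial.eval₂_eq_sum_range, Finset.sum_range_succ, hP.coeff_natDegree, map_one,
    one_mul] at hP0
  have h1 : (∑ j ∈ Finset.range P.natDegree, i (P.coeff j) * t ^ (P.natDegree - j)) + 1 = 0 := by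
    have h2 := congrArg (fun z => z * t ^ P.natDegree) hP0
    simp only [zero_mul, add_mul, Finset.sum_mul] at h2
    rw [← mul_pow, inv_mul_cancel₀ ht0, one_pow] at h2
    rw [← h2]
    congr 1
    refine Finset.sum_congr rfl fun j hj => ?_
    have hj' : j ≤ P.natDegree := (Finset.mem_range.1 hj).le
    have h3 : t ^ P.natDegree = t ^ j * t ^ (P.natDegree - j) := by
      rw [← pow_add, Nat.add_sub_cancel' hj']
    show _ = i (P.coeff j) * t⁻¹ ^ j * t ^ P.natDegree
    rw [h3, mul_assoc, ← mul_assoc (t⁻¹ ^ j), ← mul_pow, inv_mul_cancel₀ ht0, one_pow, one_mul]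
  have h2 : ∀ s : Finset ℕ, (∀ j ∈ s, j < P.natDegree) →
      v.Zer (∑ j ∈ s, i (P.coeff j) * t ^ (P.natDegree - j)) := by
    intro s
    induction s using Finset.induction_on with
    | empty =>
      intro _
      rw [Finset.sum_empty]
      exact v.zer_zero
    | insert j s hj ih =>
      intro hs
      rw [Finset.sum_insert hj]
      refine Place.Zer.add ?_ (ih fun l hl => hs l (Finset.mem_insert_of_mem hl))
      have h3 := hs j (Finset.mem_insert_self _ _)
      refine Place.Zer.reg_mul (Or.inr (hcon _).ge) ?_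
      obtain ⟨n, hn⟩ : ∃ n, P.natDegree - j = n + 1 := ⟨P.natDegree - j - 1, by omega⟩
      rw [hn, pow_succ]
      exact Place.Zer.reg_mul (htz.reg.pow n) htz
  have h3 := h2 (Finset.range P.natDegree) fun j hj => Finset.mem_range.1 hj
  rw [eq_neg_of_add_eq_zero_left h1] at h3
  have h4 := h3.neg
  rw [neg_neg] at h4
  rcases h4 with h4 | h4
  · exact one_ne_zero h4
  · rw [v.ord_one] at h4
    exact lt_irrefl _ h4

theorem ev_const (p : Geo k K Ω) {E : WeierstrassCurve k} [E.IsElliptic] (P : E.toAffine.Point) :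
    ev p (constPt K P) = constPt Ω P := by
  have h1 : SpR p.1 (constPt K P) (constPt (RF p.1) P) := by
    match P with
    | .zero => rfl
    | .some x y h => exact ⟨red_const p.1 x, red_const p.1 y⟩
  rw [ev_apply, rd_eq h1]
  match P with
  | .zero => exact mp_zero p.2
  | .some x y h =>
    obtain ⟨h2, e2⟩ := mp_some (W := E) p.2 (algebraMap k (RF p.1) x) (algebraMap k (RF p.1) y)
      ((WeierstrassCurve.Affine.map_nonsingular E (algebraMap k (RF p.1)).injective x y).2 h)
    refine e2.trans ?_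
    show _ = Affine.Point.some (algebraMap k Ω x) (algebraMap k Ω y) _
    simp only [AlgHom.commutes]

end Pool.Agent.LibCV66
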