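import Pool.Agent.LibCV66.J1

/-!
[CV66 J5] the Galois group is transitive on the geometric places over a given geometric place.

Plan (STRONG, only Mathlib). Let `A = VR q.1` and `B = integralClosure A K`, stable under
`G = Gal(K/H)`, with `B ∩ H = A` (integrally closed) and fraction field `K`. `p` and `p'` are given by
ring homomorphisms `a, a' : B → Ω` (`b ↦` the value of `b`; `B ⊆ VR p.1` because valuation rings are
integrally closed, `exists_vl`) which agree on `A`. Claim: `a = a' ∘ σ` on `B` for some `σ` in `G`.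
First proof: the kernels `P`, `P'` are maximal ideals of `B` over the maximal ideal of `A`, so
`P' = σ P` (`Algebra.IsInvariant.exists_smul_of_under_eq`, or `IsFractionRing` version, file
RingTheory/Invariant/Basic), then the surjectivity of the stabilizer on the automorphisms of the
residue field (`Ideal.Quotient.stabilizerHom_surjective`, normality of the residue extension,
`IsAlgClosed`-free: two `A`-embeddings of `B ⧸ P` in `Ω` differ by an automorphism of `B ⧸ P` over
`A ⧸ m` because the extension is normal).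
Second proof (elementary): let `x` be in the polynomial ring `B[T_1, ..., T_n]`; the polynomial
`∏_σ (X - σ x)` has coefficients in `A[T_1, ..., T_n]`, so `a(x)` is a root of `∏_σ (X - a'(σ x))` in the
domain `Ω[T_1, ..., T_n]`: `a(x) = a'(σ x)` for some `σ`. With `x = ∑ b_j T_j` for given elements
`b_1, ..., b_n` of `B` this gives one `σ` with `a(b_j) = a'(σ b_j)` for all `j`; `G` is finite, so one `σ`
works for all of `B` (otherwise choose a bad `b_σ` for every `σ`).
Then for `f` in `K` with `Vl p f c`: write `f = b / s` with `b`, `s` in `B` and `s` not zero at `p`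
(localisation of `B` at the kernel of `a`; or: if `f` is regular at `p.1`, use that the valuation ring
`VR p.1` contains the localisation of `B` at `P`, which is a discrete valuation ring of `K`, hence
equal to it), so that `Vl p' (σ f) c` from `a = a' ∘ σ`. Alternative for the last step: define
`p'' = (p'.1 ∘ σ, ...)` (the geometric place with `Vl p'' f c ↔ Vl p' (σ f) c`) and apply the fact that two
places of `K` with `B ∩ m_w = B ∩ m_w'` are equal.
-/

open WeierstrassCurve Pool.Agent.LibBH2 Pool.Agent.LibIG50 Pool.Agent.LibCHd Pool.Agent.LibAC34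
open scoped Classical

namespace Pool.Agent.LibCV66

variable {k : Type} [Field k] {H K Ω : Type} [Field H] [Algebra k H] [Field K] [Algebra k K]
  [Field Ω] [Algebra k Ω]

open Polynomial in
/-- two homomorphisms to a domain which agree on the invariants of a finite group differ by an
element of the group -/
theorem J5_abs {B Ω G : Type} [CommRing B] [CommRing Ω] [IsDomain Ω] [Group G] [Finite G]
    (s : G → B →+* B) (hs1 : ∀ b, s 1 b = b) (hsm : ∀ g h b, s (g * h) b = s g (s h b))
    (α α' : B →+* Ω) (h : ∀ u : B, (∀ g : G, s g u = u) → α u = α' u) :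
    ∃ g : G, ∀ b, α b = α' (s g b) := by
  have := Fintype.ofFinite G
  have claim1 : ∀ x : Polynomial B, ∃ g : G, mapRingHom α x = mapRingHom α' (mapRingHom (s g) x) := by
    intro x
    set F : Polynomial (Polynomial B) := ∏ g : G, (X - C (mapRingHom (s g) x)) with hFdef
    have hF : ∀ τ : G, F.map (mapRingHom (s τ)) = F := by
      intro τ
      rw [hFdef, Polynomial.map_prod]
      refine Fintype.prod_equiv (Equiv.mulLeft τ) _ _ fun g => ?_
      rw [Polynomial.map_sub, map_X, map_C]
      congr 2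
      ext m
      simp only [coe_mapRingHom, coeff_map, Equiv.coe_mulLeft]
      rw [hsm]
    have hco : ∀ n, mapRingHom α (F.coeff n) = mapRingHom α' (F.coeff n) := by
      intro n
      ext m
      simp only [coe_mapRingHom, coeff_map]
      apply h
      intro g
      have h1 := congrArg (fun P : Polynomial (Polynomial B) => (P.coeff n).coeff m) (hF g)
      simp only [coeff_map, coe_mapRingHom] at h1
      exact h1
    have h0 : F.eval x = 0 := by
      rw [hFdef, eval_prod]
      refine Finset.prod_eq_zero (Finset.mem_univ (1 : G)) ?_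
      rw [eval_sub, eval_X, eval_C, sub_eq_zero]
      ext m
      simp only [coe_mapRingHom, coeff_map]
      rw [hs1]
    have h2 : F.map (mapRingHom α) = F.map (mapRingHom α') := by
      ext1 n
      rw [coeff_map, coeff_map, hco]
    have h1 : (F.map (mapRingHom α)).eval (mapRingHom α x) = 0 := by
      rw [eval_map, eval₂_at_apply, h0, map_zero]
    rw [h2, hFdef, Polynomial.map_prod, eval_prod, Finset.prod_eq_zero_iff] at h1
    obtain ⟨g, -, hg⟩ := h1
    refine ⟨g, ?_⟩
    rw [Polynomial.map_sub, map_X, map_C, eval_sub, eval_X, eval_C, sub_eq_zero] at hg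
    exact hg
  by_contra hcon
  push Not at hcon
  choose b hb using hcon
  obtain ⟨e⟩ : Nonempty (G ≃ Fin (Fintype.card G)) := ⟨Fintype.equivFin G⟩
  obtain ⟨g, hg⟩ := claim1 (∑ τ : G, monomial (e τ : ℕ) (b τ))
  have h3 := congrArg (fun P : Polynomial Ω => P.coeff (e g : ℕ)) hg
  simp only [coe_mapRingHom, coeff_map, finsetSum_coeff, coeff_monomial] at h3
  have h4 : ∑ τ : G, (if (e τ : ℕ) = (e g : ℕ) then b τ else 0) = b g := by
    rw [Finset.sum_eq_single g]
    · rw [if_pos rfl]
    · intro τ _ hτ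
      rw [if_neg]
      intro h5
      exact hτ (e.injective (Fin.ext h5))
    · intro h5
      exact absurd (Finset.mem_univ g) h5
  rw [h4] at h3
  exact hb g h3

theorem J5_mul {p : Geo k K Ω} {f g : K} {c d : Ω} (h : Vl p f c) (h' : Vl p g d) :
    Vl p (f * g) (c * d) := by
  obtain ⟨a, ha, rfl⟩ := h
  obtain ⟨b, hb, rfl⟩ := h'
  exact ⟨a * b, ha.mul hb, map_mul _ _ _⟩

theorem J5_div {p : Geo k K Ω} {f g : K} {c d : Ω} (h : Vl p f c) (h' : Vl p g d) (hd : d ≠ 0) :
    Vl p (f / g) (c / d) := by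
  obtain ⟨a, ha, rfl⟩ := h
  obtain ⟨b, hb, rfl⟩ := h'
  refine ⟨a / b, ha.div hb ?_, map_div₀ _ _ _⟩
  rintro rfl
  exact hd (map_zero _)

/-- the value of a regular function, as a ring homomorphism -/
noncomputable def J5_val (p : Geo k K Ω) : VR p.1 →+* Ω :=
  (p.2 : RF p.1 →+* Ω).comp (IsLocalRing.residue (VR p.1))

theorem J5_val_spec (p : Geo k K Ω) (b : VR p.1) : Vl p (b : K) (J5_val p b) :=
  ⟨_, ⟨b.2, rfl⟩, rfl⟩

theorem J5_zer {p : Geo k K Ω} {f : K} : Vl p f 0 ↔ p.1.Zer f := by
  constructor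
  · rintro ⟨a, ha, h0⟩
    have h1 : a = 0 := (map_eq_zero p.2).1 h0
    rw [h1] at ha
    exact red_zero_iff.1 ha
  · intro h
    exact ⟨0, red_zero_iff.2 h, map_zero _⟩

theorem J5_zer_res {i : H →ₐ[k] K} {p : Geo k K Ω} {q : Geo k H Ω} (h : Res i p q) {f : H} :
    p.1.Zer (i f) ↔ q.1.Zer f := by
  rw [← J5_zer, ← J5_zer]
  exact ⟨fun h1 => res_vl h h1, fun h1 => h _ _ h1⟩

theorem J5_reg_res {i : H →ₐ[k] K} {p : Geo k K Ω} {q : Geo k H Ω} (h : Res i p q) {f : H}
    (hf : q.1.Reg f) : p.1.Reg (i f) := by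
  obtain ⟨c, hc⟩ := exists_vl q hf
  exact vl_reg (h _ _ hc)

theorem J5_sum {v : Place k K} {κ : Type} (s : Finset κ) (g : κ → K) (h : ∀ j ∈ s, v.Reg (g j)) :
    v.Reg (∑ j ∈ s, g j) := by
  induction s using Finset.induction_on with
  | empty => rw [Finset.sum_empty]; exact v.reg_zero
  | insert a s ha ih =>
    rw [Finset.sum_insert ha]
    exact (h a (Finset.mem_insert_self a s)).add
      (ih fun j hj => h j (Finset.mem_insert_of_mem hj))

theorem J5_sumZ {v : Place k K} {κ : Type} (s : Finset κ) (g : κ → K) (h : ∀ j ∈ s, v.Zer (g j)) :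
    v.Zer (∑ j ∈ s, g j) := by
  induction s using Finset.induction_on with
  | empty => rw [Finset.sum_empty]; exact v.zer_zero
  | insert a s ha ih =>
    rw [Finset.sum_insert ha]
    exact (h a (Finset.mem_insert_self a s)).add
      (ih fun j hj => h j (Finset.mem_insert_of_mem hj))

/-- an equation with regular coefficients, one of them equal to `1` -/
theorem J5_eqn [Algebra H K] [IsScalarTower k H K] [FiniteDimensional H K] (v : Place k H)
    (f : K) : ∃ P : Polynomial H, Polynomial.aeval f P = 0 ∧ (∀ j, v.Reg (P.coeff j)) ∧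
      ∃ j, P.coeff j = 1 := by
  set m := minpoly H f with hm
  have hint : IsIntegral H f := IsIntegral.of_finite H f
  have hm0 : m ≠ 0 := minpoly.ne_zero hint
  obtain ⟨j₀, hj₀, hmin⟩ := Finset.exists_min_image m.support (fun j => v.ord (m.coeff j))
    (Polynomial.support_nonempty.2 hm0)
  have hc : m.coeff j₀ ≠ 0 := Polynomial.mem_support_iff.1 hj₀
  refine ⟨Polynomial.C (m.coeff j₀)⁻¹ * m, ?_, ?_, j₀, ?_⟩
  · rw [map_mul, hm, minpoly.aeval, mul_zero]
  · intro j
    rw [Polynomial.coeff_C_mul]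
    by_cases hj : m.coeff j = 0
    · rw [hj, mul_zero]
      exact v.reg_zero
    · right
      rw [v.ord_mul _ _ (inv_ne_zero hc) hj, v.ord_inv]
      have := hmin j (Polynomial.mem_support_iff.2 hj)
      omega
  · rw [Polynomial.coeff_C_mul, inv_mul_cancel₀ hc]

/-- every function which is regular at `p` is a quotient of functions which are regular at all
places over `q`, with a denominator which does not vanish at `p` -/
theorem J5_frac [Algebra H K] [IsScalarTower k H K] [FiniteDimensional H K] {q : Geo k H Ω}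
    {p : Geo k K Ω} (h : Res (IsScalarTower.toAlgHom k H K) p q) {f : K} (hf : p.1.Reg f) :
    ∃ s : K, ¬ p.1.Zer s ∧ ∀ w : Place k K, (∀ a : H, q.1.Reg a → w.Reg (algebraMap H K a)) →
      w.Reg s ∧ w.Reg (s * f) := by
  obtain ⟨P, hP0, hPr, j₁, hj₁⟩ := J5_eqn q.1 f
  -- the largest index with a coefficient which is not zero at `q`
  have hne : (P.support.filter fun j => ¬ q.1.Zer (P.coeff j)).Nonempty := by
    refine ⟨j₁, Finset.mem_filter.2 ⟨Polynomial.mem_support_iff.2 ?_, ?_⟩⟩
    · rw [hj₁]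
      exact one_ne_zero
    · rw [hj₁]
      rintro (h1 | h1)
      · exact one_ne_zero h1
      · rw [q.1.ord_one] at h1
        exact lt_irrefl _ h1
  obtain ⟨i, hi, hmax⟩ := Finset.exists_max_image _ (fun j : ℕ => j) hne
  rw [Finset.mem_filter] at hi
  have hbig : ∀ j, i < j → q.1.Zer (P.coeff j) := by
    intro j hj
    by_contra hz
    have h1 : j ∈ P.support := by
      rw [Polynomial.mem_support_iff]
      intro h2
      apply hz
      rw [h2]
      exact q.1.zer_zero
    have := hmax j (Finset.mem_filter.2 ⟨h1, hz⟩)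
    omega
  set a : ℕ → K := fun j => algebraMap H K (P.coeff j) with ha
  have haZ : ∀ j, i < j → p.1.Zer (a j) := fun j hj =>
    (J5_zer_res (i := IsScalarTower.toAlgHom k H K) h).2 (hbig j hj)
  have hai : ¬ p.1.Zer (a i) := fun h1 =>
    hi.2 ((J5_zer_res (i := IsScalarTower.toAlgHom k H K) h).1 h1)
  set n := P.natDegree with hn
  have hin : i ≤ n := Polynomial.le_natDegree_of_mem_supp i hi.1
  -- the equation
  have heq : ∑ j ∈ Finset.range (n + 1), a j * f ^ j = 0 := by
    rw [← hP0, Polynomial.aeval_eq_sum_range]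
    refine Finset.sum_congr rfl fun j _ => ?_
    rw [Algebra.smul_def]
  have hsplit : ∑ j ∈ Finset.range (n + 1), a j * f ^ j =
      (∑ j ∈ Finset.range i, a j * f ^ j) +
        (∑ j ∈ Finset.range (n + 1 - i), a (i + j) * f ^ j) * f ^ i := by
    conv_lhs => rw [show n + 1 = i + (n + 1 - i) by omega, Finset.sum_range_add]
    congr 1
    rw [Finset.sum_mul]
    refine Finset.sum_congr rfl fun j _ => ?_
    rw [pow_add]
    ring
  set s : K := ∑ j ∈ Finset.range (n + 1 - i), a (i + j) * f ^ j with hs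
  have hsi : s = a i + ∑ j ∈ Finset.range (n - i), a (i + (j + 1)) * f ^ (j + 1) := by
    rw [hs, show n + 1 - i = (n - i) + 1 by omega, Finset.sum_range_succ', add_comm]
    simp
  have hsz : ¬ p.1.Zer s := by
    intro h1
    apply hai
    have h2 : p.1.Zer (∑ j ∈ Finset.range (n - i), a (i + (j + 1)) * f ^ (j + 1)) :=
      J5_sumZ _ _ fun j _ => (haZ _ (by omega)).mul_reg (hf.pow _)
    have h3 := h1.sub h2
    rwa [hsi, add_sub_cancel_right] at h3
  have hi1 : i ≠ 0 := by
    intro h0
    apply hsz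
    rw [hsplit, h0, Finset.range_zero, Finset.sum_empty, zero_add, pow_zero, mul_one] at heq
    rw [heq]
    exact p.1.zer_zero
  refine ⟨s, hsz, fun w hw => ?_⟩
  have haw : ∀ j, w.Reg (a j) := fun j => hw _ (hPr j)
  by_cases hfw : w.Reg f
  · have h1 : w.Reg s := J5_sum _ _ fun j _ => (haw _).mul (hfw.pow _)
    exact ⟨h1, h1.mul hfw⟩
  · have hf0 : f ≠ 0 := fun h0 => hfw (Or.inl h0)
    have hfi : w.Reg f⁻¹ := by
      right
      rw [w.ord_inv]
      by_contra h1
      apply hfw
      right
      omega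
    have h2 : s * f = -∑ j ∈ Finset.range i, a j * (f⁻¹) ^ (i - 1 - j) := by
      have h3 : s * f ^ i = -∑ j ∈ Finset.range i, a j * f ^ j := by
        rw [hsplit] at heq
        linear_combination heq
      have h4 : f ^ i = f ^ (i - 1) * f := by
        rw [← pow_succ]
        congr 1
        omega
      have h5 : f ^ (i - 1) ≠ 0 := pow_ne_zero _ hf0
      apply mul_right_cancel₀ h5
      have h6 : s * f * f ^ (i - 1) = s * f ^ i := by rw [h4]; ring
      rw [h6, h3, neg_mul, Finset.sum_mul]
      congr 1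
      refine Finset.sum_congr rfl fun j hj => ?_
      rw [Finset.mem_range] at hj
      have h7 : f ^ (i - 1) = f ^ (i - 1 - j) * f ^ j := by
        rw [← pow_add]
        congr 1
        omega
      rw [h7, mul_assoc, ← mul_assoc (f⁻¹ ^ (i - 1 - j)), ← mul_pow, inv_mul_cancel₀ hf0, one_pow,
        one_mul]
    have h3 : w.Reg (s * f) := by
      rw [h2]
      exact (J5_sum _ _ fun j _ => (haw j).mul (hfi.pow _)).neg
    refine ⟨?_, h3⟩
    have h4 : s = s * f * f⁻¹ := by rw [mul_assoc, mul_inv_cancel₀ hf0, mul_one]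
    rw [h4]
    exact h3.mul hfi

/-- the place `v ∘ σ` -/
def J5_comp [Algebra H K] [IsScalarTower k H K] (v : Place k K) (σ : K ≃ₐ[H] K) : Place k K where
  ord f := v.ord (σ f)
  ord_zero := by rw [map_zero, v.ord_zero]
  ord_mul f g hf hg := by
    rw [map_mul, v.ord_mul _ _ ((map_ne_zero σ).2 hf) ((map_ne_zero σ).2 hg)]
  ord_add f g hf hg hfg := by
    rw [map_add]
    refine v.ord_add _ _ ((map_ne_zero σ).2 hf) ((map_ne_zero σ).2 hg) ?_
    rw [← map_add]
    exact (map_ne_zero σ).2 hfg
  ord_const c hc := by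
    rw [IsScalarTower.algebraMap_apply k H K, σ.commutes, ← IsScalarTower.algebraMap_apply,
      v.ord_const c hc]
  exists_uniformizer := by
    obtain ⟨t, ht⟩ := v.exists_uniformizer
    exact ⟨σ.symm t, by rw [AlgEquiv.apply_symm_apply, ht]⟩

theorem J5_comp_reg [Algebra H K] [IsScalarTower k H K] {v : Place k K} {σ : K ≃ₐ[H] K} {f : K} :
    (J5_comp v σ).Reg f ↔ v.Reg (σ f) := by
  constructor
  · rintro (h1 | h1)
    · exact Or.inl (by rw [h1, map_zero])
    · exact Or.inr h1
  · rintro (h1 | h1)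
    · exact Or.inl ((map_eq_zero σ).1 h1)
    · exact Or.inr h1

theorem galois_trans [Algebra H K] [IsScalarTower k H K] [FiniteDimensional H K] [IsGalois H K]
    {q : Geo k H Ω} {p p' : Geo k K Ω} (h : Res (IsScalarTower.toAlgHom k H K) p q)
    (h' : Res (IsScalarTower.toAlgHom k H K) p' q) :
    ∃ σ : K ≃ₐ[H] K, ∀ f c, Vl p f c → Vl p' (σ f) c := by
  -- functions regular at all conjugates of `p` and `p'`
  let B : Subring K :=
    { carrier := {b | ∀ σ : K ≃ₐ[H] K, p.1.Reg (σ b) ∧ p'.1.Reg (σ b)}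
      mul_mem' := fun {a b} ha hb σ => by
        rw [map_mul]
        exact ⟨(ha σ).1.mul (hb σ).1, (ha σ).2.mul (hb σ).2⟩
      one_mem' := fun σ => by
        rw [map_one]
        exact ⟨(VR p.1).one_mem, (VR p'.1).one_mem⟩
      add_mem' := fun {a b} ha hb σ => by
        rw [map_add]
        exact ⟨(ha σ).1.add (hb σ).1, (ha σ).2.add (hb σ).2⟩
      zero_mem' := fun σ => by
        rw [map_zero]
        exact ⟨p.1.reg_zero, p'.1.reg_zero⟩
      neg_mem' := fun {a} ha σ => by
        rw [map_neg]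
        exact ⟨(ha σ).1.neg, (ha σ).2.neg⟩ }
  have hB : ∀ b : K, b ∈ B ↔ ∀ σ : K ≃ₐ[H] K, p.1.Reg (σ b) ∧ p'.1.Reg (σ b) := fun b => Iff.rfl
  have hBp : B ≤ VR p.1 := fun b hb => (hb 1).1
  have hBp' : B ≤ VR p'.1 := fun b hb => (hb 1).2
  let s : (K ≃ₐ[H] K) → B →+* B := fun σ => (σ : K →+* K).restrict B B fun b hb τ => hb (τ * σ)
  have hs : ∀ σ (b : B), ((s σ b : B) : K) = σ (b : K) := fun σ b => rfl
  let α : B →+* Ω := (J5_val p).comp (Subring.inclusion hBp)
  let α' : B →+* Ω := (J5_val p').comp (Subring.inclusion hBp')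
  have hα : ∀ b : B, Vl p (b : K) (α b) := fun b => J5_val_spec p (Subring.inclusion hBp b)
  have hα' : ∀ b : B, Vl p' (b : K) (α' b) := fun b => J5_val_spec p' (Subring.inclusion hBp' b)
  obtain ⟨σ, hσ⟩ := J5_abs s (fun b => Subtype.ext rfl) (fun g h b => Subtype.ext rfl) α α' (by
    intro u hu
    have h1 : ∀ g : K ≃ₐ[H] K, g (u : K) = u := fun g => congrArg Subtype.val (hu g)
    obtain ⟨a, ha⟩ := (IsGalois.mem_range_algebraMap_iff_fixed (F := H) (E := K) (u : K)).2 h1
    have h2 : Vl q a (α u) := by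
      refine res_vl h ?_
      have := hα u
      rw [← ha] at this
      exact this
    have h3 := h' a _ h2
    have h4 : Vl p' (u : K) (α u) := by
      rw [← ha]
      exact h3
    exact vl_unique h4 (hα' u))
  refine ⟨σ, fun f c hf => ?_⟩
  obtain ⟨t, ht, htr⟩ := J5_frac h (vl_reg hf)
  have hreg : ∀ τ : K ≃ₐ[H] K, (∀ a : H, q.1.Reg a → (J5_comp p.1 τ).Reg (algebraMap H K a)) ∧
      ∀ a : H, q.1.Reg a → (J5_comp p'.1 τ).Reg (algebraMap H K a) := by
    intro τ
    constructor
    · intro a ha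
      rw [J5_comp_reg, τ.commutes]
      exact J5_reg_res h ha
    · intro a ha
      rw [J5_comp_reg, τ.commutes]
      exact J5_reg_res h' ha
  have htB : t ∈ B := fun τ => ⟨J5_comp_reg.1 (htr _ (hreg τ).1).1, J5_comp_reg.1 (htr _ (hreg τ).2).1⟩
  have htfB : t * f ∈ B :=
    fun τ => ⟨J5_comp_reg.1 (htr _ (hreg τ).1).2, J5_comp_reg.1 (htr _ (hreg τ).2).2⟩
  have h1 := hα ⟨t, htB⟩
  have h2 := hα ⟨t * f, htfB⟩
  have h3 : α ⟨t, htB⟩ ≠ 0 := by
    intro h0
    rw [h0] at h1
    exact ht (J5_zer.1 h1)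
  have h4 : α ⟨t * f, htfB⟩ = α ⟨t, htB⟩ * c := vl_unique h2 (J5_mul h1 hf)
  have h5 := hα' (s σ ⟨t, htB⟩)
  have h6 := hα' (s σ ⟨t * f, htfB⟩)
  rw [hs, ← hσ] at h5 h6
  have h7 := J5_div h6 h5 h3
  have h8 : σ (t * f) / σ t = σ f := by
    have h9 : σ t ≠ 0 := by
      rw [Ne, map_eq_zero]
      rintro rfl
      exact ht p.1.zer_zero
    rw [map_mul, mul_div_cancel_left₀ _ h9]
  have h10 : α ⟨t * f, htfB⟩ / α ⟨t, htB⟩ = c := by rw [h4, mul_div_cancel_left₀ _ h3]
  rw [h10] at h7
  have h11 : Vl p' (σ (t * f) / σ t) c := h7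
  rwa [h8] at h11

end Pool.Agent.LibCV66
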