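import Pool.Agent.LibCV66.J4
import Pool.Agent.LibCV66.J5

/-!
[CV66 J6] the sum over the geometric places over a given one, in a Galois extension.

Plan. `G = Gal(K/H)` acts on the fibre `X = {p | Res i p q}`: for `σ` in `G` and `p` in `X` let `p.σ` be the
geometric place with `Vl (p.σ) f c ↔ Vl p (σ f) c` (`exists_res` for `σ : K →ₐ[k] K`, with a uniformizer
`φ = σ⁻¹ t`); `Res i (p.σ) q`, `ev (p.σ) z = ev p (mp σ z)` (`ev_res`), and `(p.σ).1.ord f = p.1.ord (σ f)`
(`res_ord` with `e = 1`: both are normalised). By `galois_trans` and `geo_ext` the action is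
transitive, by `fibre` the set `X` is finite. So the map `σ ↦ p₀.σ` from `G` to `X` is surjective and all
its fibres have the same number `s` of elements, `s * #X = #G = [K : H]`
(`IsGalois.card_aut_eq_finrank`), hence `∑_σ (1, ev p₀ (σ z)) = s • ∑_(p ∈ X) (1, ev p z)`. The order
`c = p.1.ord (i f)` is the same for all `p` in `X` (`σ (i f) = i f`), and `#X * c = [K : H] * q.1.ord f` by
`fibre`, so `c = s * q.1.ord f` (`#X ≠ 0`), and the two sides of `level` are both
`q.1.ord f • s • ∑_(p ∈ X) (1, ev p z)`.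
`tot_fibre`: for `z` from `H` the value is `ev q z` on `X` (`ev_res`), so this is `fibre`
(`finsum_smul`-type manipulations over the finite set: turn the `finsum` over the finite set into a
`Finset.sum` by `finsum_mem_eq_finite_toFinset_sum`).
-/

open WeierstrassCurve Pool.Agent.LibBH2 Pool.Agent.LibIG50 Pool.Agent.LibCHd Pool.Agent.LibAC34
open scoped Classical

namespace Pool.Agent.LibCV66

variable {k : Type} [Field k] {H K Ω : Type} [Field H] [Algebra k H] [Field K] [Algebra k K]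
  [Field Ω] [Algebra k Ω]

/-- the action of the Galois group on geometric places -/
theorem J6_act [Algebra H K] [IsScalarTower k H K] (p : Geo k K Ω) (σ : K ≃ₐ[H] K) :
    ∃ p' : Geo k K Ω, Res ((σ : K →ₐ[H] K).restrictScalars k) p p' ∧
      ∀ f, p.1.ord (σ f) = p'.1.ord f := by
  obtain ⟨t, ht⟩ := p.1.exists_uniformizer
  have h1 : p.1.ord (((σ : K →ₐ[H] K).restrictScalars k) (σ.symm t)) = 1 := by
    have : ((σ : K →ₐ[H] K).restrictScalars k) (σ.symm t) = t := σ.apply_symm_apply t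
    rw [this, ht]
  obtain ⟨p', hp'⟩ := exists_res ((σ : K →ₐ[H] K).restrictScalars k) p (σ.symm t)
    (by rw [h1]; norm_num)
  refine ⟨p', hp', ?_⟩
  obtain ⟨e, he, hord⟩ := res_ord hp'
  have h2 := hord (σ.symm t)
  rw [h1] at h2
  have he1 : (e : ℤ) = 1 := by
    have h3 : (e : ℤ) ∣ 1 := ⟨_, h2⟩
    exact Int.eq_one_of_dvd_one (by positivity) h3
  intro f
  have h4 := hord f
  rw [he1, one_mul] at h4
  exact h4

theorem level [CharZero k] [IsAlgClosed Ω] [Algebra H K] [IsScalarTower k H K]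
    [FiniteDimensional H K] [IsGalois H K] {q : Geo k H Ω} {p₀ : Geo k K Ω}
    (h : Res (IsScalarTower.toAlgHom k H K) p₀ q) (f : H) {E : WeierstrassCurve k} [E.IsElliptic]
    (z : (E⁄K).toAffine.Point) :
    tot {p : Geo k K Ω | Res (IsScalarTower.toAlgHom k H K) p q} (algebraMap H K f) z =
      q.1.ord f • ∑ σ : K ≃ₐ[H] K, ((1 : ℤ), ev p₀ (mp ((σ : K →ₐ[H] K).restrictScalars k) z)) := by
  obtain ⟨hfin, hsum⟩ := fibre (k := k) (K := K) q
  set X : Set (Geo k K Ω) := {p : Geo k K Ω | Res (IsScalarTower.toAlgHom k H K) p q} with hX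
  choose act hact hord using fun (p : Geo k K Ω) (σ : K ≃ₐ[H] K) => J6_act (H := H) p σ
  -- the action preserves the fibre
  have hfix : ∀ (σ : K ≃ₐ[H] K) (g : H),
      ((σ : K →ₐ[H] K).restrictScalars k) (IsScalarTower.toAlgHom k H K g) =
        IsScalarTower.toAlgHom k H K g := fun σ g => σ.commutes g
  have hmem : ∀ p ∈ X, ∀ σ, act p σ ∈ X := by
    intro p hp σ g c hg
    have h1 : Vl p (((σ : K →ₐ[H] K).restrictScalars k) (IsScalarTower.toAlgHom k H K g)) c := by
      rw [hfix]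
      exact hp g c hg
    exact res_vl (hact p σ) h1
  have hmul : ∀ p σ τ, act p (σ * τ) = act (act p σ) τ := by
    intro p σ τ
    refine res_unique (hact p (σ * τ)) ?_
    intro g c hg
    exact hact p σ _ _ (hact (act p σ) τ g c hg)
  have hone : ∀ p : Geo k K Ω, act p 1 = p := by
    intro p
    refine res_unique (hact p 1) ?_
    intro g c hg
    exact hg
  have htrans : ∀ p ∈ X, ∃ σ, act p₀ σ = p := by
    intro p hp
    obtain ⟨σ, hσ⟩ := galois_trans hp h
    exact ⟨σ, res_unique (hact p₀ σ) hσ⟩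
  have hp0 : p₀ ∈ X := h
  -- the orders
  have hordc : ∀ p ∈ X, p.1.ord (algebraMap H K f) = p₀.1.ord (algebraMap H K f) := by
    intro p hp
    obtain ⟨σ, rfl⟩ := htrans p hp
    rw [← hord p₀ σ, σ.commutes]
  -- the number of elements of the fibres
  set s : ℕ := (Finset.univ.filter fun σ : K ≃ₐ[H] K => act p₀ σ = p₀).card with hs
  have hcard : ∀ p ∈ X, (Finset.univ.filter fun σ : K ≃ₐ[H] K => act p₀ σ = p).card = s := by
    intro p hp
    obtain ⟨τ, hτ⟩ := htrans p hp
    rw [hs]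
    symm
    refine Finset.card_bij' (fun σ _ => σ * τ) (fun σ _ => σ * τ⁻¹) ?_ ?_ ?_ ?_
    · intro σ hσ
      rw [Finset.mem_filter] at hσ ⊢
      refine ⟨Finset.mem_univ _, ?_⟩
      rw [hmul, hσ.2, hτ]
    · intro σ hσ
      rw [Finset.mem_filter] at hσ ⊢
      refine ⟨Finset.mem_univ _, ?_⟩
      rw [hmul, hσ.2, ← hτ, ← hmul, mul_inv_cancel, hone]
    · intro σ _
      simp
    · intro σ _
      simp
  set Y : Finset (Geo k K Ω) := hfin.toFinset with hY
  have hYX : ∀ p, p ∈ Y ↔ p ∈ X := fun p => hfin.mem_toFinset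
  have hmaps : ∀ σ ∈ (Finset.univ : Finset (K ≃ₐ[H] K)), act p₀ σ ∈ Y :=
    fun σ _ => (hYX _).2 (hmem p₀ hp0 σ)
  have hG : Y.card * s = Module.finrank H K := by
    rw [← IsGalois.card_aut_eq_finrank H K, Nat.card_eq_fintype_card, ← Finset.card_univ,
      Finset.card_eq_sum_card_fiberwise hmaps, Finset.sum_congr rfl fun p hp => hcard p ((hYX p).1 hp),
      Finset.sum_const, smul_eq_mul]
  have hsum1 : (Y.card : ℤ) * p₀.1.ord (algebraMap H K f) = Module.finrank H K * q.1.ord f := by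
    rw [← hsum f, finsum_mem_eq_finite_toFinset_sum _ hfin,
      Finset.sum_congr rfl fun p hp => hordc p ((hYX p).1 hp), Finset.sum_const, nsmul_eq_mul]
  have hYpos : 0 < Y.card := Finset.card_pos.2 ⟨p₀, (hYX _).2 hp0⟩
  have hc : p₀.1.ord (algebraMap H K f) = s * q.1.ord f := by
    rw [← hG] at hsum1
    push_cast at hsum1
    have h1 : (Y.card : ℤ) ≠ 0 := by exact_mod_cast hYpos.ne'
    apply mul_left_cancel₀ h1
    rw [hsum1]
    ring
  -- the sum over the group
  have hR : ∑ σ : K ≃ₐ[H] K, ((1 : ℤ), ev p₀ (mp ((σ : K →ₐ[H] K).restrictScalars k) z)) =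
      (s : ℤ) • ∑ p ∈ Y, ((1 : ℤ), ev p z) := by
    have h1 : ∀ σ : K ≃ₐ[H] K, ((1 : ℤ), ev p₀ (mp ((σ : K →ₐ[H] K).restrictScalars k) z)) =
        ((1 : ℤ), ev (act p₀ σ) z) := fun σ => by rw [ev_res (hact p₀ σ) z]
    rw [Finset.sum_congr rfl fun σ _ => h1 σ, ← Finset.sum_fiberwise_of_maps_to hmaps,
      Finset.smul_sum]
    refine Finset.sum_congr rfl fun p hp => ?_
    rw [Finset.sum_congr rfl (g := fun _ => ((1 : ℤ), ev p z)) fun σ hσ => by
      rw [(Finset.mem_filter.1 hσ).2], Finset.sum_const, hcard p ((hYX p).1 hp), natCast_zsmul]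
  rw [hR]
  unfold tot
  rw [finsum_mem_eq_finite_toFinset_sum _ hfin, Finset.sum_congr rfl
    (g := fun p => p₀.1.ord (algebraMap H K f) • ((1 : ℤ), ev p z)) fun p hp => by
      rw [hordc p ((hYX p).1 hp)], ← Finset.smul_sum, hc, smul_smul, mul_comm]

theorem tot_fibre [CharZero k] [IsAlgClosed Ω] [Algebra H K] [IsScalarTower k H K]
    [FiniteDimensional H K] (q : Geo k H Ω) (f : H) {E : WeierstrassCurve k} [E.IsElliptic]
    (z : (E⁄H).toAffine.Point) :
    tot {p : Geo k K Ω | Res (IsScalarTower.toAlgHom k H K) p q} (algebraMap H K f)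
        (mp (IsScalarTower.toAlgHom k H K) z) =
      Module.finrank H K • (q.1.ord f • ((1 : ℤ), ev q z)) := by
  obtain ⟨hfin, hsum⟩ := fibre (k := k) (K := K) q
  have h1 := hsum f
  rw [finsum_mem_eq_finite_toFinset_sum _ hfin] at h1
  unfold tot
  rw [finsum_mem_eq_finite_toFinset_sum _ hfin, Finset.sum_congr rfl
    (g := fun p => p.1.ord (algebraMap H K f) • ((1 : ℤ), ev q z)) fun p hp => by
      rw [ev_res ((hfin.mem_toFinset).1 hp) z], ← Finset.sum_smul, h1, mul_smul, natCast_zsmul]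

end Pool.Agent.LibCV66
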