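import Pool.Agent.LibCV66.T1

/-!
The functional on cycles: definitions.
-/

open WeierstrassCurve Pool.Agent.LibBH2 Pool.Agent.LibIG50 Pool.Agent.LibCHd Pool.Agent.LibAC34
open scoped Classical

namespace Pool.Agent.LibCV66

variable {k : Type} [Field k] {r : ℕ}

/-- a homomorphism from the product of the curves `W i` to the curve `E`: homomorphisms of the groups of
points over all fields over `k`, compatible with embeddings and with specialisation -/
structure PH (W : Fin r → WeierstrassCurve k) (E : WeierstrassCurve k) where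
  /-- the homomorphism for the field `F` -/
  f : ∀ (F : Type) [Field F] [Algebra k F],
    (∀ i, ((W i)⁄F).toAffine.Point) →+ (E⁄F).toAffine.Point
  nat : ∀ (F G : Type) [Field F] [Algebra k F] [Field G] [Algebra k G] (σ : F →ₐ[k] G)
    (P : ∀ i, ((W i)⁄F).toAffine.Point), f G (fun i => mp σ (P i)) = mp σ (f F P)
  sp : ∀ (K : Type) [Field K] [Algebra k K] (v : Place k K)
    (P : ∀ i, ((W i)⁄K).toAffine.Point) (p : ∀ i, ((W i)⁄(RF v)).toAffine.Point),
    (∀ i, SpR v (P i) (p i)) → SpR v (f K P) (f (RF v) p)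

variable {W : Fin r → WeierstrassCurve k} {Y : Prj k} {D : ℕ} {V : Fin D → WeierstrassCurve k}
  {E : WeierstrassCurve k} {Ω : Type} [Field Ω] [Algebra k Ω]

/-- the coordinates of the component in `Y` are normalised: the first nonzero one is `1` -/
def Nm (q : Pnt W Y Ω) : Prop := ∃ a, q.y a = 1 ∧ ∀ b < a, q.y b = 0

/-- The value of the functional on the subvariety with the equations `s`: the sum of `(1, γ q)` over the
points `q` of `W 1 × ... × W r × Y` over `Ω` whose equations are `s`, with `β q = η`. -/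
noncomputable def phi1 (β : ∀ a, PH W (V a)) (γ : PH W E) (η : ∀ a, ((V a)⁄Ω).toAffine.Point)
    (s : Set (MvPolynomial (Idx r Y.N) k)) : ℤ × (E⁄Ω).toAffine.Point :=
  ∑ᶠ q ∈ {q : Pnt W Y Ω | Nm q ∧ eqs q = s ∧ ∀ a, (β a).f Ω q.z = η a}, ((1 : ℤ), γ.f Ω q.z)

/-- the functional on cycles -/
noncomputable def Phi (Y : Prj k) (β : ∀ a, PH W (V a)) (γ : PH W E)
    (η : ∀ a, ((V a)⁄Ω).toAffine.Point) : Cyc r Y →+ ℤ × (E⁄Ω).toAffine.Point :=
  Finsupp.liftAddHom fun s => zmultiplesHom _ (phi1 β γ η s)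

/-- the embeddings of `F` in `Ω` which map the point `β u` to `η` -/
def Emb {F : Type} [Field F] [Algebra k F] (β : ∀ a, PH W (V a))
    (η : ∀ a, ((V a)⁄Ω).toAffine.Point) (z : ∀ i, ((W i)⁄F).toAffine.Point) : Set (F →ₐ[k] Ω) :=
  {s | ∀ a, mp s ((β a).f F z) = η a}

end Pool.Agent.LibCV66
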