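import Pool.Agent.LibCV66.RDefs
import Pool.Agent.LibAC34.F2

/-!
The kernel `kf`: linear algebra.
-/

open WeierstrassCurve Pool.Agent.LibBH2 Pool.Agent.LibIG50 Pool.Agent.LibCHd Pool.Agent.LibGG
  Pool.Agent.LibAC34
open scoped Classical

namespace Pool.Agent.LibCV66

variable {r D : ℕ}

theorem kf_symm (p q : Matrix (Fin r) (Fin D) ℤ × (Fin r → ℤ)) : kf p q = kf q p := by
  unfold kf
  rw [← Matrix.det_transpose (q.1.transpose * p.1),
    ← Matrix.det_transpose ((bd q.1 q.2).transpose * bd p.1 p.2), Matrix.transpose_mul,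
    Matrix.transpose_mul, Matrix.transpose_transpose, Matrix.transpose_transpose]

/-- the functions of degree at most two in the entries of the matrix and linear in the vector -/
def PS (r D : ℕ) : Submodule ℚ (Matrix (Fin r) (Fin D) ℤ × (Fin r → ℤ) → ℚ) where
  carrier := {f | (∀ z, Quad (fun x : Fin r × Fin D → ℤ => f (mt x, z))) ∧
    ∀ M z, f (M, z) = ∑ i, (z i : ℚ) * f (M, Pi.single i 1)}
  zero_mem' := by
    refine ⟨fun z x i => ⟨0, 0, 0, fun t => by simp⟩, fun M z => by simp⟩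
  add_mem' := by
    rintro f g ⟨hf, hf'⟩ ⟨hg, hg'⟩
    refine ⟨fun z x i => ?_, fun M z => ?_⟩
    · obtain ⟨A, B, C, h⟩ := hf z x i
      obtain ⟨A', B', C', h'⟩ := hg z x i
      refine ⟨A + A', B + B', C + C', fun t => ?_⟩
      have h1 := h t
      have h2 := h' t
      simp only [Pi.add_apply] at h1 h2 ⊢
      rw [h1, h2, smul_add, smul_add]
      abel
    · rw [Pi.add_apply, hf', hg', ← Finset.sum_add_distrib]
      exact Finset.sum_congr rfl fun i _ => by rw [Pi.add_apply, mul_add]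
  smul_mem' := by
    rintro a f ⟨hf, hf'⟩
    refine ⟨fun z x i => ?_, fun M z => ?_⟩
    · obtain ⟨A, B, C, h⟩ := hf z x i
      refine ⟨a * A, a * B, a * C, fun t => ?_⟩
      have h1 := h t
      simp only [Pi.smul_apply, smul_eq_mul] at h1 ⊢
      rw [h1]
      simp only [zsmul_eq_mul]
      ring
    · rw [Pi.smul_apply, hf', smul_eq_mul, Finset.mul_sum]
      exact Finset.sum_congr rfl fun i _ => by rw [Pi.smul_apply, smul_eq_mul]; ring

theorem kf_mem (p : Matrix (Fin r) (Fin D) ℤ × (Fin r → ℤ)) :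
    (fun q => (kf p q : ℚ)) ∈ PS r D := by
  constructor
  · intro z
    have h := (aff_det p.1).mul_smul (aff_bd p.1 z p.2) (1 : ℚ)
    intro x i
    obtain ⟨A, B, C, h1⟩ := h x i
    refine ⟨A, B, C, fun t => ?_⟩
    rw [← h1 t]
    simp [kf]
  · intro M z
    unfold kf
    simp only []
    rw [det_bd_linear]
    push_cast
    rw [Finset.mul_sum]
    exact Finset.sum_congr rfl fun i _ => by ring

instance : FiniteDimensional ℚ (PS r D) := by
  let T : PS r D →ₗ[ℚ] (Fin r × (Fin r × Fin D → Fin 3) → ℚ) :=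
    { toFun := fun f s => f.1 (mt (fun p => ((s.2 p : ℕ) : ℤ)), Pi.single s.1 1)
      map_add' := fun f g => rfl
      map_smul' := fun a f => rfl }
  apply FiniteDimensional.of_injective T
  rw [← LinearMap.ker_eq_bot, LinearMap.ker_eq_bot']
  rintro ⟨f, hf, hf'⟩ h
  apply Subtype.ext
  funext ⟨M, z⟩
  change f (M, z) = 0
  rw [hf']
  refine Finset.sum_eq_zero fun i _ => ?_
  have h2 := quad_mem (⊥ : AddSubgroup ℚ) (fun x hx => by
      rw [AddSubgroup.mem_bot] at hx ⊢
      rw [zsmul_eq_mul] at hx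
      simpa using hx) Set.univ _ (hf (Pi.single i 1)) (fun x hx _ => by
      rw [AddSubgroup.mem_bot]
      have h3 : ∀ p, ∃ t : Fin 3, ((t : ℕ) : ℤ) = x p := by
        intro p
        rcases hx p with h | h | h
        · exact ⟨0, by rw [h]; rfl⟩
        · exact ⟨1, by rw [h]; rfl⟩
        · exact ⟨2, by rw [h]; rfl⟩
      choose t ht using h3
      have h4 := congrFun h (i, t)
      change f (mt (fun p => ((t p : ℕ) : ℤ)), Pi.single i 1) = 0 at h4
      simpa only [ht] using h4) (fun p => M p.1 p.2) (fun p hp => absurd (Set.mem_univ p) hp)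
  rw [AddSubgroup.mem_bot] at h2
  change f (M, Pi.single i 1) = 0 at h2
  rw [h2, mul_zero]

instance : FiniteDimensional ℚ (Submodule.span ℚ (Set.range
    fun p q : Matrix (Fin r) (Fin D) ℤ × (Fin r → ℤ) => (kf p q : ℚ))) := by
  have h : Submodule.span ℚ (Set.range
      fun p q : Matrix (Fin r) (Fin D) ℤ × (Fin r → ℤ) => (kf p q : ℚ)) ≤ PS r D := by
    rw [Submodule.span_le]
    rintro _ ⟨p, rfl⟩
    exact kf_mem p
  exact Submodule.finiteDimensional_of_le h

/-- good test points -/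
theorem exists_tests (r D : ℕ) :
    ∃ p : Fin (mul r D) → Matrix (Fin r) (Fin D) ℤ × (Fin r → ℤ),
      (∀ c : Fin (mul r D) → ℤ, (∀ q, ∑ i, c i * kf (p i) q = 0) → ∀ i, c i = 0) ∧
      ∀ x, ∃ (n : ℤ) (c : Fin (mul r D) → ℤ), n ≠ 0 ∧
        ∀ q, n * kf q x = ∑ i, c i * kf q (p i) := by
  obtain ⟨f, hf, hsp, hli⟩ := Submodule.exists_fun_fin_finrank_span_eq ℚ (Set.range
    fun p q : Matrix (Fin r) (Fin D) ℤ × (Fin r → ℤ) => (kf p q : ℚ))
  choose p hp using hf
  refine ⟨p, fun c hc i => ?_, fun x => ?_⟩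
  · have h1 : ∑ i, (c i : ℚ) • f i = 0 := by
      funext q
      rw [Finset.sum_apply]
      have h2 := congrArg (Int.cast : ℤ → ℚ) (hc q)
      push_cast at h2
      rw [Pi.zero_apply, ← h2]
      refine Finset.sum_congr rfl fun i _ => ?_
      rw [Pi.smul_apply, smul_eq_mul, ← hp i]
    have h3 := Fintype.linearIndependent_iff.1 hli _ h1 i
    exact_mod_cast h3
  · have h1 : (fun q => (kf x q : ℚ)) ∈ Submodule.span ℚ (Set.range f) := by
      rw [hsp]
      exact Submodule.subset_span ⟨x, rfl⟩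
    rw [Submodule.mem_span_range_iff_exists_fun] at h1
    obtain ⟨c, hc⟩ := h1
    let n : ℕ := ∏ i, (c i).den
    have hn : n ≠ 0 := Finset.prod_ne_zero_iff.2 fun i _ => (c i).den_nz
    have h2 : ∀ i, ∃ m : ℤ, (m : ℚ) = n * c i := by
      intro i
      refine ⟨(∏ j ∈ Finset.univ.erase i, ((c j).den : ℤ)) * (c i).num, ?_⟩
      have h3 : (n : ℚ) = (c i).den * ∏ j ∈ Finset.univ.erase i, ((c j).den : ℚ) := by
        have h4 := Finset.mul_prod_erase Finset.univ (fun j => (c j).den) (Finset.mem_univ i)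
        rw [← Nat.cast_prod, ← Nat.cast_mul, h4]
      rw [h3]
      push_cast
      have h5 : ((c i).den : ℚ) * c i = (c i).num := by
        rw [mul_comm]
        exact Rat.mul_den_eq_num (c i)
      calc _ = (∏ j ∈ Finset.univ.erase i, ((c j).den : ℚ)) * ((c i).num : ℚ) := rfl
        _ = _ := by rw [← h5]; ring
    choose m hm using h2
    refine ⟨n, m, by exact_mod_cast hn, fun q => ?_⟩
    have h6 := congrFun hc q
    rw [Finset.sum_apply] at h6
    have h7 : ((n : ℤ) * kf q x : ℚ) = ∑ i, (m i : ℚ) * (kf q (p i) : ℚ) := by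
      rw [kf_symm q x, ← h6, Finset.mul_sum]
      refine Finset.sum_congr rfl fun i _ => ?_
      rw [Pi.smul_apply, smul_eq_mul, hm, kf_symm q (p i), ← hp i]
      push_cast
      ring
    exact_mod_cast h7

end Pool.Agent.LibCV66
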