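import Pool.Agent.LibCV66.R1
import Pool.Agent.LibCV66.C6

/-!
The exact rank of the group of the homologically trivial cycles over a number field.
-/

open WeierstrassCurve Pool.Agent.LibBH2 Pool.Agent.LibIG50 Pool.Agent.LibCHd Pool.Agent.LibGG
  Pool.Agent.LibAC34
open scoped Classical

namespace Pool.Agent.LibCV66

variable {r D : ℕ}

theorem kf_linear (N : Matrix (Fin r) (Fin D) ℤ) (w : Fin r → ℤ)
    (q : Matrix (Fin r) (Fin D) ℤ × (Fin r → ℤ)) :
    kf (N, w) q = ∑ i, w i * kf (N, Pi.single i 1) q := by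
  rw [kf_symm (N, w) q]
  have h := (kf_mem q).2 N w
  simp only [] at h
  have h1 : ((kf q (N, w) : ℤ) : ℚ) = ((∑ i, w i * kf (N, Pi.single i 1) q : ℤ) : ℚ) := by
    rw [h]
    push_cast
    exact Finset.sum_congr rfl fun i _ => by rw [kf_symm q (N, Pi.single i 1)]
  exact_mod_cast h1

section tests

variable {k : Type} [Field k] {E : WeierstrassCurve k}

theorem det_smul_bdet (M N : Matrix (Fin r) (Fin D) ℤ) (z : Fin r → ℤ)
    (g : Pts (fun _ : Fin r => E)) :
    (M.transpose * N).det • bdet E M z N g = ∑ i, kf (N, Pi.single i 1) (M, z) • g i := by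
  rw [bdet, Finset.smul_sum]
  refine Finset.sum_congr rfl fun i _ => ?_
  rw [trk_self, smul_smul]
  rfl

theorem lin_step {P μ Q : Type} [AddCommGroup P] [Fintype μ] {G : AddSubgroup P} {S : Set G}
    (hli : LinearIndependent ℤ (Subtype.val : S → G)) (κ : μ → Q → ℤ)
    (hp : ∀ c : μ → ℤ, (∀ q, ∑ i, c i * κ i q = 0) → ∀ i, c i = 0) (T : Finset (μ × S))
    (n : μ × S → ℤ) (h3 : ∀ q, IsOfFinAddOrder (∑ s ∈ T, (n s * κ s.1 q) • (s.2.1.1 : P))) :
    ∀ s ∈ T, n s = 0 := by
  intro s hs
  -- extend the coefficients by zero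
  let n' : μ × S → ℤ := fun s => if s ∈ T then n s else 0
  have h6 : ∀ q, ∀ y : S, ∑ i, n' (i, y) * κ i q = 0 := by
    intro q y
    obtain ⟨m, hm, h7⟩ := isOfFinAddOrder_iff_nsmul_eq_zero.1 (h3 q)
    let R : Finset S := T.image Prod.snd
    have h8 : ∑ s ∈ T, (n s * κ s.1 q) • (s.2.1.1 : P) =
        ∑ y ∈ R, (∑ i, n' (i, y) * κ i q) • (y.1.1 : P) := by
      have h9 : ∀ y : S, (∑ i, n' (i, y) * κ i q) • (y.1.1 : P) =
          ∑ i, (n' (i, y) * κ i q) • (y.1.1 : P) := fun y => Finset.sum_smul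
      simp only [h9]
      rw [Finset.sum_comm, ← Finset.sum_product']
      have h10 : T ⊆ Finset.univ ×ˢ R := by
        intro s hs
        rw [Finset.mem_product]
        exact ⟨Finset.mem_univ _, Finset.mem_image_of_mem _ hs⟩
      rw [← Finset.sum_subset h10 (fun s _ hs => by
        change (n' s * _) • _ = _
        simp only [n', if_neg hs, zero_mul, zero_smul])]
      refine Finset.sum_congr rfl fun s hs => ?_
      change _ = (n' s * _) • _
      simp only [n', if_pos hs]
    by_cases hy : y ∈ R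
    · rw [h8] at h7
      have h11 : ∑ y ∈ R, (m * (∑ i, n' (i, y) * κ i q) : ℤ) • (y.1 : G) = 0 := by
        apply Subtype.ext
        rw [AddSubgroup.val_finsetSum, AddSubgroup.coe_zero, ← h7, Finset.smul_sum]
        refine Finset.sum_congr rfl fun y _ => ?_
        rw [AddSubgroup.coe_zsmul, mul_smul, natCast_zsmul]
      have h12 := (linearIndependent_iff'.1 hli) R _ h11 y hy
      rcases mul_eq_zero.1 h12 with h13 | h13
      · exact absurd (by exact_mod_cast h13) hm.ne'
      · exact h13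
    · refine Finset.sum_eq_zero fun i _ => ?_
      have h14 : (i, y) ∉ T := fun h => hy (Finset.mem_image_of_mem Prod.snd h)
      simp only [n', if_neg h14, zero_mul]
  have h15 := hp (fun i => n' (i, s.2)) (fun q => h6 q s.2) s.1
  simp only [n', Prod.mk.eta, if_pos hs] at h15
  exact h15

/-- the test `q`, as a homomorphism on formal combinations -/
noncomputable def tst (E : WeierstrassCurve k) (q : Matrix (Fin r) (Fin D) ℤ × (Fin r → ℤ)) :
    ((Matrix (Fin r) (Fin D) ℤ × Pts (fun _ : Fin r => E)) →₀ ℤ) →+ E.toAffine.Point :=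
  Finsupp.liftAddHom fun p => zmultiplesHom _ (∑ i, kf (p.1, Pi.single i 1) q • p.2 i)

theorem tst_apply (q : Matrix (Fin r) (Fin D) ℤ × (Fin r → ℤ))
    (c : (Matrix (Fin r) (Fin D) ℤ × Pts (fun _ : Fin r => E)) →₀ ℤ) :
    tst E q c = c.sum fun p n => n • ∑ i, kf (p.1, Pi.single i 1) q • p.2 i := rfl

theorem tst_single (q : Matrix (Fin r) (Fin D) ℤ × (Fin r → ℤ))
    (p : Matrix (Fin r) (Fin D) ℤ × Pts (fun _ : Fin r => E)) (n : ℤ) :
    tst E q (Finsupp.single p n) = n • ∑ i, kf (p.1, Pi.single i 1) q • p.2 i := by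
  rw [tst_apply]
  exact Finsupp.sum_single_index (zero_smul ℤ _)

theorem tst_eq (M : Matrix (Fin r) (Fin D) ℤ) (z : Fin r → ℤ)
    (c : (Matrix (Fin r) (Fin D) ℤ × Pts (fun _ : Fin r => E)) →₀ ℤ) :
    tst E (M, z) c = c.sum fun p n => (n * (M.transpose * p.1).det) • bdet E M z p.1 p.2 := by
  rw [tst_apply]
  refine Finset.sum_congr rfl fun p _ => ?_
  change c p • _ = (c p * _) • _
  rw [mul_smul, det_smul_bdet]

theorem tst_relation {b : ℕ} {p : Fin b → Matrix (Fin r) (Fin D) ℤ × (Fin r → ℤ)}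
    {x : Matrix (Fin r) (Fin D) ℤ × (Fin r → ℤ)} {n : ℤ} {a : Fin b → ℤ}
    (h : ∀ q, n * kf q x = ∑ i, a i * kf q (p i))
    (c : (Matrix (Fin r) (Fin D) ℤ × Pts (fun _ : Fin r => E)) →₀ ℤ) :
    n • tst E x c = ∑ i, a i • tst E (p i) c := by
  induction c using Finsupp.induction_linear with
  | zero => simp
  | add c c' hc hc' =>
    simp only [map_add, smul_add, Finset.sum_add_distrib]
    rw [hc, hc']
  | single P m =>
    simp only [tst_single, Finset.smul_sum, smul_smul]
    rw [Finset.sum_comm]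
    refine Finset.sum_congr rfl fun i _ => ?_
    rw [← Finset.sum_smul]
    congr 1
    have h1 := h (P.1, Pi.single i 1)
    calc n * (m * kf (P.1, Pi.single i 1) x) = m * (n * kf (P.1, Pi.single i 1) x) := by ring
      _ = _ := by
        rw [h1, Finset.mul_sum]
        exact Finset.sum_congr rfl fun j _ => by ring

end tests

/-- the subgroup of the homologically trivial invariant combinations -/
noncomputable def ZK0g {K : Type} [Field K] [Algebra K Qb] (Γ : Grid)
    (V : Fin D → WeierstrassCurve K) (E : Fin r → WeierstrassCurve K) :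
    AddSubgroup ((Matrix (Fin r) (Fin D) ℤ × Pts (fun i => (E i)⁄Qb)) →₀ ℤ) where
  carrier := ZK0 Γ V E
  zero_mem' := ⟨(ZKDg Γ V E).zero_mem, fun M _ => rfl⟩
  add_mem' := by
    rintro c c' ⟨h1, h2⟩ ⟨h3, h4⟩
    refine ⟨(ZKDg Γ V E).add_mem h1 h3, fun M hM => ?_⟩
    rw [Finsupp.sum_add_index' (fun _ => zero_mul _) (fun _ _ _ => add_mul _ _ _), h2 M hM,
      h4 M hM, add_zero]
  neg_mem' := by
    rintro c ⟨h1, h2⟩
    refine ⟨(ZKDg Γ V E).neg_mem h1, fun M hM => ?_⟩
    rw [Finsupp.sum_neg_index (fun _ => zero_mul _)]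
    simp only [neg_mul]
    rw [Finsupp.sum, Finset.sum_neg_distrib, neg_eq_zero]
    exact h2 M hM

/-- the group of the points over `K` in `Γ E` -/
noncomputable def GKg {K : Type} [Field K] [Algebra K Qb] (Γ : Grid) (E : WeierstrassCurve K) :
    AddSubgroup (E⁄Qb).toAffine.Point where
  carrier := GK Γ E
  zero_mem' := ⟨zero_mem _, fun σ => map_zero _⟩
  add_mem' := fun {a b} ha hb => ⟨add_mem ha.1 hb.1, fun σ => by rw [map_add, ha.2 σ, hb.2 σ]⟩
  neg_mem' := fun {a} ha => ⟨neg_mem ha.1, fun σ => by rw [map_neg, ha.2 σ]⟩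

theorem exact (K : Type) [Field K] [NumberField K] [Algebra K Qb] {Γ : Grid} (h : AllDim Γ)
    (h0 : AllDim (fun _ => ⊥)) : Exact K Γ := by
  intro E hE r D Y L _ _ u F _ _ l ξ hξ
  have hE' : (E⁄Qb).IsElliptic := inferInstanceAs (E.map (algebraMap K Qb)).IsElliptic
  obtain ⟨p, hp, hx⟩ := exists_tests r D
  have hmat : ∀ M, Mat (fun _ : Fin D => E⁄Qb) (fun _ : Fin r => E⁄Qb) M := fun M i a h =>
    absurd rfl h
  let Z := ZK0g Γ (fun _ : Fin D => E) (fun _ : Fin r => E)
  let G := GKg Γ E
  have hG : rk (GK Γ E) = Module.rank ℤ G := by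
    have h1 : AddSubgroup.closure (GK Γ E) = G := AddSubgroup.closure_eq G
    rw [rk, h1]
  let α : ((Matrix (Fin r) (Fin D) ℤ × Pts (fun _ : Fin r => E⁄Qb)) →₀ ℤ) →+
      CH (fun _ : Fin r => E⁄Qb) Y (0 + D) :=
    Finsupp.liftAddHom fun p => zmultiplesHom _ (cl l (0 + D) ξ u p.1 p.2)
  have hα : ∀ c, α c = actD l (0 + D) ξ u c := fun c => rfl
  have hcl : rk (actD l (0 + D) ξ u '' ZK0 Γ (fun _ => E) (fun _ => E)) =
      Module.rank ℤ (α.comp Z.subtype).range := by
    have h1 : AddSubgroup.closure (actD l (0 + D) ξ u '' ZK0 Γ (fun _ => E) (fun _ => E)) =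
        (α.comp Z.subtype).range := by
      apply le_antisymm
      · rw [AddSubgroup.closure_le]
        rintro _ ⟨c, hc, rfl⟩
        exact ⟨⟨c, hc⟩, rfl⟩
      · rintro _ ⟨c, rfl⟩
        exact AddSubgroup.subset_closure ⟨c.1, c.2, rfl⟩
    rw [rk, h1]
  rw [hG, hcl]
  -- the values of the tests
  have hmem : ∀ c ∈ Z, ∀ q, tst (E⁄Qb) q c ∈ G := by
    intro c hc q
    refine ⟨?_, fun σ => ?_⟩
    · rw [tst_apply]
      refine sum_mem fun P hP => zsmul_mem (sum_mem fun i _ => zsmul_mem ?_ _) _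
      exact (hc.1.1 P hP).2 i
    · have h1 : ∀ c : (Matrix (Fin r) (Fin D) ℤ × Pts (fun _ : Fin r => E⁄Qb)) →₀ ℤ,
          gal σ (tst (E⁄Qb) q c) =
            tst (E⁄Qb) q (c.mapDomain (fun p => (p.1, fun i => gal σ (p.2 i)))) := by
        intro c
        induction c using Finsupp.induction_linear with
        | zero => rw [map_zero, map_zero, Finsupp.mapDomain_zero, map_zero]
        | add c c' h h' => rw [Finsupp.mapDomain_add, map_add, map_add, map_add, h, h']
        | single P n =>
          rw [Finsupp.mapDomain_single, tst_single, tst_single, map_zsmul, map_sum]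
          simp only [map_zsmul]
      rw [h1, hc.1.2 σ]
  -- torsion criterion
  have htor : ∀ c ∈ Z, IsOfFinAddOrder (α c) ↔ ∀ q, IsOfFinAddOrder (tst (E⁄Qb) q c) := by
    intro c hc
    have e1 : ∀ q : Matrix (Fin r) (Fin D) ℤ × (Fin r → ℤ), tst (E⁄Qb) q c =
        ∑ j : c.support, (c j.1 * (q.1.transpose * j.1.1).det) •
          bdet (E⁄Qb) q.1 q.2 j.1.1 j.1.2 := by
      rintro ⟨M, z⟩
      rw [tst_eq, Finsupp.sum, ← Finset.sum_coe_sort]
    have e2 : α c = ∑ j : c.support, c j.1 • cl l (0 + D) ξ u j.1.1 j.1.2 := by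
      rw [hα, actD, Finsupp.sum, ← Finset.sum_coe_sort]
    constructor
    · intro ht q
      rw [e2] at ht
      have h1 := (converse h0 (fun _ => hE') (fun _ => hE') u l ξ hξ (fun j : c.support => c j.1)
        (fun j => j.1.1) (fun j => j.1.2) (fun j => hmat _) ht).2 q.1 (hmat _) (E⁄Qb) q.2
        (fun i hi => absurd rfl hi)
      rw [e1]
      exact h1
    · intro ht
      rw [e2]
      refine h r (fun _ => E⁄Qb) (fun _ => hE') D (fun _ => E⁄Qb) (fun _ => hE') Y 0 L u F l ξ hξ
        c.support (fun j => c j.1) (fun j => j.1.1) (fun j => j.1.2) (fun j => hmat _)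
        (fun j i => (hc.1.1 j.1 j.2).2 i) (fun M hM => ?_) (fun M hM E' z hz => ?_)
      · have h1 := hc.2 M hM
        rw [Finsupp.sum, ← Finset.sum_coe_sort] at h1
        exact h1
      · by_cases hEE : E' = (E⁄Qb)
        · subst hEE
          have h1 := ht (M, z)
          rw [e1] at h1
          exact h1
        · have hz0 : z = 0 := funext fun i => hz i (Ne.symm hEE)
          have h2 : ∀ j : c.support, bdet E' M z j.1.1 j.1.2 = 0 := by
            intro j
            rw [bdet]
            refine Finset.sum_eq_zero fun i _ => ?_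
            rw [trk_ne (Ne.symm hEE), smul_zero]
          simp only [h2, smul_zero, Finset.sum_const_zero]
          exact IsOfFinAddOrder.zero
  apply le_antisymm
  · -- upper bound
    let ψ : Z →+ (Fin (mul r D) → G) :=
      { toFun := fun c i => ⟨tst (E⁄Qb) (p i) c.1, hmem c.1 c.2 _⟩
        map_zero' := by
          funext i
          apply Subtype.ext
          exact map_zero _
        map_add' := by
          intro c c'
          funext i
          apply Subtype.ext
          exact map_add _ _ _ }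
    refine (rank_le (α.comp Z.subtype) ψ fun c hc => ?_).trans (rank_fun_le _ _)
    change IsOfFinAddOrder (α c.1)
    rw [htor c.1 c.2]
    intro q
    obtain ⟨n, a, hn, hq⟩ := hx q
    have h1 := tst_relation (E := E⁄Qb) hq c.1
    have h2 : ∀ i, tst (E⁄Qb) (p i) c.1 = 0 := fun i => congrArg Subtype.val (congrFun hc i)
    simp only [h2, smul_zero, Finset.sum_const_zero] at h1
    rw [isOfFinAddOrder_iff_zsmul_eq_zero]
    exact ⟨n, hn, h1⟩
  · -- lower bound
    obtain ⟨S, hS, hli⟩ := exists_set_linearIndependent ℤ G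
    let v₀ : Fin (mul r D) × S →
        ((Matrix (Fin r) (Fin D) ℤ × Pts (fun _ : Fin r => E⁄Qb)) →₀ ℤ) := fun s =>
      Finsupp.single ((p s.1).1, fun i => (p s.1).2 i • s.2.1.1) 1 -
        Finsupp.single ((p s.1).1, 0) 1
    have hv₀ : ∀ s, v₀ s ∈ Z := by
      intro s
      refine ⟨⟨fun P hP => ⟨hmat _, fun i => ?_⟩, fun σ => ?_⟩, fun M hM => ?_⟩
      · rcases Finset.mem_union.1 (Finsupp.support_sub hP) with h1 | h1
        · rw [Finset.mem_singleton.1 (Finsupp.support_single_subset h1)]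
          exact zsmul_mem s.2.1.2.1 _
        · rw [Finset.mem_singleton.1 (Finsupp.support_single_subset h1)]
          exact zero_mem _
      · have h5 := (Finsupp.mapDomain.addMonoidHom
          (fun (p : Matrix (Fin r) (Fin D) ℤ × Pts (fun _ : Fin r => E⁄Qb)) =>
            ((p.1, fun i => gal σ (p.2 i)) :
              Matrix (Fin r) (Fin D) ℤ × Pts (fun _ : Fin r => E⁄Qb)))).map_sub
            (Finsupp.single ((p s.1).1, fun i => (p s.1).2 i • s.2.1.1) (1 : ℤ))
            (Finsupp.single ((p s.1).1, 0) (1 : ℤ))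
        change Finsupp.mapDomain _ (v₀ s) = Finsupp.mapDomain _ _ - Finsupp.mapDomain _ _ at h5
        rw [h5, Finsupp.mapDomain_single, Finsupp.mapDomain_single]
        have h6 : (fun i => gal σ ((p s.1).2 i • s.2.1.1)) = fun i => (p s.1).2 i • s.2.1.1 := by
          funext i
          rw [map_zsmul, s.2.1.2.2 σ]
        have h7 : (fun i : Fin r => gal σ ((0 : Pts (fun _ : Fin r => E⁄Qb)) i)) = 0 := by
          funext i
          exact map_zero _
        rw [h6, h7]
      · rw [Finsupp.sum_sub_index (fun _ _ _ => sub_mul _ _ _),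
          Finsupp.sum_single_index (zero_mul _), Finsupp.sum_single_index (zero_mul _), sub_self]
    have hv₁ : ∀ s q, tst (E⁄Qb) q (v₀ s) = kf (p s.1) q • s.2.1.1 := by
      intro s q
      rw [map_sub, tst_single, tst_single]
      simp only [Pi.zero_apply, smul_zero, Finset.sum_const_zero, sub_zero, one_smul, smul_smul]
      rw [← Finset.sum_smul]
      congr 1
      have h1 := kf_linear (p s.1).1 (p s.1).2 q
      rw [show ((p s.1).1, (p s.1).2) = p s.1 from rfl] at h1
      rw [h1]
      exact Finset.sum_congr rfl fun i _ => by ring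
    have hli2 : LinearIndependent ℤ (fun s : Fin (mul r D) × S =>
        (⟨α (v₀ s), ⟨⟨v₀ s, hv₀ s⟩, rfl⟩⟩ : (α.comp Z.subtype).range)) := by
      rw [linearIndependent_iff']
      intro T n hn s hs
      have h1 : α (∑ s ∈ T, n s • v₀ s) = 0 := by
        rw [map_sum]
        have h2 := congrArg Subtype.val hn
        rw [AddSubgroup.val_finsetSum] at h2
        rw [AddSubgroup.coe_zero] at h2
        rw [← h2]
        refine Finset.sum_congr rfl fun s _ => ?_
        rw [map_zsmul]
        rfl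
      have h3 : ∀ q, IsOfFinAddOrder (∑ s ∈ T, (n s * kf (p s.1) q) • s.2.1.1) := by
        intro q
        have h4 := (htor _ (sum_mem fun s _ => zsmul_mem (hv₀ s) (n s))).1
          (by rw [h1]; exact IsOfFinAddOrder.zero) q
        rw [map_sum] at h4
        have h5 : ∑ s ∈ T, (n s * kf (p s.1) q) • s.2.1.1 =
            ∑ s ∈ T, tst (E⁄Qb) q (n s • v₀ s) :=
          Finset.sum_congr rfl fun s _ => by rw [map_zsmul, hv₁, mul_smul]
        rw [h5]
        exact h4
      exact lin_step hli (fun i q => kf (p i) q) hp T n h3 s hs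
    have h16 := hli2.cardinal_le_rank
    rw [Cardinal.mk_prod, Cardinal.lift_id, Cardinal.lift_id, Cardinal.mk_fin, hS] at h16
    exact h16

end Pool.Agent.LibCV66
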