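import Pool.Agent.LibAC34.Stmt2

/-!
The homologically trivial cycles over a number field on a power of an elliptic curve.
-/

open WeierstrassCurve Pool.Agent.LibBH2 Pool.Agent.LibIG50 Pool.Agent.LibCHd Pool.Agent.LibGG
  Pool.Agent.LibAC34
open scoped Classical

namespace Pool.Agent.LibCV66

variable {r D : ℕ}

/-- the number `det (Mᵀ N) * det ((M | z)ᵀ (N | w))` for `p = (N, w)` and `q = (M, z)` -/
def kf (p q : Matrix (Fin r) (Fin D) ℤ × (Fin r → ℤ)) : ℤ :=
  (q.1.transpose * p.1).det * ((bd q.1 q.2).transpose * bd p.1 p.2).det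

/-- the dimension of the space of polynomial functions `(M, z) ↦ kf (N, w) (M, z)` spanned by all
`(N, w)`: the multiplicity of `H¹(E)` in the algebraic part of the cohomology in question -/
noncomputable def mul (r D : ℕ) : ℕ :=
  Module.finrank ℚ (Submodule.span ℚ (Set.range
    fun p q : Matrix (Fin r) (Fin D) ℤ × (Fin r → ℤ) => (kf p q : ℚ)))

variable {K : Type} [Field K] [Algebra K Qb]

/-- the homologically trivial combinations among `ZKD Γ V E` -/
def ZK0 (Γ : Grid) (V : Fin D → WeierstrassCurve K) (E : Fin r → WeierstrassCurve K) :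
    Set ((Matrix (Fin r) (Fin D) ℤ × Pts (fun i => (E i)⁄Qb)) →₀ ℤ) :=
  {c | c ∈ ZKD Γ V E ∧ ∀ M, Mat (fun a => (V a)⁄Qb) (fun i => (E i)⁄Qb) M →
    (c.sum fun p n => n * (M.transpose * p.1).det ^ 2) = 0}

/-- the points of `E` over `K` which belong to the group `Γ E` -/
def GK (Γ : Grid) (E : WeierstrassCurve K) : Set (E⁄Qb).toAffine.Point :=
  {R | R ∈ Γ (E⁄Qb) ∧ ∀ σ : Qb ≃ₐ[K] Qb, gal σ R = R}

/-- **Exact rank.** For an elliptic curve `E` over `K` the classes of the homologically trivial cycles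
`c` over `K` of dimension `D` on `E ^ r` which are combinations of translates of the images of `E ^ D` by
points with components in `Γ E` generate a group of rank `mul r D * rank (E(K) ∩ Γ E)`. -/
def Exact (K : Type) [Field K] [Algebra K Qb] (Γ : Grid) : Prop :=
  ∀ (E : WeierstrassCurve K), E.IsElliptic → ∀ (r D : ℕ) (Y : Prj Qb) (L : Type) [Field L]
    [Algebra Qb L] (u : Pnt (fun _ : Fin r => E⁄Qb) Y L) (F : Type) [Field F] [Algebra Qb F]
    (l : L →ₐ[Qb] F) (ξ : ∀ _ : Fin D, ((E⁄Qb)⁄F).toAffine.Point),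
    IsGen 0 l (fun _ => E⁄Qb) ξ →
      rk (actD l (0 + D) ξ u '' ZK0 Γ (fun _ => E) (fun _ => E)) = mul r D * rk (GK Γ E)

end Pool.Agent.LibCV66
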