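import Pool.Agent.LibCV66.Defs
import Pool.Agent.LibAC34.A6
import Pool.Agent.LibAC34.A3
import Pool.Agent.LibAC34.A2

/-!
[CV66 T1] generic points of a product of elliptic curves.

Plan. `cof w` is generated by the coordinates. `trdeg (cof w) ≤ D` always: `trdeg_adjoin_le` (LibAC34/A6)
with `L = k`, `e = 0`, `S = univ`. `w0 w` exists by `exists_pt` (LibAC34/A1).
`gn_map`: an embedding `s : F → G` maps `cof w` isomorphically to `cof (mp s w)` (`coo_mp`).
`gn_unique`: by induction on `D` (or over `Fin D` with the last index split off): let `w'` be the first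
`D` components of a generic `w` with `D + 1` components, `M₀ = cof w'`, `M = cof w`. Then
`trdeg M₀ ≤ D`, so by additivity (`trdeg M₀ + trdeg_(M₀) M = D + 1`, and the last step has
transcendence degree `≤ 1`) `w'` is generic and the abscissa of the last component is transcendental
over `M₀` (in particular it is not the origin): `Gen1 (M₀ → M) (V last) (w last)` (`gen1_of_dim`, LibAC34/A2);
the same for `η`. The induction hypothesis gives `τ₀ : cof w' → Ω`, and `gen1_lift` (LibAC34/A3) extends it
to `cof w` (the abscissa of `η last` is transcendental over `τ₀ (cof w')`, which lies in `cof η'`).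
Uniqueness: `cof w` is generated over `k` by the coordinates.
`gn_of_le`: if the coordinates of a generic `y` lie in the field of the coordinates of `w` then `w` is
generic.
-/

open WeierstrassCurve Pool.Agent.LibBH2 Pool.Agent.LibIG50 Pool.Agent.LibCHd Pool.Agent.LibAC34
open scoped Classical

namespace Pool.Agent.LibCV66

variable {k : Type} [Field k] {D : ℕ} {V : Fin D → WeierstrassCurve k}
  {F : Type} [Field F] [Algebra k F] {Ω : Type} [Field Ω] [Algebra k Ω]

/-- the field generated by the coordinates of a point of `V 1 × ... × V D` -/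
noncomputable def cof (w : ∀ a, ((V a)⁄F).toAffine.Point) : IntermediateField k F :=
  IntermediateField.adjoin k {c | ∃ a, c ∈ coo (w a)}

/-- `w` is a generic point of `V 1 × ... × V D` -/
def Gn (w : ∀ a, ((V a)⁄F).toAffine.Point) : Prop :=
  Algebra.trdeg k (cof w) = (D : Cardinal)

/-- the point `w` with coordinates in `cof w` -/
noncomputable def w0 (w : ∀ a, ((V a)⁄F).toAffine.Point) (a : Fin D) :
    ((V a)⁄(cof w)).toAffine.Point :=
  (exists_pt (cof w) (w a) fun _ hc => IntermediateField.subset_adjoin _ _ ⟨a, hc⟩).choose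

theorem w0_spec (w : ∀ a, ((V a)⁄F).toAffine.Point) (a : Fin D) :
    mp (cof w).val (w0 w a) = w a :=
  (exists_pt (cof w) (w a) fun _ hc => IntermediateField.subset_adjoin _ _ ⟨a, hc⟩).choose_spec

section Aux

open scoped IntermediateField.algebraAdjoinAdjoin in
private theorem T1_trdeg_adjoin {F K : Type} [Field F] [Field K] [Algebra F K] (s : Set K) :
    Algebra.trdeg F (IntermediateField.adjoin F s) ≤ Cardinal.mk s := by
  have h1 : Algebra.trdeg F (MvPolynomial.aeval (Subtype.val : s → K) :
      MvPolynomial s F →ₐ[F] K).range ≤ Cardinal.mk s := by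
    refine (trdeg_le_of_surjective (MvPolynomial.aeval (Subtype.val : s → K) :
      MvPolynomial s F →ₐ[F] K).rangeRestrict (AlgHom.rangeRestrict_surjective _)).trans ?_
    rw [MvPolynomial.trdeg_of_isDomain, Cardinal.lift_id]
  rw [← Algebra.adjoin_eq_range] at h1
  have h3 := trdeg_add_eq F (Algebra.adjoin F s) (A := IntermediateField.adjoin F s)
  rw [trdeg_eq_zero (R := Algebra.adjoin F s), add_zero] at h3
  rw [← h3]
  exact h1

private theorem T1_trdeg_le {F K : Type} [Field F] [Field K] [Algebra F K] (s : Set K)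
    (L : IntermediateField F K)
    (h : L ≤ (algebraicClosure (IntermediateField.adjoin F s) K).restrictScalars F) :
    Algebra.trdeg F L ≤ Cardinal.mk s := by
  refine (trdeg_le_of_injective (IntermediateField.inclusion h)
    (IntermediateField.inclusion_injective h)).trans ?_
  have h3 := trdeg_add_eq F (IntermediateField.adjoin F s)
    (A := algebraicClosure (IntermediateField.adjoin F s) K)
  rw [trdeg_eq_zero (R := IntermediateField.adjoin F s), add_zero] at h3
  have h4 : Algebra.trdeg F
      ((algebraicClosure (IntermediateField.adjoin F s) K).restrictScalars F) =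
    Algebra.trdeg F (algebraicClosure (IntermediateField.adjoin F s) K) := rfl
  rw [h4, ← h3]
  exact T1_trdeg_adjoin s

private theorem T1_quad {F K : Type} [Field F] [Field K] [Algebra F K]
    (A : IntermediateField F K) (b c y : K) (hb : b ∈ A) (hc : c ∈ A)
    (h : y ^ 2 + b * y + c = 0) : IsAlgebraic A y := by
  refine ⟨Polynomial.X ^ 2 + Polynomial.C ⟨b, hb⟩ * Polynomial.X + Polynomial.C ⟨c, hc⟩,
    ?_, ?_⟩
  · intro h0
    have := congrArg (fun p => Polynomial.coeff p 2) h0
    simp at this
  · simp only [map_add, map_mul, map_pow, Polynomial.aeval_X, Polynomial.aeval_C]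
    exact h

/-- the coordinates of a point are algebraic over the field generated by `x` -/
private theorem T1_coo {k L K : Type} [Field k] [Field L] [Algebra k L] [Field K] [Algebra k K]
    [Algebra L K] [IsScalarTower k L K] {E : WeierstrassCurve k} (P : (E⁄K).toAffine.Point)
    (s : Set K) (hs : hc P 0 ∈ s) (c : K) (hc' : c ∈ coo P) :
    c ∈ (algebraicClosure (IntermediateField.adjoin L s) K).restrictScalars L := by
  have hx : hc P 0 ∈ IntermediateField.adjoin L s := IntermediateField.subset_adjoin _ _ hs
  have hkA : ∀ a : k, algebraMap k K a ∈ IntermediateField.adjoin L s := fun a => by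
    rw [IsScalarTower.algebraMap_apply k L K]
    exact (IntermediateField.adjoin L s).algebraMap_mem _
  have hA : ∀ z ∈ IntermediateField.adjoin L s,
      z ∈ (algebraicClosure (IntermediateField.adjoin L s) K).restrictScalars L := fun z hz =>
    mem_algebraicClosure_iff.2
      (isAlgebraic_algebraMap (R := IntermediateField.adjoin L s) (⟨z, hz⟩ :
        IntermediateField.adjoin L s))
  have hall : ∀ j : Fin 3,
      hc P j ∈ (algebraicClosure (IntermediateField.adjoin L s) K).restrictScalars L := by
    intro j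
    match P, hx with
    | .zero, hx =>
      fin_cases j
      · exact zero_mem _
      · exact one_mem _
      · exact zero_mem _
    | .some x y h, hx =>
      have hx' : x ∈ IntermediateField.adjoin L s := hx
      fin_cases j
      · exact hA x hx'
      · refine mem_algebraicClosure_iff.2 (T1_quad _
          ((E⁄K).toAffine.a₁ * x + (E⁄K).toAffine.a₃)
          (-(x ^ 3 + (E⁄K).toAffine.a₂ * x ^ 2 + (E⁄K).toAffine.a₄ * x + (E⁄K).toAffine.a₆))
          y ?_ ?_ ?_)
        · exact add_mem (mul_mem (hkA _) hx') (hkA _)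
        · exact neg_mem (add_mem (add_mem (add_mem (pow_mem hx' 3)
            (mul_mem (hkA _) (pow_mem hx' 2))) (mul_mem (hkA _) hx')) (hkA _))
        · have he := (WeierstrassCurve.Affine.equation_iff _ _).1 h.1
          linear_combination he
      · exact one_mem _
  obtain ⟨i, j, rfl⟩ := hc'
  exact div_mem (hall i) (hall j)

/-- adding one point to a field adds at most one to the transcendence degree -/
private theorem T1_step {k K : Type} [Field k] [Field K] [Algebra k K]
    {E : WeierstrassCurve k} (M₀ M : IntermediateField k K) (P : (E⁄K).toAffine.Point)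
    (h : M ≤ IntermediateField.adjoin k ((M₀ : Set K) ∪ coo P)) :
    Algebra.trdeg k M ≤ Algebra.trdeg k M₀ + 1 := by
  let s : Set K := {hc P 0}
  let C := (algebraicClosure (IntermediateField.adjoin M₀ s) K).restrictScalars M₀
  have h1 : M ≤ C.restrictScalars k := by
    refine h.trans ?_
    rw [IntermediateField.adjoin_le_iff]
    rintro c (hz | hca)
    · exact C.algebraMap_mem (⟨c, hz⟩ : M₀)
    · exact T1_coo P s rfl c hca
  refine (trdeg_le_of_injective (IntermediateField.inclusion h1)
    (IntermediateField.inclusion_injective h1)).trans ?_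
  have h2 : Algebra.trdeg k (C.restrictScalars k) = Algebra.trdeg k C := rfl
  have h3 := trdeg_add_eq k M₀ (A := C)
  have h4 : Algebra.trdeg M₀ C ≤ Cardinal.mk s := T1_trdeg_le s C le_rfl
  have h5 : Cardinal.mk s = 1 := Cardinal.mk_singleton _
  rw [h5] at h4
  rw [h2, ← h3]
  exact add_le_add le_rfl h4

end Aux

private theorem T1_le {D : ℕ} {V : Fin (D + 1) → WeierstrassCurve k}
    (w : ∀ a, ((V a)⁄F).toAffine.Point) :
    cof (V := fun a : Fin D => V a.castSucc) (fun a => w a.castSucc) ≤ cof w := by
  refine IntermediateField.adjoin.mono _ _ _ ?_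
  rintro c ⟨a, ha⟩
  exact ⟨a.castSucc, ha⟩

private theorem T1_gen {D : ℕ} {V : Fin (D + 1) → WeierstrassCurve k}
    (w : ∀ a, ((V a)⁄F).toAffine.Point) :
    cof w ≤ IntermediateField.adjoin k
      ((cof (V := fun a : Fin D => V a.castSucc) (fun a => w a.castSucc) : Set F) ∪
        coo (w (Fin.last D))) := by
  unfold cof
  rw [IntermediateField.adjoin_le_iff]
  rintro c ⟨a, ha⟩
  refine Fin.lastCases (motive := fun a => c ∈ coo (w a) → _) ?_ ?_ a ha
  · intro h
    exact IntermediateField.subset_adjoin _ _ (Or.inr h)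
  · intro i h
    exact IntermediateField.subset_adjoin _ _
      (Or.inl (IntermediateField.subset_adjoin k
        {c | ∃ a : Fin D, c ∈ coo (w a.castSucc)} ⟨i, h⟩))

theorem trdeg_cof_le (w : ∀ a, ((V a)⁄F).toAffine.Point) :
    Algebra.trdeg k (cof w) ≤ (D : Cardinal) := by
  induction D with
  | zero =>
    have h1 : cof w ≤ ⊥ := by
      unfold cof
      rw [IntermediateField.adjoin_le_iff]
      rintro c ⟨a, -⟩
      exact a.elim0
    refine (trdeg_le_of_injective (IntermediateField.inclusion h1)
      (IntermediateField.inclusion_injective h1)).trans ?_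
    rw [(IntermediateField.botEquiv k F).trdeg_eq, trdeg_eq_zero (R := k) (A := k)]
    simp
  | succ D ih =>
    refine (T1_step _ _ (w (Fin.last D)) (T1_gen w)).trans ?_
    push_cast
    exact add_le_add (ih (fun a : Fin D => w a.castSucc)) le_rfl

private theorem T1_pred {D : ℕ} {V : Fin (D + 1) → WeierstrassCurve k}
    {w : ∀ a, ((V a)⁄F).toAffine.Point} (hw : Gn w) :
    Gn (V := fun a : Fin D => V a.castSucc) (fun a => w a.castSucc) := by
  refine le_antisymm (trdeg_cof_le _) ?_
  have h1 := T1_step _ _ (w (Fin.last D)) (T1_gen w)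
  rw [hw] at h1
  obtain ⟨n, hn⟩ := Cardinal.lt_aleph0.1
    ((trdeg_cof_le (V := fun a : Fin D => V a.castSucc) (fun a => w a.castSucc)).trans_lt
      (Cardinal.natCast_lt_aleph0 (n := D)))
  rw [hn] at h1 ⊢
  have h2 : D + 1 ≤ n + 1 := by exact_mod_cast h1
  have h3 : D ≤ n := by omega
  exact_mod_cast h3

private theorem T1_map {G : Type} [Field G] [Algebra k G] (s : F →ₐ[k] G)
    (w : ∀ a, ((V a)⁄F).toAffine.Point) :
    cof (fun a => mp s (w a)) = (cof w).map s := by
  unfold cof
  rw [IntermediateField.adjoin_map]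
  congr 1
  ext c
  constructor
  · rintro ⟨a, ha⟩
    rw [coo_mp] at ha
    obtain ⟨d, hd, rfl⟩ := ha
    exact ⟨d, ⟨a, hd⟩, rfl⟩
  · rintro ⟨d, ⟨a, hd⟩, rfl⟩
    refine ⟨a, ?_⟩
    rw [coo_mp]
    exact ⟨d, hd, rfl⟩

theorem gn_map {G : Type} [Field G] [Algebra k G] (s : F →ₐ[k] G)
    (w : ∀ a, ((V a)⁄F).toAffine.Point) :
    Gn (fun a => mp s (w a)) ↔ Gn w := by
  unfold Gn
  rw [T1_map, ← ((cof w).equivMap s).trdeg_eq]

theorem T1_top (w : ∀ a, ((V a)⁄F).toAffine.Point) : cof (w0 w) = ⊤ := by
  have h1 := T1_map (cof w).val (w0 w)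
  have h2 : (fun a => mp (cof w).val (w0 w a)) = w := funext (w0_spec w)
  rw [h2] at h1
  rw [eq_top_iff]
  intro z _
  have h3 : (z : F) ∈ (cof (w0 w)).map (cof w).val := by
    rw [← h1]
    exact z.2
  obtain ⟨z', hz', h4⟩ := h3
  have h5 : z' = z := Subtype.ext h4
  rw [← h5]
  exact hz'

private theorem T1_ex : ∀ (D : ℕ) (V : Fin D → WeierstrassCurve k) (M : Type) [Field M]
    [Algebra k M] (w : ∀ a, ((V a)⁄M).toAffine.Point) (η : ∀ a, ((V a)⁄Ω).toAffine.Point),
    cof w = ⊤ → Gn w → Gn η → ∃ τ : M →ₐ[k] Ω, ∀ a, mp τ (w a) = η a := by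
  intro D
  induction D with
  | zero =>
    intro V M _ _ w η ht hw hη
    have h1 : (⊤ : IntermediateField k M) = ⊥ := by
      rw [← ht, eq_bot_iff]
      unfold cof
      rw [IntermediateField.adjoin_le_iff]
      rintro c ⟨a, -⟩
      exact a.elim0
    refine ⟨(Algebra.ofId k Ω).comp (((IntermediateField.botEquiv k M).toAlgHom.comp
      (IntermediateField.inclusion h1.le)).comp
        (IntermediateField.topEquiv (F := k) (E := M)).symm.toAlgHom), fun a => a.elim0⟩
  | succ D ih =>
    intro V M _ _ w η ht hw hη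
    let V' : Fin D → WeierstrassCurve k := fun a => V a.castSucc
    let w' : ∀ a, ((V' a)⁄M).toAffine.Point := fun a => w a.castSucc
    let η' : ∀ a, ((V' a)⁄Ω).toAffine.Point := fun a => η a.castSucc
    have hw' : Gn w' := T1_pred hw
    have hη' : Gn η' := T1_pred hη
    have hw0 : Gn (w0 w') := by
      rw [← gn_map (cof w').val (w0 w')]
      have h2 : (fun a => mp (cof w').val (w0 w' a)) = w' := funext (w0_spec w')
      rw [h2]
      exact hw'
    obtain ⟨τ, hτ⟩ := ih V' (cof w') (w0 w') η' (T1_top w') hw0 hη'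
    -- the last component of `w`
    have hg : Gen1 (cof w').val (V (Fin.last D)) (w (Fin.last D)) := by
      refine gen1_of_dim (d := D) _ _ (trdeg_cof_le w') ?_ ?_
      · have h3 : Algebra.trdeg k (⊤ : IntermediateField k M) = Algebra.trdeg k M :=
          (IntermediateField.topEquiv (F := k) (E := M)).trdeg_eq
        rw [← h3, ← ht]
        exact hw
      · rw [eq_top_iff, ← ht]
        refine (T1_gen w).trans (IntermediateField.adjoin.mono _ _ _ ?_)
        rintro c (hc' | hc')
        · exact Or.inl ⟨⟨c, hc'⟩, rfl⟩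
        · exact Or.inr hc'
    -- the last component of `η`
    have hle : cof η' ≤ cof η := T1_le η
    have hgη : Gen1 (IntermediateField.inclusion hle) (V (Fin.last D)) (w0 η (Fin.last D)) := by
      refine gen1_of_dim (d := D) _ _ (trdeg_cof_le η') hη ?_
      rw [eq_top_iff, ← T1_top η]
      refine (T1_gen (w0 η)).trans ?_
      rw [IntermediateField.adjoin_le_iff]
      rintro c (hc' | hc')
      · refine IntermediateField.subset_adjoin _ _ (Or.inl ?_)
        have h4 : (c : Ω) ∈ cof η' := by
          have h5 : (c : Ω) ∈ (cof (V := V') (fun a => w0 η a.castSucc)).map (cof η).val :=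
            ⟨c, hc', rfl⟩
          rw [← T1_map] at h5
          have h6 : (fun a : Fin D => mp (cof η).val (w0 η a.castSucc)) = η' :=
            funext fun a => w0_spec η a.castSucc
          rw [h6] at h5
          exact h5
        exact ⟨⟨c, h4⟩, Subtype.ext rfl⟩
      · exact IntermediateField.subset_adjoin _ _ (Or.inr hc')
    obtain ⟨x, y, h, hxy, htr, -⟩ := hgη
    obtain ⟨h', e'⟩ := mp_some (cof η).val x y h
    have hlast : η (Fin.last D) = .some (x : Ω) (y : Ω) h' := by
      rw [← w0_spec η (Fin.last D), hxy, e']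
      rfl
    -- the range of `τ`
    have hr : ∀ z, τ z ∈ cof η' := by
      intro z
      have h7 : cof (w0 w') ≤ (cof η').comap τ := by
        refine IntermediateField.adjoin_le_iff.2 ?_
        rintro c ⟨a, ha⟩
        show τ c ∈ cof η'
        refine IntermediateField.subset_adjoin _ _ ⟨a, ?_⟩
        rw [← hτ a, coo_mp]
        exact ⟨c, ha, rfl⟩
      rw [T1_top w'] at h7
      exact h7 (IntermediateField.mem_top (x := z))
    let τ' : cof w' →ₐ[k] cof η' := τ.codRestrict (cof η').toSubalgebra hr
    obtain ⟨j, hj, hj'⟩ := gen1_lift (cof w').val (w (Fin.last D)) hg τ (x : Ω) (y : Ω) h' (by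
      intro G hG h8
      have hG' : G.map (τ' : cof w' →+* cof η') ≠ 0 :=
        (Polynomial.map_ne_zero_iff (τ' : cof w' →+* cof η').injective).2 hG
      apply htr _ hG'
      rw [Polynomial.eval₂_map]
      have h9 : (cof η).val (Polynomial.eval₂
          (((IntermediateField.inclusion hle : cof η' →ₐ[k] cof η) : cof η' →+* cof η).comp
            (τ' : cof w' →+* cof η')) x G) = 0 := by
        rw [← h8]
        exact Polynomial.hom_eval₂ G _ ((cof η).val : cof η →+* Ω) x
      exact Subtype.ext h9)
    refine ⟨j, fun a => ?_⟩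
    refine Fin.lastCases ?_ ?_ a
    · rw [hj', hlast]
    · intro i
      have h10 : w i.castSucc = mp (cof w').val (w0 w' i) := (w0_spec w' i).symm
      have h11 : j.comp (cof w').val = τ := AlgHom.ext hj
      rw [h10, mp_comp, h11]
      exact hτ i

theorem gn_unique (hV : ∀ a, (V a).IsElliptic) {w : ∀ a, ((V a)⁄F).toAffine.Point}
    {η : ∀ a, ((V a)⁄Ω).toAffine.Point} (hw : Gn w) (hη : Gn η) :
    ∃! τ : cof w →ₐ[k] Ω, ∀ a, mp τ (w0 w a) = η a := by
  have hw0 : Gn (w0 w) := by
    rw [← gn_map (cof w).val (w0 w)]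
    have h2 : (fun a => mp (cof w).val (w0 w a)) = w := funext (w0_spec w)
    rw [h2]
    exact hw
  obtain ⟨τ, hτ⟩ := T1_ex D V (cof w) (w0 w) η (T1_top w) hw0 hη
  refine ⟨τ, hτ, fun τ' hτ' => ?_⟩
  refine IntermediateField.algHom_ext_of_eq_adjoin k (S := cof w)
    (s := {c | ∃ a, c ∈ coo (w a)}) rfl ?_
  rintro c ⟨a, i, j, hc'⟩
  have h1 : ∀ i, (cof w).val (hc (w0 w a) i) = hc (w a) i := by
    intro i
    rw [← hc_mp, w0_spec]
  have h2 : ∀ (σ : cof w →ₐ[k] Ω), (∀ a, mp σ (w0 w a) = η a) → ∀ z : cof w, (z : F) = c →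
      σ z = hc (η a) i / hc (η a) j := by
    intro σ hσ z hz
    have h3 : z = hc (w0 w a) i / hc (w0 w a) j := by
      apply Subtype.ext
      rw [hz, hc', ← h1, ← h1]
      exact (map_div₀ (cof w).val _ _).symm
    rw [h3, map_div₀, ← hc_mp, ← hc_mp, hσ a]
  rw [h2 τ' hτ' _ rfl, h2 τ hτ _ rfl]

theorem gn_of_le {V' : Fin D → WeierstrassCurve k}
    {w : ∀ a, ((V a)⁄F).toAffine.Point} {y : ∀ b, ((V' b)⁄F).toAffine.Point} (hy : Gn y)
    (h : cof y ≤ cof w) : Gn w := by
  refine le_antisymm (trdeg_cof_le w) ?_
  have h1 : Algebra.trdeg k (cof y) = (D : Cardinal) := hy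
  rw [← h1]
  exact trdeg_le_of_injective (IntermediateField.inclusion h)
    (IntermediateField.inclusion_injective h)

end Pool.Agent.LibCV66
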