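import Pool.Agent.LibCV66.T1
import Pool.Agent.LibCV66.J1
import Pool.Agent.LibCHd.Small
import Pool.Agent.LibCHd.B5

/-!
[CV66 T3] specialisation of generic points; function fields over the field of a generic point.

Plan. `triv_of_gn`. Let `p = (v, ε)`. The point `ev p (w a)` is the image under `ε` of `rd v (V a) (w a)`
(`ev_apply`), so `fun a => rd v (V a) (w a)` is generic (`gn_map`). The field `R` generated by its coordinates
has transcendence degree `D` and consists of residues: let `j = (cof w).val`; LibCHd/Small.lean:
`resField (isRes_resF v) j` is the field of the residues of the `v`-regular elements of `cof w`, it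
contains the coordinates of the specialised points (`spG_resField`, `SpR_iff`), and
`trdeg_resField`: its transcendence degree is at most that of `cof w`. So
`D ≤ trdeg (cof w) ≤ D` (`trdeg_cof_le`): `Gn w`. If `v` were not trivial on `cof w` the residue field would
have transcendence degree `< D` (Abhyankar; `ord_triv_of_indep` in LibCHd/A1: if the
residues of `D` elements, `D ≥ trdeg`, are algebraically independent then the orders of all nonzero elements
are zero: choose `D` elements of `cof w` with algebraically independent residues, a transcendence basis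
of `resField`).
`funF_over`: `F` is finitely generated over `k` (`FunF`), so over `M = cof w`, and
`trdeg_M F = (D + 1) - D = 1` (`Algebra.trdeg_add_eq`, `FunF.trdeg`; cancel the finite cardinal `D`); choose
`t` in `F` transcendental over `M`; `F` is algebraic and finitely generated over `M(t)`, hence finite.
-/

open WeierstrassCurve Pool.Agent.LibBH2 Pool.Agent.LibIG50 Pool.Agent.LibCHd Pool.Agent.LibAC34
open scoped Classical

namespace Pool.Agent.LibCV66

variable {k : Type} [Field k] {D : ℕ} {V : Fin D → WeierstrassCurve k} [∀ a, (V a).IsElliptic]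
  {F : Type} [Field F] [Algebra k F] {Ω : Type} [Field Ω] [Algebra k Ω]

/-- the coordinates of the specialised points are residues -/
private theorem T3_cof_le (v : Place k F) (w : ∀ a, ((V a)⁄F).toAffine.Point) :
    cof (fun a => rd v (V a) (w a)) ≤ resField (isRes_resF v) (cof w).val := by
  unfold cof
  rw [IntermediateField.adjoin_le_iff]
  rintro c ⟨a, hc⟩
  obtain ⟨p₀, hp₀⟩ := spG_resField (isRes_resF v) (cof w).val (w0 w a)
  have h1 : SpR v (w a) (mp (resField (isRes_resF v) (cof w).val).val p₀) := by
    rw [SpR_iff]
    have h2 : mp (cof w).val (w0 w a) = w a := w0_spec w a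
    have h3 : SpG v (resF v) (mp (cof w).val (w0 w a))
      (mp (resField (isRes_resF v) (cof w).val).val p₀) := hp₀
    rw [h2] at h3
    exact h3
  have h4 : rd v (V a) (w a) = mp (resField (isRes_resF v) (cof w).val).val p₀ := rd_eq h1
  have h5 : c ∈ coo (rd v (V a) (w a)) := hc
  rw [h4, coo_mp] at h5
  obtain ⟨c', -, rfl⟩ := h5
  exact c'.2

theorem triv_of_gn (p : Geo k F Ω) (w : ∀ a, ((V a)⁄F).toAffine.Point)
    (h : Gn (fun a => ev p (w a))) : Gn w ∧ ∀ c ∈ cof w, p.1.ord c = 0 := by
  have h' : Gn (fun a => rd p.1 (V a) (w a)) :=
    (gn_map p.2 (fun a => rd p.1 (V a) (w a))).1 h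
  have hle := T3_cof_le p.1 w
  have hM := trdeg_cof_le w
  have hD : (D : Cardinal) ≤ Algebra.trdeg k (resField (isRes_resF p.1) (cof w).val) := by
    have h1 : Algebra.trdeg k (cof (fun a => rd p.1 (V a) (w a))) = (D : Cardinal) := h'
    rw [← h1]
    exact trdeg_le_of_injective (IntermediateField.inclusion hle)
      (IntermediateField.inclusion_injective hle)
  constructor
  · refine le_antisymm hM ?_
    obtain ⟨s, hs⟩ := exists_isTranscendenceBasis k (resField (isRes_resF p.1) (cof w).val)
    rw [← hs.cardinalMk_eq_trdeg] at hD
    obtain ⟨e⟩ : Nonempty (Fin D ↪ s) := by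
      rw [← Cardinal.mk_fin] at hD
      exact hD
    have hind : AlgebraicIndependent k
        (fun i : Fin D => ((e i : resField (isRes_resF p.1) (cof w).val))) :=
      hs.1.comp e e.injective
    choose m hm using fun i : Fin D => ((e i : resField (isRes_resF p.1) (cof w).val)).2
    have hmi : AlgebraicIndependent k m := by
      rw [algebraicIndependent_iff]
      intro G hG0
      by_contra hne
      obtain ⟨h1, h2⟩ := res_aeval (isRes_resF p.1) (cof w).val m (fun i => (hm i).1) G
      have h3 : MvPolynomial.aeval (fun i => resF p.1 ((cof w).val (m i))) G ≠ 0 := by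
        have h4 : (fun i => resF p.1 ((cof w).val (m i))) =
            fun i => (((e i : resField (isRes_resF p.1) (cof w).val)) : RF p.1) := by
          funext i; exact (hm i).2
        rw [h4]
        have h5 := hind.map' (f := (resField (isRes_resF p.1) (cof w).val).val)
          (resField (isRes_resF p.1) (cof w).val).val.injective
        exact fun h0 => hne (h5.eq_zero_of_aeval_eq_zero G h0)
      rw [← h2, hG0, map_zero, (isRes_resF p.1).zero] at h3
      exact h3 rfl
    have h6 := hmi.cardinalMk_le_trdeg
    rwa [Cardinal.mk_fin] at h6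
  · intro c hc
    by_contra hne
    have h1 := trdeg_resField hM (isRes_resF p.1) (cof w).val ⟨⟨c, hc⟩, hne⟩
    exact absurd hD (not_le.2 h1)

omit [∀ a, (V a).IsElliptic] in
theorem funF_over {w : ∀ a, ((V a)⁄F).toAffine.Point} (hw : Gn w) (hF : FunF k (D + 1) F) :
    FunF (cof w) 1 F := by
  have h1 : Algebra.trdeg k (cof w) + Algebra.trdeg (cof w) F = Algebra.trdeg k F :=
    trdeg_add_eq k (cof w) (A := F)
  have h2 : Algebra.trdeg k (cof w) = (D : Cardinal) := hw
  rw [hF.trdeg, h2, Nat.cast_add, Nat.cast_one] at h1
  have h3 : Algebra.trdeg (cof w) F = 1 :=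
    Cardinal.eq_of_add_eq_add_left h1 (Cardinal.natCast_lt_aleph0)
  obtain ⟨s, hs⟩ := exists_isTranscendenceBasis (cof w) F
  rw [← hs.cardinalMk_eq_trdeg] at h3
  obtain ⟨x, hx⟩ := Cardinal.eq_one_iff_unique.1 h3
  obtain ⟨u⟩ := hx
  have hsub : Subsingleton s := x
  let t : Fin 1 → F := fun _ => (u : F)
  have hrange : Set.range t = s := by
    ext y
    constructor
    · rintro ⟨i, rfl⟩
      exact u.2
    · intro hy
      exact ⟨0, congrArg Subtype.val (Subsingleton.elim u ⟨y, hy⟩)⟩
  have hti : AlgebraicIndependent (cof w) t :=
    hs.1.comp (fun _ : Fin 1 => u) (fun i j _ => Subsingleton.elim i j)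
  refine ⟨t, hti, ?_⟩
  have halg : Algebra.IsAlgebraic (IntermediateField.adjoin (cof w) (Set.range t)) F := by
    have h4 := hs.isAlgebraic_field
    rw [Subtype.range_coe] at h4
    rw [hrange]
    exact h4
  obtain ⟨t₀, ht₀, hfin⟩ := hF
  let b := Module.finBasis (IntermediateField.adjoin k (Set.range t₀)) F
  let S : Set F := Set.range t₀ ∪ Set.range b
  have hSfin : Finite S := Set.Finite.to_subtype ((Set.finite_range t₀).union (Set.finite_range b))
  have hint : ∀ y ∈ S, IsIntegral (IntermediateField.adjoin (cof w) (Set.range t)) y :=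
    fun y _ => (halg.isAlgebraic y).isIntegral
  have hfd := IntermediateField.finiteDimensional_adjoin hint
  have htop : IntermediateField.adjoin (IntermediateField.adjoin (cof w) (Set.range t)) S = ⊤ := by
    rw [eq_top_iff]
    intro y _
    haveI : IsScalarTower k (IntermediateField.adjoin (cof w) (Set.range t)) F :=
      IsScalarTower.of_algebraMap_eq fun _ => rfl
    have hk : IntermediateField.adjoin k (Set.range t₀) ≤
        ((IntermediateField.adjoin (IntermediateField.adjoin (cof w) (Set.range t))
          S).restrictScalars k) := by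
      rw [IntermediateField.adjoin_le_iff]
      intro z hz
      exact IntermediateField.subset_adjoin _ _ (Or.inl hz)
    rw [← b.sum_repr y]
    refine sum_mem fun i _ => ?_
    have h5 : ((b.repr y i : IntermediateField.adjoin k (Set.range t₀)) : F) ∈
        IntermediateField.adjoin (IntermediateField.adjoin (cof w) (Set.range t)) S :=
      hk (b.repr y i).2
    have h6 : b i ∈ IntermediateField.adjoin
        (IntermediateField.adjoin (cof w) (Set.range t)) S :=
      IntermediateField.subset_adjoin _ _ (Or.inr ⟨i, rfl⟩)
    exact mul_mem h5 h6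
  rw [htop] at hfd
  exact Module.Finite.equiv (IntermediateField.topEquiv
    (F := IntermediateField.adjoin (cof w) (Set.range t)) (E := F)).toLinearEquiv

end Pool.Agent.LibCV66
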